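import Pool.Agent.Work.MP_36677d_ray.Interface

/-! # Block FLB (helper20) -/

set_option autoImplicit false

open Set Filter Topology

namespace Pool.RY

open Pool.TL94

theorem FLB_mid {e : ℝ} {v : ℕ → ℝ} {N : ℕ} : ∀ j ∈ chg e v N, mdx j ≤ N ∧ |v (mdx j)| < e := by
  rintro ⟨i, t⟩ hj
  unfold chg at hj
  rw [Finset.mem_filter, Finset.mem_product, Finset.mem_range] at hj
  obtain ⟨⟨h1, -⟩, h2⟩ := hj
  simp only at h1 h2
  rcases h2 with ⟨rfl, h2, h3⟩ | ⟨rfl, h2, h3⟩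
  · exact ⟨by simp [mdx]; omega, by simpa [mdx] using h3⟩
  · exact ⟨by simp [mdx]; omega, by simpa [mdx] using h2⟩

theorem p_FLB : Stmt_FLB := by
  classical
  intro M _ H v e δ N D x
  have hmid : ∀ j ∈ chg e (fun i => v x ((i : ℝ) / (N : ℝ))) N,
      ((mdx j : ℕ) : ℝ) / (N : ℝ) ∈ Icc (0:ℝ) 1 ∧
      δ < dist (H x (((mdx j : ℕ) : ℝ) / (N : ℝ))) x := by
    intro j hj
    obtain ⟨h1, h2⟩ := FLB_mid j hj
    refine ⟨D.mem_t h1, ?_⟩
    by_contra hd
    push Not at hd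
    refine D.av x x (H x (((mdx j : ℕ) : ℝ) / (N : ℝ))) _ (((mdx j : ℕ) : ℝ) / (N : ℝ))
      (by rw [dist_self]; exact D.δ_pos.le) (by rw [dist_comm]; exact hd)
      (by rw [sub_self, abs_zero]; exact D.inv_nonneg) (D.mem_t h1) (D.mem_t h1) h2 rfl
  have hne : ∀ j ∈ chg e (fun i => v x ((i : ℝ) / (N : ℝ))) N,
      H x (((mdx j : ℕ) : ℝ) / (N : ℝ)) ≠ x := by
    intro j hj h
    have := (hmid j hj).2
    rw [h, dist_self] at this
    linarith [D.δ_pos]
  refine ⟨?_, ?_, ?_, ?_⟩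
  · exact par_one D.e_pos (D.t0 x) (D.tN x) (fun i hi => D.vstep x hi) (fun _ => trivial)
  · intro V hV
    unfold fl
    rw [par_eq_sum]
    refine Finset.sum_eq_zero fun j hj => ?_
    rw [if_neg (hV _ (hmid j hj).1 (hne j hj))]
  · intro V V1 V2 hV
    unfold fl
    rw [par_eq_sum, par_eq_sum, par_eq_sum, ← Finset.sum_add_distrib]
    refine Finset.sum_congr rfl fun j hj => ?_
    obtain ⟨h1, h2⟩ := hV _ (hmid j hj).1 (hne j hj)
    by_cases c1 : V1 (((mdx j : ℕ) : ℝ) / (N : ℝ))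
    · by_cases c2 : V2 (((mdx j : ℕ) : ℝ) / (N : ℝ))
      · exact absurd ⟨c1, c2⟩ h2
      · rw [if_pos (h1.2 (Or.inl c1)), if_pos c1, if_neg c2, add_zero]
    · by_cases c2 : V2 (((mdx j : ℕ) : ℝ) / (N : ℝ))
      · rw [if_pos (h1.2 (Or.inr c2)), if_neg c1, if_pos c2, zero_add]
      · rw [if_neg (fun h => (h1.1 h).elim c1 c2), if_neg c1, if_neg c2, add_zero]
  · intro V hV
    unfold fl at hV
    rw [par_eq_sum] at hV
    by_contra hcon
    push Not at hcon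
    rw [Finset.sum_eq_zero] at hV
    · exact zero_ne_one hV
    · intro j hj
      obtain ⟨h1, h2⟩ := hmid j hj
      rw [if_neg]
      intro hVj
      exact absurd (hcon _ h1 hVj) (not_le.2 h2)

end Pool.RY
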