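import Pool.Agent.Work.MP_36677d_ray.Interface

/-! Block KAP: the coordinate of the point where the arc from `p` to `w` leaves the ray. -/

set_option autoImplicit false

open Set Filter Topology

namespace Pool.RY

open Pool.TL94

theorem KAP_iff {M : Type} [MetricSpace M] (hHU : HU M) {γ : ℝ → M} {a b : M} (h : ArcFn γ a b)
    {s t u : ℝ} (hs : s ∈ Icc (0:ℝ) 1) (ht : t ∈ Icc (0:ℝ) 1) (hu : u ∈ Icc (0:ℝ) 1) :
    γ u ∈ seg (γ s) (γ t) ↔ (s ≤ u ∧ u ≤ t) ∨ (t ≤ u ∧ u ≤ s) := by
  rcases le_total s t with hst | hst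
  · rw [h.mem_seg_iff hHU hs.1 ht.2 hst hu.1 hu.2]
    constructor
    · exact fun h => Or.inl h
    · rintro (h | h)
      · exact h
      · exact ⟨hst.trans h.1, h.2.trans hst⟩
  · rw [seg_comm, h.mem_seg_iff hHU ht.1 hs.2 hst hu.1 hu.2]
    constructor
    · exact fun h => Or.inr h
    · rintro (h | h)
      · exact ⟨hst.trans h.1, h.2.trans hst⟩
      · exact h

theorem KAP_side {M : Type} [MetricSpace M] (hHU : HU M) {γ : ℝ → M} {a b : M} (h : ArcFn γ a b)
    {sp sk sw sr : ℝ} (hp : sp ∈ Icc (0:ℝ) 1) (hk : sk ∈ Icc (0:ℝ) 1) (hw : sw ∈ Icc (0:ℝ) 1)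
    (hr : sr ∈ Icc (0:ℝ) 1) (hne : sk ≠ sp) (h1 : γ sk ∈ seg (γ sp) (γ sw))
    (h2 : γ sk ∈ seg (γ sp) (γ sr)) :
    γ sr ∈ seg (γ sp) (γ sw) ∨ γ sw ∈ seg (γ sp) (γ sr) := by
  rw [KAP_iff hHU h hp hw hk] at h1
  rw [KAP_iff hHU h hp hr hk] at h2
  rw [KAP_iff hHU h hp hw hr, KAP_iff hHU h hp hr hw]
  rcases lt_or_gt_of_ne hne with h3 | h3
  · have h4 : sw ≤ sk := by
      rcases h1 with h1 | h1
      · linarith [h1.1]
      · exact h1.1
    have h5 : sr ≤ sk := by
      rcases h2 with h2 | h2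
      · linarith [h2.1]
      · exact h2.1
    rcases le_total sw sr with h6 | h6
    · left; right; exact ⟨h6, by linarith⟩
    · right; right; exact ⟨h6, by linarith⟩
  · have h4 : sk ≤ sw := by
      rcases h1 with h1 | h1
      · exact h1.2
      · linarith [h1.2]
    have h5 : sk ≤ sr := by
      rcases h2 with h2 | h2
      · exact h2.2
      · linarith [h2.2]
    rcases le_total sw sr with h6 | h6
    · right; left; exact ⟨by linarith, h6⟩
    · left; left; exact ⟨by linarith, h6⟩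

theorem KAP_arc {M : Type} [MetricSpace M] {H : M → ℝ → M} {v : M → ℝ → ℝ} {e : ℝ} {N : ℕ} {p : M}
    {r : ℝ → M} (hr : Ray H v e N p r) {S : ℝ} (hS : 0 < S) : ArcFn (fun u => r (S * u)) p (r S) where
  cont := hr.cont.comp (by fun_prop) (fun u hu => mul_nonneg hS.le hu.1)
  inj := by
    intro u hu w hw huw
    have h1 := hr.inj (show S * u ∈ Ici (0:ℝ) from mul_nonneg hS.le hu.1)
      (show S * w ∈ Ici (0:ℝ) from mul_nonneg hS.le hw.1) huw
    exact mul_left_cancel₀ hS.ne' h1
  zero := by rw [mul_zero]; exact hr.zero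
  one := by rw [mul_one]

theorem KAP_mem {M : Type} [MetricSpace M] {H : M → ℝ → M} {v : M → ℝ → ℝ} {e : ℝ} {N : ℕ} {p : M}
    {r : ℝ → M} (hHU : HU M) (hr : Ray H v e N p r) {s t : ℝ} (hs : 0 ≤ s) (ht : 0 ≤ t) :
    r s ∈ seg p (r t) ↔ s ≤ t := by
  constructor
  · intro h
    by_contra hcon
    push Not at hcon
    have hs0 : 0 < s := lt_of_le_of_lt ht hcon
    have hA := KAP_arc hr hs0
    have h1 := (hA.mem_iff0 hHU (t := t / s) (u := 1) (by positivity)
      (by rw [div_le_one hs0]; exact hcon.le) zero_le_one le_rfl).1 (by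
        simp only [mul_one]
        rw [mul_div_cancel₀ _ hs0.ne']
        exact h)
    rw [le_div_iff₀ hs0] at h1
    linarith
  · intro h
    rcases ht.eq_or_lt with h0 | h0
    · have : s = 0 := le_antisymm (by rw [h0]; exact h) hs
      rw [this, hr.zero]
      exact left_mem _ _
    · have hA := KAP_arc hr h0
      have h1 := hA.mem_seg hHU (u := s / t) (by positivity) (by rw [div_le_one h0]; exact h)
      simp only [mul_div_cancel₀ _ h0.ne'] at h1
      exact h1

theorem p_KAP : Stmt_KAP := by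
  intro M _ _ H v e N hHU hLin p r hr
  have key : ∀ w : M, ∃ k : ℝ, Joined p w → 0 ≤ k ∧ (∀ s : ℝ, 0 ≤ s → (r s ∈ seg p w ↔ s ≤ k)) ∧
      (0 < k → r k = w) := by
    intro w
    by_cases hpw : Joined p w
    swap
    · exact ⟨0, fun h => absurd h hpw⟩
    set E : Set ℝ := Ici 0 ∩ r ⁻¹' (seg p w) with hE
    have hE0 : (0:ℝ) ∈ E := ⟨le_refl (0:ℝ), by
      show r 0 ∈ seg p w
      rw [hr.zero]; exact left_mem _ _⟩
    have hEc : IsClosed E := hr.cont.preimage_isClosed_of_isClosed isClosed_Ici (isClosed_seg p w)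
    obtain ⟨s1, hs1, hs1'⟩ := hr.unb w hpw
    have hdown : ∀ s t : ℝ, 0 ≤ s → s ≤ t → t ∈ E → s ∈ E := by
      intro s t hs hst ht
      exact ⟨hs, seg_trans ((KAP_mem hHU hr hs (hs.trans hst)).2 hst) ht.2⟩
    have hEb : BddAbove E := by
      refine ⟨s1, fun s hs => ?_⟩
      by_contra hcon
      push Not at hcon
      exact hs1' (hdown s1 s hs1 hcon.le hs).2
    obtain ⟨k, hk⟩ : ∃ k, k = sSup E := ⟨_, rfl⟩
    have hkE : k ∈ E := by rw [hk]; exact hEc.csSup_mem ⟨0, hE0⟩ hEb
    have hk0 : 0 ≤ k := hkE.1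
    have hiff : ∀ s : ℝ, 0 ≤ s → (r s ∈ seg p w ↔ s ≤ k) := by
      intro s hs
      constructor
      · intro h
        rw [hk]
        exact le_csSup hEb ⟨hs, h⟩
      · intro h
        exact (hdown s k hs h hkE).2
    refine ⟨k, fun _ => ⟨hk0, hiff, ?_⟩⟩
    intro hkpos
    by_contra hne
    have hwp : p ≠ w := by
      intro h
      have h1 := hkE.2
      rw [← h, seg_self] at h1
      have h2 : r k = r 0 := by rw [hr.zero]; exact h1
      have h3 := hr.inj (show k ∈ Ici (0:ℝ) from hk0) (show (0:ℝ) ∈ Ici (0:ℝ) from le_refl (0:ℝ)) h2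
      linarith
    obtain ⟨γ₁, hγ₁⟩ := exists_arcFn hpw hwp
    obtain ⟨f, hf⟩ : ∃ f : ℝ → M, f = fun u => if u ≤ 1 then γ₁ (max 0 (min 1 (1 - u))) else
      r (max 0 (u - 1)) := ⟨_, rfl⟩
    have hfc : Continuous f := by
      rw [hf]
      apply Continuous.if_le
      · exact hγ₁.cont.comp_continuous (by fun_prop)
          (fun u => ⟨le_max_left _ _, max_le zero_le_one (min_le_left _ _)⟩)
      · exact hr.cont.comp_continuous (by fun_prop) (fun u => mem_Ici.2 (le_max_left _ _))
      · exact continuous_id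
      · exact continuous_const
      · intro u hu
        have hu' : u = 1 := hu
        rw [hu']
        simp only [sub_self]
        rw [min_eq_right zero_le_one, max_self, hγ₁.zero, hr.zero]
    have hf0 : f 0 = w := by
      rw [hf]
      simp only [sub_zero, min_self]
      rw [if_pos zero_le_one, max_eq_right zero_le_one, hγ₁.one]
    have hf1 : ∀ s : ℝ, 0 ≤ s → f (1 + s) = r s := by
      intro s hs
      rw [hf]
      simp only []
      rcases hs.eq_or_lt with h0 | h0
      · rw [← h0]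
        simp only [add_zero, sub_self]
        rw [if_pos le_rfl, min_eq_right zero_le_one, max_self, hγ₁.zero, hr.zero]
      · rw [if_neg (by linarith)]
        congr 1
        rw [add_sub_cancel_left]
        exact max_eq_right hs
    rcases hLin f 0 (1 + (k + 1)) (by linarith) hfc.continuousOn with ⟨x, hx⟩ | ⟨γ, a, b, hγ, hfγ⟩
    · have h1 := hx 0 ⟨le_rfl, by linarith⟩
      have h2 := hx (1 + 0) ⟨by linarith, by linarith⟩
      rw [hf0] at h1
      rw [hf1 0 le_rfl, hr.zero] at h2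
      exact hwp (h2.trans h1.symm)
    · obtain ⟨sw, hsw, hsw'⟩ := hfγ 0 ⟨le_rfl, by linarith⟩
      rw [hf0] at hsw'
      obtain ⟨sp, hsp, hsp'⟩ := hfγ (1 + 0) ⟨by linarith, by linarith⟩
      rw [hf1 0 le_rfl, hr.zero] at hsp'
      obtain ⟨sk, hsk, hsk'⟩ := hfγ (1 + k) ⟨by linarith, by linarith⟩
      rw [hf1 k hk0] at hsk'
      obtain ⟨sr, hsr, hsr'⟩ := hfγ (1 + (k + 1)) ⟨by linarith, by linarith⟩
      rw [hf1 (k + 1) (by linarith)] at hsr'
      have hne2 : sk ≠ sp := by
        intro h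
        rw [h, hsp'] at hsk'
        have h2 : r k = r 0 := by rw [hr.zero]; exact hsk'.symm
        have h3 := hr.inj (show k ∈ Ici (0:ℝ) from hk0) (show (0:ℝ) ∈ Ici (0:ℝ) from le_refl (0:ℝ)) h2
        linarith
      have h1 : γ sk ∈ seg (γ sp) (γ sw) := by
        rw [hsk', hsp', hsw']
        exact hkE.2
      have h2 : γ sk ∈ seg (γ sp) (γ sr) := by
        rw [hsk', hsp', hsr']
        exact (KAP_mem hHU hr hk0 (by linarith)).2 (by linarith)
      rcases KAP_side hHU hγ hsp hsk hsw hsr hne2 h1 h2 with h3 | h3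
      · rw [hsr', hsp', hsw'] at h3
        have := (hiff (k + 1) (by linarith)).1 h3
        linarith
      · rw [hsw', hsp', hsr'] at h3
        have hA := KAP_arc hr (show 0 < k + 1 by linarith)
        obtain ⟨u, hu0, hu1, hu⟩ := hA.exists_of_mem hHU h3
        have ht0 : 0 ≤ (k + 1) * u := by positivity
        obtain ⟨t, ht⟩ : ∃ t, t = (k + 1) * u := ⟨_, rfl⟩
        have hu' : r ((k + 1) * u) = w := hu
        rw [← ht] at hu' ht0
        have h4 : t ≤ k := (hiff t ht0).1 (by rw [hu']; exact right_mem _ _)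
        have h5 : k ≤ t := (KAP_mem hHU hr hk0 ht0).1 (by rw [hu']; exact hkE.2)
        have h6 : k = t := le_antisymm h5 h4
        rw [← h6] at hu'
        exact hne hu'
  choose kap hkap using key
  exact ⟨kap, hkap⟩

end Pool.RY
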