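import Pool.Agent.Work.MP_36677d_ray.Interface

set_option autoImplicit false

open Set Filter Topology

namespace Pool.RY

open Pool.TL94

theorem RDD_joined_img {M : Type} [MetricSpace M] {f : ℝ → M} {I : Set ℝ} (hI : Convex ℝ I)
    (hf : ContinuousOn f I) {a b : ℝ} (ha : a ∈ I) (hb : b ∈ I) : Joined (f a) (f b) := by
  have h1 : IsPathConnected I := hI.isPathConnected ⟨a, ha⟩
  have h2 : IsPathConnected (f '' I) := h1.image' hf
  exact (h2.joinedIn _ (mem_image_of_mem f ha) _ (mem_image_of_mem f hb)).joined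

theorem p_RDD (h1 : Stmt_KAP) (h2 : Stmt_MUC) (h3 : Stmt_FLB) : Stmt_RDD := by
  intro M _ _ H v e δ N D hHU hLin p r R hJ
  have hjr : ∀ s : ℝ, 0 ≤ s → Joined p (r s) := by
    intro s hs
    have := RDD_joined_img (convex_Ici (0 : ℝ)) R.cont (mem_Ici.2 le_rfl) (mem_Ici.2 hs)
    rwa [R.zero] at this
  have hjH : ∀ x, Joined p x → ∀ t ∈ Icc (0:ℝ) 1, Joined p (H x t) := by
    intro x hx t ht
    obtain ⟨t0, ht0, hx0⟩ := hJ x hx
    have hc : Continuous (fun t => H x t) := D.cH.comp (continuous_const.prodMk continuous_id)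
    have := RDD_joined_img (convex_Icc (0 : ℝ) 1) (f := fun t => H x t) hc.continuousOn ht0 ht
    have h' : Joined x (H x t) := by
      simpa only [hx0] using this
    exact hx.trans h'
  obtain ⟨kap, hkap⟩ := h1 M H v e N hHU hLin p r R
  have hmu := h2 M H v e N D.cH hHU p r R hjH kap hkap
  have hself : ∀ s : ℝ, 0 ≤ s → kap (r s) = s := by
    intro s hs
    obtain ⟨k0, k1, k2⟩ := hkap (r s) (hjr s hs)
    have hle : s ≤ kap (r s) := (k1 s hs).1 (right_mem p (r s))
    rcases hle.lt_or_eq with hlt | heq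
    · have hpos : 0 < kap (r s) := lt_of_le_of_lt hs hlt
      exact R.inj (mem_Ici.2 hpos.le) (mem_Ici.2 hs) (k2 hpos)
    · exact heq.symm
  refine ⟨fun s t => kap (H (r s) t), R.cont, hmu, ?_, ?_, ?_, ?_⟩
  · intro s hs t ht
    exact (hkap _ (hjH _ (hjr s hs) t ht)).1
  · intro s hs t ht hpos
    exact (hkap _ (hjH _ (hjr s hs) t ht)).2.2 hpos
  · intro s hs
    have hp1 := R.par1 s hs.le
    obtain ⟨t, ht, hb, hd⟩ := (h3 M H v e δ N D (r s)).2.2.2
      (fun t => H (r s) t ∈ Bey p (r s)) hp1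
    obtain ⟨k0, k1, k2⟩ := hkap _ (hjH _ (hjr s hs.le) t ht)
    have hle : s ≤ kap (H (r s) t) := (k1 s hs.le).1 hb
    have hpos : 0 < kap (H (r s) t) := lt_of_lt_of_le hs hle
    have heq := k2 hpos
    refine ⟨t, ht, ?_, ?_⟩
    · rcases hle.lt_or_eq with hlt | he
      · exact hlt
      · exfalso
        rw [← he] at heq
        rw [← heq, dist_self] at hd
        exact absurd hd (not_lt.2 D.δ_pos.le)
    · show δ < dist (r (kap (H (r s) t))) (r s)
      rw [heq]
      exact hd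
  · intro s hs
    obtain ⟨t, ht, hx⟩ := hJ (r s) (hjr s hs)
    refine ⟨t, ht, ?_⟩
    show kap (H (r s) t) = s
    rw [hx]
    exact hself s hs

end Pool.RY
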