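import Pool.Agent.Work.MP_36677d_ray.Interface

/-! # Block RPAR: a parametrisation of an unbounded ray -/

set_option autoImplicit false

open Set Filter Topology

namespace Pool.RY

open Pool.TL94

/-- gluing of paths on `[j, j + 1]` -/
theorem RPAR_glue {M : Type} [MetricSpace M] (m : ℕ → ℝ → M) (hm : ∀ j, ContinuousOn (m j) (Icc 0 1))
    (h : ∀ j, m j 1 = m (j + 1) 0) :
    (∀ j : ℕ, ∀ s ∈ Icc (j:ℝ) (j + 1), m ⌊s⌋₊ (s - ⌊s⌋₊) = m j (s - j)) ∧
    ContinuousOn (fun s : ℝ => m ⌊s⌋₊ (s - ⌊s⌋₊)) (Ici 0) := by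
  have hPj : ∀ j : ℕ, ∀ p ∈ Icc (j:ℝ) (j + 1), m ⌊p⌋₊ (p - ⌊p⌋₊) = m j (p - j) := by
    intro j p hp
    rcases eq_or_lt_of_le hp.2 with h1 | h1
    · have hf : ⌊(j : ℝ) + 1⌋₊ = j + 1 := by
        have : ((j : ℝ) + 1) = ((j + 1 : ℕ) : ℝ) := by push_cast; ring
        rw [this, Nat.floor_natCast]
      rw [h1, hf]
      push_cast
      rw [sub_self, ← h, add_sub_cancel_left]
    · have hf : ⌊p⌋₊ = j := by
        rw [Nat.floor_eq_iff ((Nat.cast_nonneg j).trans hp.1)]
        exact ⟨hp.1, h1⟩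
      rw [hf]
  refine ⟨hPj, ?_⟩
  set P : ℝ → M := fun s : ℝ => m ⌊s⌋₊ (s - ⌊s⌋₊) with hP
  have hpiece : ∀ j : ℕ, ContinuousOn P (Icc (j:ℝ) (j + 1)) := by
    intro j
    have h1 : ContinuousOn (fun p : ℝ => m j (p - j)) (Icc (j:ℝ) (j + 1)) := by
      refine (hm j).comp (Continuous.continuousOn (by fun_prop)) ?_
      intro p hp
      exact ⟨by linarith [hp.1], by linarith [hp.2]⟩
    exact h1.congr fun p hp => hPj j p hp
  have hind : ∀ n : ℕ, ContinuousOn P (Icc 0 (n : ℝ)) := by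
    intro n
    induction n with
    | zero =>
      have : Icc (0:ℝ) ((0 : ℕ) : ℝ) = {0} := by simp
      rw [this]
      exact continuousOn_singleton _ _
    | succ n ih =>
      have h1 : Icc (0:ℝ) ((n + 1 : ℕ) : ℝ) = Icc 0 (n : ℝ) ∪ Icc (n : ℝ) (n + 1) := by
        push_cast
        rw [Icc_union_Icc_eq_Icc (Nat.cast_nonneg n) (by linarith)]
      rw [h1]
      exact ih.union_of_isClosed (hpiece n) isClosed_Icc isClosed_Icc
  intro p hp
  obtain ⟨n, hn⟩ := exists_nat_gt p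
  have h1 := hind n p ⟨hp, hn.le⟩
  refine h1.mono_of_mem_nhdsWithin ?_
  have h2 : Iio (n : ℝ) ∈ 𝓝 p := Iio_mem_nhds hn
  refine mem_nhdsWithin_iff_exists_mem_nhds_inter.2 ⟨Iio (n : ℝ), h2, ?_⟩
  rintro q ⟨hq1, hq2⟩
  exact ⟨hq2, (le_of_lt hq1)⟩

/-- a strictly increasing subsequence starting at `p` -/
theorem RPAR_sub {M : Type} [MetricSpace M] [CompactSpace M] (hHU : HU M) (p : M) (z : ℕ → M)
    (hz : ∀ n, Joined p (z n)) (hch : ∀ n, z n ∈ seg p (z (n + 1)))
    (hunb : ∀ w, Joined p w → ∃ n, z n ∉ seg p w) :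
    ∃ y : ℕ → M, y 0 = p ∧ (∀ n, Joined p (y n)) ∧ (∀ n, ∃ k, y (n + 1) = z k) ∧
      (∀ n, y n ∈ seg p (y (n + 1))) ∧ (∀ n, y n ≠ y (n + 1)) ∧
      ∀ w, Joined p w → ∃ n, y n ∉ seg p w := by
  have hmono : ∀ a k, z a ∈ seg p (z (a + k)) := by
    intro a k
    induction k with
    | zero => exact right_mem _ _
    | succ k ih => exact seg_trans ih (hch (a + k))
  have hle : ∀ a b, a ≤ b → z a ∈ seg p (z b) := by
    intro a b hab
    have := hmono a (b - a)
    rwa [Nat.add_sub_cancel' hab] at this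
  have hnext : ∀ a, ∃ b, a < b ∧ z b ∉ seg p (z a) := by
    intro a
    obtain ⟨b, hb⟩ := hunb (z a) (hz a)
    refine ⟨b, ?_, hb⟩
    by_contra hcon
    push Not at hcon
    exact hb (hle b a hcon)
  choose nx hnx1 hnx2 using hnext
  obtain ⟨k0, hk0⟩ := hunb p (Joined.refl p)
  rw [seg_self] at hk0
  set φ : ℕ → ℕ := fun n => nx^[n] k0 with hφ
  have hφs : ∀ n, φ (n + 1) = nx (φ n) := fun n => Function.iterate_succ_apply' nx n k0
  have hφm : StrictMono φ := strictMono_nat_of_lt_succ fun n => by rw [hφs]; exact hnx1 _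
  refine ⟨fun n => if n = 0 then p else z (φ (n - 1)), ?_, ?_, ?_, ?_, ?_, ?_⟩
  · simp
  · intro n
    by_cases hn : n = 0
    · simp only [hn, if_true]
      exact Joined.refl p
    · simp only [hn, if_false]
      exact hz _
  · intro n
    refine ⟨φ n, ?_⟩
    simp
  · intro n
    by_cases hn : n = 0
    · simp only [hn, if_true]
      exact left_mem _ _
    · simp only [hn, if_false, Nat.add_eq_zero_iff, one_ne_zero, and_false, Nat.add_sub_cancel]
      exact hle _ _ (hφm.monotone (by omega))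
  · intro n
    by_cases hn : n = 0
    · subst hn
      simp only [if_true, zero_add, one_ne_zero, if_false, Nat.sub_self]
      intro h
      exact hk0 h.symm
    · simp only [hn, if_false, Nat.add_eq_zero_iff, one_ne_zero, and_false, Nat.add_sub_cancel]
      intro h
      have h1 : φ n = nx (φ (n - 1)) := by
        have := hφs (n - 1)
        rwa [Nat.sub_add_cancel (by omega)] at this
      have h2 := hnx2 (φ (n - 1))
      rw [← h1, ← h] at h2
      exact h2 (right_mem _ _)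
  · intro w hw
    obtain ⟨n, hn⟩ := hunb w hw
    refine ⟨n + 1, ?_⟩
    simp only [Nat.add_eq_zero_iff, one_ne_zero, and_false, if_false, Nat.add_sub_cancel]
    intro h
    exact hn (seg_trans (hle n (φ n) (hφm.id_le n)) h)

theorem p_RPAR : Stmt_RPAR := by
  intro M _ _ H v e N hHU p z hz hpar hch hunb
  obtain ⟨y, y0, yJ, yz, yc, yne, yunb⟩ := RPAR_sub hHU p z hz hch hunb
  have hyle : ∀ a k, y a ∈ seg p (y (a + k)) := by
    intro a k
    induction k with
    | zero => exact right_mem _ _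
    | succ k ih => exact seg_trans ih (yc (a + k))
  have hle : ∀ a b, a ≤ b → y a ∈ seg p (y b) := by
    intro a b hab
    have := hyle a (b - a)
    rwa [Nat.add_sub_cancel' hab] at this
  have harc : ∀ n, ∃ γ : ℝ → M, ArcFn γ (y n) (y (n + 1)) := fun n =>
    exists_arcFn ((yJ n).symm.trans (yJ (n + 1))) (yne n)
  choose γ hγ using harc
  obtain ⟨hr1, hr2⟩ := RPAR_glue γ (fun j => (hγ j).cont) (fun j => by rw [(hγ j).one, (hγ (j + 1)).zero])
  set r : ℝ → M := fun s : ℝ => γ ⌊s⌋₊ (s - ⌊s⌋₊) with hr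
  have hrj : ∀ j : ℕ, ∀ s ∈ Icc (j:ℝ) (j + 1), r s = γ j (s - j) := hr1
  have hloc : ∀ s : ℝ, 0 ≤ s → s ∈ Icc ((⌊s⌋₊ : ℕ) : ℝ) (⌊s⌋₊ + 1) := by
    intro s hs
    exact ⟨Nat.floor_le hs, (Nat.lt_floor_add_one s).le⟩
  -- the pieces lie in initial segments
  have hseg : ∀ j : ℕ, ∀ s ∈ Icc (j:ℝ) (j + 1), r s ∈ seg (y j) (y (j + 1)) := by
    intro j s hs
    rw [hrj j s hs]
    exact (hγ j).mem_seg hHU (by linarith [hs.1]) (by linarith [hs.2])
  have hsegp : ∀ j : ℕ, ∀ s ∈ Icc (j:ℝ) (j + 1), r s ∈ seg p (y (j + 1)) := by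
    intro j s hs C hC hp hy
    exact hseg j s hs C hC (yc j C hC hp hy) hy
  have hback : ∀ n : ℕ, ∀ s ∈ Icc (n:ℝ) (n + 1), r s ∈ seg p (y n) → s = n := by
    intro n s hs h
    have h1 : y n ∈ seg p (r s) :=
      seg_btw' hHU ((yJ n).symm.trans (yJ (n + 1))) (yc n) (hseg n s hs)
    have h2 : r s = y n := seg_antisymm hHU (yJ n) h h1
    rw [hrj n s hs, ← (hγ n).zero] at h2
    have h3 := (hγ n).inj (show s - n ∈ Icc (0:ℝ) 1 from ⟨by linarith [hs.1], by linarith [hs.2]⟩)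
      (show (0:ℝ) ∈ Icc (0:ℝ) 1 from ⟨le_rfl, zero_le_one⟩) h2
    linarith
  have hrn : ∀ n : ℕ, r (n : ℝ) = y n := by
    intro n
    rw [hrj n n ⟨le_rfl, by linarith⟩, sub_self, (hγ n).zero]
  have hord : ∀ s : ℝ, 0 ≤ s → ∀ s' : ℝ, 0 ≤ s' → s < s' → r s ≠ r s' := by
    intro s hs s' hs' hss heq
    have hj := hloc s hs
    have hn := hloc s' hs'
    set j := ⌊s⌋₊ with hjdef
    set n := ⌊s'⌋₊ with hndef
    by_cases hc : (n : ℝ) ≤ s
    · have hsn : s ∈ Icc (n:ℝ) (n + 1) := ⟨hc, by linarith [hn.2]⟩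
      rw [hrj n s hsn, hrj n s' hn] at heq
      have h3 := (hγ n).inj (show s - n ∈ Icc (0:ℝ) 1 from ⟨by linarith [hsn.1], by linarith [hsn.2]⟩)
        (show s' - n ∈ Icc (0:ℝ) 1 from ⟨by linarith [hn.1], by linarith [hn.2]⟩) heq
      linarith
    · push Not at hc
      have hjn : j < n := by
        have : (j : ℝ) < n := lt_of_le_of_lt hj.1 hc
        exact_mod_cast this
      have h1 : r s ∈ seg p (y (j + 1)) := hsegp j s hj
      have h2 : r s ∈ seg p (y n) := seg_trans h1 (hle (j + 1) n hjn)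
      have h3 : s' = n := hback n s' hn (by rw [← heq]; exact h2)
      have h4 : r s' = y n := by rw [h3]; exact hrn n
      rw [h4] at heq
      by_cases hjn' : j + 1 = n
      · have h5 : r s = γ j 1 := by rw [heq, (hγ j).one, hjn']
        rw [hrj j s hj] at h5
        have h6 := (hγ j).inj (show s - j ∈ Icc (0:ℝ) 1 from ⟨by linarith [hj.1], by linarith [hj.2]⟩)
          (show (1:ℝ) ∈ Icc (0:ℝ) 1 from ⟨zero_le_one, le_rfl⟩) h5
        have h7 : (n : ℝ) = j + 1 := by rw [← hjn']; push_cast; ring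
        linarith
      · have h5 : y n ∈ seg p (y (n - 1)) := by
          rw [← heq]
          exact seg_trans h1 (hle (j + 1) (n - 1) (by omega))
        have h6 : y (n - 1) ∈ seg p (y n) := hle (n - 1) n (by omega)
        have h7 : y (n - 1) = y n := seg_antisymm hHU (yJ n) h6 h5
        have h8 := yne (n - 1)
        rw [Nat.sub_add_cancel (by omega)] at h8
        exact h8 h7
  refine ⟨r, hr2, ?_, ?_, ?_, ?_⟩
  · intro s hs s' hs' heq
    rcases lt_trichotomy s s' with h | h | h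
    · exact absurd heq (hord s hs s' hs' h)
    · exact h
    · exact absurd heq.symm (hord s' hs' s hs h)
  · have := hrn 0
    rw [Nat.cast_zero, y0] at this
    exact this
  · intro s hs
    obtain ⟨k, hk⟩ := yz ⌊s⌋₊
    refine hpar k (r s) ?_
    rw [← hk]
    exact hsegp _ s (hloc s hs)
  · intro w hw
    obtain ⟨n, hn⟩ := yunb w hw
    exact ⟨n, Nat.cast_nonneg n, by rw [hrn]; exact hn⟩

end Pool.RY
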