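import Pool.Agent.Work.MP_36677d_ray.Interface

/-! # Block ARCB: no path of the class lies in an arc or a point -/

set_option autoImplicit false

open Set Filter Topology

namespace Pool.RY

open Pool.TL94

theorem p_ARCB (h1 : Stmt_LIM) (h2 : Stmt_SHF) (h3 : Stmt_INTP) (h4 : Stmt_FLB) (h5 : Stmt_LEAF)
    (h6 : Stmt_BK) : Stmt_ARCB := by
  intro M _ _ H v e δ N hdat B D r ρ S hB hD hr hP hor
  rcases hor with ⟨x, hx⟩ | ⟨γ, A, A', hγ, hmem⟩
  · -- constant
    have h7 : ∀ t ∈ Icc (0:ℝ) 1, H x t = x := by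
      intro t ht
      obtain ⟨⟨q, -, hq⟩, -⟩ := h3 M H B D r ρ S hB hD hr hP 0 t ht
      rw [hx q, hx 0] at hq
      exact hq.symm
    obtain ⟨h8, h9, -⟩ := h4 M H v e δ N hdat x
    rw [h9 (fun _ => True) (fun t ht hne => absurd (h7 t ht) hne)] at h8
    exact absurd h8 (by decide)
  · -- arc
    choose σ hσI hσE using hmem
    -- supremum
    have hbdd : BddAbove (range σ) := ⟨1, by rintro _ ⟨p, rfl⟩; exact (hσI p).2⟩
    have hne : (range σ).Nonempty := ⟨σ 0, 0, rfl⟩
    set s := sSup (range σ) with hs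
    have hle : ∀ p, σ p ≤ s := fun p => le_csSup hbdd ⟨p, rfl⟩
    have hs01 : s ∈ Icc (0:ℝ) 1 := ⟨(hσI 0).1.trans (hle 0), csSup_le hne (by
      rintro _ ⟨p, rfl⟩; exact (hσI p).2)⟩
    have hex : ∀ n : ℕ, ∃ a : ℝ, s - 1 / ((n : ℝ) + 1) < σ a := by
      intro n
      have hpos : (0:ℝ) < 1 / ((n : ℝ) + 1) := by positivity
      obtain ⟨_, ⟨a, rfl⟩, ha⟩ := exists_lt_of_lt_csSup hne (show s - 1 / ((n : ℝ) + 1) < s by linarith)
      exact ⟨a, ha⟩
    choose a ha using hex
    have hlim : Tendsto (fun n => σ (a n)) atTop (𝓝 s) := by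
      refine tendsto_of_tendsto_of_tendsto_of_le_of_le (g := fun n : ℕ => s - 1 / ((n : ℝ) + 1))
        (h := fun _ => s) ?_ tendsto_const_nhds (fun n => (ha n).le) (fun n => hle _)
      have : Tendsto (fun n : ℕ => s - 1 / ((n : ℝ) + 1)) atTop (𝓝 (s - 0)) :=
        tendsto_const_nhds.sub tendsto_one_div_add_atTop_nhds_zero_nat
      rwa [sub_zero] at this
    -- translates and limit
    have hU : (Filter.hyperfilter ℕ : Filter ℕ) ≤ atTop := Nat.hyperfilter_le_atTop
    have hT : ∀ j : ℕ, Pth H B D r univ (fun p => ρ (p + a j))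
        (fun p t u => S (p + a j) t (u + a j)) := by
      intro j
      have := (h2 M H B D r univ ρ S hP).1 (a j)
      simpa using this
    obtain ⟨ρ', S', hP', hρ'⟩ := h1 M H hdat.cH B D r (fun _ => univ) (fun j p => ρ (p + a j))
      (fun j p t u => S (p + a j) t (u + a j)) (fun L => Eventually.of_forall fun _ => subset_univ _)
      hT (Filter.hyperfilter ℕ) hU
    have h0 : ρ' 0 = γ s := by
      have e1 : Tendsto (fun j => ρ (0 + a j)) (Filter.hyperfilter ℕ : Filter ℕ) (𝓝 (ρ' 0)) := hρ' 0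
      have e2 : Tendsto (fun j => γ (σ (a j))) atTop (𝓝 (γ s)) := by
        have e3 : Tendsto (fun j => σ (a j)) atTop (𝓝[Icc 0 1] s) :=
          tendsto_nhdsWithin_iff.2 ⟨hlim, Eventually.of_forall fun n => hσI _⟩
        exact (hγ.cont s hs01).tendsto.comp e3
      have e4 : (fun j => ρ (0 + a j)) = fun j => γ (σ (a j)) := by
        funext j
        rw [zero_add, hσE]
      rw [e4] at e1
      exact tendsto_nhds_unique e1 (e2.mono_left hU)
    have hcl : IsClosed (γ '' Icc 0 s) := by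
      refine (isCompact_Icc.image_of_continuousOn (hγ.cont.mono ?_)).isClosed
      exact Icc_subset_Icc le_rfl hs01.2
    have hmem' : ∀ p, ρ' p ∈ γ '' Icc 0 s := by
      intro p
      refine hcl.mem_of_tendsto (hρ' p) (Eventually.of_forall fun j => ?_)
      exact ⟨σ (p + a j), ⟨(hσI _).1, hle _⟩, hσE _⟩
    obtain ⟨σ', lam, hL⟩ := h5 M H hdat.cH B D r ρ' S' hB hD hr hP' (-B) B γ A A' hγ (fun p _ => by
      obtain ⟨u, hu, hu2⟩ := hmem' p
      exact ⟨u, ⟨hu.1, hu.2.trans hs01.2⟩, hu2⟩)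
    have hσ' : ∀ p ∈ Icc (-B - B) (B + B), σ' p ≤ s := by
      intro p hp
      obtain ⟨u, hu, hu2⟩ := hmem' p
      have : u = σ' p := hγ.inj ⟨hu.1, hu.2.trans hs01.2⟩ (hL.sI p hp) (by rw [hu2, ← hL.sE p hp])
      rw [← this]
      exact hu.2
    have hσ0 : σ' 0 = s := by
      refine hγ.inj (hL.sI 0 ⟨by linarith, by linarith⟩) hs01 ?_
      rw [← hL.sE 0 ⟨by linarith, by linarith⟩, h0]
    refine h6 M H v e δ N hdat B D r ρ' S' hB hD hr hP' (-B) B γ A A' σ' lam hL 0 0 ?_ ?_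
    · right
      refine ⟨by linarith, hB.le, fun q hq => ?_⟩
      rw [hσ0]
      exact hσ' q ⟨by linarith [hq.1], by linarith [hq.2]⟩
    · left
      refine ⟨by linarith, by linarith, fun q hq => ?_⟩
      rw [hσ0]
      exact hσ' q ⟨by linarith [hq.1], by linarith [hq.2]⟩

end Pool.RY
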