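import Pool.Agent.Work.MP_36677d_ray.Interface

/-! # Block BAS: the base member of the class -/

set_option autoImplicit false

open Set Filter Topology

namespace Pool.RY

open Pool.TL94

/-- uniform continuity of `H` on `M × [0, 1]` -/
theorem BAS_uc {M : Type} [MetricSpace M] [CompactSpace M] (H : M → ℝ → M)
    (hH : Continuous (fun q : M × ℝ => H q.1 q.2)) (ε : ℝ) (hε : 0 < ε) :
    ∃ η : ℝ, 0 < η ∧ ∀ x x' : M, ∀ t ∈ Icc (0:ℝ) 1, ∀ t' ∈ Icc (0:ℝ) 1, dist x x' ≤ η →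
      |t - t'| ≤ η → dist (H x t) (H x' t') ≤ ε := by
  have hK : IsCompact ((univ : Set M) ×ˢ Icc (0:ℝ) 1) := isCompact_univ.prod isCompact_Icc
  have huc := hK.uniformContinuousOn_of_continuous hH.continuousOn
  rw [Metric.uniformContinuousOn_iff] at huc
  obtain ⟨η, hη, hη2⟩ := huc ε hε
  refine ⟨η / 2, by linarith, fun x x' t ht t' ht' hx htt => ?_⟩
  have h1 := hη2 (x, t) ⟨mem_univ _, ht⟩ (x', t') ⟨mem_univ _, ht'⟩ (by
    rw [Prod.dist_eq, Real.dist_eq]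
    refine lt_of_le_of_lt (max_le hx htt) ?_
    linarith)
  exact h1.le

/-- a convex combination stays in `[0, ∞)` and near the first point -/
theorem BAS_seg {p p' ρ : ℝ} (hpp : |p - p'| ≤ ρ) {x : ℝ} (hx : x ∈ Icc (0:ℝ) 1) :
    |p - (p + x * (p' - p))| ≤ ρ := by
  have h1 : p - (p + x * (p' - p)) = x * (p - p') := by ring
  rw [h1, abs_mul, abs_of_nonneg hx.1]
  calc x * |p - p'| ≤ 1 * |p - p'| := mul_le_mul_of_nonneg_right hx.2 (abs_nonneg _)
    _ ≤ ρ := by rw [one_mul]; exact hpp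

theorem BAS_nonneg {p p' : ℝ} (hp : 0 ≤ p) (hp' : 0 ≤ p') {x : ℝ} (hx : x ∈ Icc (0:ℝ) 1) :
    0 ≤ p + x * (p' - p) := by
  nlinarith [mul_nonneg hx.1 hp', mul_nonneg (sub_nonneg.2 hx.2) hp]

theorem BAS_le_one {p p' : ℝ} (hp : p ≤ 1) (hp' : p' ≤ 1) {x : ℝ} (hx : x ∈ Icc (0:ℝ) 1) :
    p + x * (p' - p) ≤ 1 := by
  nlinarith [mul_nonneg hx.1 (sub_nonneg.2 hp'), mul_nonneg (sub_nonneg.2 hx.2) (sub_nonneg.2 hp)]

theorem p_BAS (hBDN : Stmt_BDN) : Stmt_BAS := by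
  intro M _ _ H hH δ r μ s D P hδ hD hR hS hP
  obtain ⟨B0, hB0⟩ := hBDN M H hH δ r μ s D P hδ hR hS hP
  have hP1 : ∀ p : ℝ, 0 ≤ p → 1 ≤ P p := by
    intro p hp
    have h1 := hP.mono (show (0:ℝ) ∈ Ici (0:ℝ) from mem_Ici.2 le_rfl) (show p ∈ Ici (0:ℝ) from hp) hp
    have h2 := hP.int 0
    rw [Nat.cast_zero, hS.s0] at h2
    linarith
  have hP0 : ∀ p : ℝ, 0 ≤ p → 0 ≤ P p := fun p hp => by linarith [hP1 p hp]
  choose η hη hη2 using BAS_uc H hH
  -- the modulus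
  set r0 : ℝ → ℝ := fun c => if h : 0 < c then
    min (η (c / 3) (by linarith)) (min (D (η (c / 3) (by linarith))) (D (c / 3))) else 1 with hr0
  have hr0p : Pos r0 := by
    intro c hc
    simp only [hr0, dif_pos hc]
    exact lt_min (hη _ _) (lt_min (hD _ (hη _ _)) (hD _ (by linarith)))
  set F : ℝ → ℝ → ℝ → ℝ := fun p t u => μ (P p) t - P u with hF
  -- no zero near a point where the distance is large
  have hzero : ∀ c : ℝ, 0 < c → ∀ p : ℝ, 0 ≤ p → ∀ p' : ℝ, 0 ≤ p' → ∀ u : ℝ, 0 ≤ u → ∀ u' : ℝ, 0 ≤ u' →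
      ∀ t ∈ Icc (0:ℝ) 1, ∀ t' ∈ Icc (0:ℝ) 1, c < dist (H (r (P p)) t) (r (P u)) →
      |p - p'| ≤ r0 c → |t - t'| ≤ r0 c → |u - u'| ≤ r0 c → F p' t' u' ≠ 0 := by
    intro c hc p hp p' hp' u hu u' hu' t ht t' ht' hcd hpp htt huu hz
    simp only [hr0, dif_pos hc] at hpp htt huu
    have hc3 : 0 < c / 3 := by linarith
    have h1 : r (P u') = H (r (P p')) t' := by
      have h2 : μ (P p') t' = P u' := by
        simp only [hF] at hz
        linarith
      rw [← h2]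
      exact hR.m2 (P p') (hP0 p' hp') t' ht' (by rw [h2]; linarith [hP1 u' hu'])
    have h3 : dist (r (P p)) (r (P p')) ≤ η (c / 3) hc3 := by
      refine hP.mod _ (hη _ _) p hp p' hp' ?_
      exact hpp.trans ((min_le_right _ _).trans (min_le_left _ _))
    have h4 : dist (H (r (P p)) t) (H (r (P p')) t') ≤ c / 3 :=
      hη2 (c / 3) hc3 _ _ t ht t' ht' h3 (htt.trans (min_le_left _ _))
    have h5 : dist (r (P u)) (r (P u')) ≤ c / 3 := by
      refine hP.mod _ hc3 u hu u' hu' ?_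
      exact huu.trans ((min_le_right _ _).trans (min_le_right _ _))
    have h6 : dist (H (r (P p)) t) (r (P u)) ≤ dist (H (r (P p)) t) (H (r (P p')) t') +
        dist (r (P u')) (r (P u)) := by
      rw [h1]
      exact dist_triangle _ _ _
    rw [dist_comm (r (P u')) (r (P u))] at h6
    linarith
  -- continuity along a segment
  have hcont : ∀ p : ℝ, 0 ≤ p → ∀ p' : ℝ, 0 ≤ p' → ∀ u : ℝ, 0 ≤ u → ∀ u' : ℝ, 0 ≤ u' →
      ∀ t ∈ Icc (0:ℝ) 1, ∀ t' ∈ Icc (0:ℝ) 1, ContinuousOn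
      (fun x => F (p + x * (p' - p)) (t + x * (t' - t)) (u + x * (u' - u))) (Icc 0 1) := by
    intro p hp p' hp' u hu u' hu' t ht t' ht'
    have e1 : ContinuousOn (fun x : ℝ => P (p + x * (p' - p))) (Icc 0 1) := by
      refine hP.cont.comp (Continuous.continuousOn (by fun_prop)) ?_
      intro x hx
      exact BAS_nonneg hp hp' hx
    have e2 : ContinuousOn (fun x : ℝ => P (u + x * (u' - u))) (Icc 0 1) := by
      refine hP.cont.comp (Continuous.continuousOn (by fun_prop)) ?_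
      intro x hx
      exact BAS_nonneg hu hu' hx
    have e3 : ContinuousOn (fun x : ℝ => μ (P (p + x * (p' - p))) (t + x * (t' - t))) (Icc 0 1) := by
      refine hR.mC.comp (f := fun x : ℝ => ((P (p + x * (p' - p)), t + x * (t' - t)) : ℝ × ℝ))
        (e1.prodMk (Continuous.continuousOn (by fun_prop))) ?_
      intro x hx
      exact ⟨hP0 _ (BAS_nonneg hp hp' hx), BAS_nonneg ht.1 ht'.1 hx, BAS_le_one ht.2 ht'.2 hx⟩
    exact e3.sub e2
  refine ⟨max 2 (B0 + 1), r0, lt_max_of_lt_left two_pos, hr0p, ?_⟩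
  refine ⟨?_, ?_, ?_, ?_⟩
  · intro ε hε p hp p' hp' hpp
    exact hP.mod ε hε p hp p' hp' hpp
  · intro c hc p hp p' hp' u hu u' hu' t ht t' ht' hcd hpp htt huu
    have hne : ∀ x ∈ Icc (0:ℝ) 1,
        F (p + x * (p' - p)) (t + x * (t' - t)) (u + x * (u' - u)) ≠ 0 := by
      intro x hx
      exact hzero c hc p hp _ (BAS_nonneg hp hp' hx) u hu _ (BAS_nonneg hu hu' hx) t ht _
        ⟨BAS_nonneg ht.1 ht'.1 hx, BAS_le_one ht.2 ht'.2 hx⟩ hcd (BAS_seg hpp hx) (BAS_seg htt hx)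
        (BAS_seg huu hx)
    have hc0 := hcont p hp p' hp' u hu u' hu' t ht t' ht'
    have e0 : F (p + 0 * (p' - p)) (t + 0 * (t' - t)) (u + 0 * (u' - u)) = F p t u := by
      simp
    have e1 : F (p + 1 * (p' - p)) (t + 1 * (t' - t)) (u + 1 * (u' - u)) = F p' t' u' := by
      simp
    have hsign : (0 < F p t u ↔ 0 < F p' t' u') := by
      constructor
      · intro h
        by_contra hcon
        push Not at hcon
        obtain ⟨x, hx, hx2⟩ := intermediate_value_Icc' zero_le_one hc0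
          (show (0:ℝ) ∈ Icc _ _ from ⟨by rw [e1]; exact hcon, by rw [e0]; exact h.le⟩)
        exact hne x hx hx2
      · intro h
        by_contra hcon
        push Not at hcon
        obtain ⟨x, hx, hx2⟩ := intermediate_value_Icc zero_le_one hc0
          (show (0:ℝ) ∈ Icc _ _ from ⟨by rw [e0]; exact hcon, by rw [e1]; exact h.le⟩)
        exact hne x hx hx2
    simp only [hF, sub_pos] at hsign
    exact hsign
  · intro p hp u hu t ht _ hpu hlt
    have hp0 : (0:ℝ) ≤ p := hp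
    have h1 : P p ≤ s ⌈p⌉₊ := by
      rw [← hP.int]
      exact hP.mono hp (show ((⌈p⌉₊ : ℕ) : ℝ) ∈ Ici (0:ℝ) from mem_Ici.2 (Nat.cast_nonneg _)) (Nat.le_ceil p)
    have h2 := hS.mx ⌈p⌉₊ (P p) (hP0 p hp0) h1 t ht
    have h3 : s (⌈p⌉₊ + 1) ≤ P u := by
      rw [← hP.int]
      refine hP.mono (show ((⌈p⌉₊ + 1 : ℕ) : ℝ) ∈ Ici (0:ℝ) from mem_Ici.2 (Nat.cast_nonneg _)) hu ?_
      have h4 := Nat.ceil_lt_add_one hp0
      have h5 : (2:ℝ) ≤ max 2 (B0 + 1) := le_max_left _ _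
      push_cast
      linarith
    linarith
  · intro p hp u hu t ht _ hup
    by_contra hcon
    push Not at hcon
    have h1 := hB0 p hp u hu t ht hcon
    have h5 : B0 + 1 ≤ max 2 (B0 + 1) := le_max_right _ _
    linarith

end Pool.RY
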