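import Pool.Agent.Work.MP_36677d_ray.Interface

set_option autoImplicit false

open Set Filter Topology

namespace Pool.RY

open Pool.TL94

theorem BDN_uIcc_sub {a b : ℝ} (ha : a ∈ Icc (0:ℝ) 1) (hb : b ∈ Icc (0:ℝ) 1) : uIcc a b ⊆ Icc (0:ℝ) 1 := by
  intro x hx
  rw [mem_uIcc] at hx
  rcases hx with ⟨h1, h2⟩ | ⟨h1, h2⟩
  · exact ⟨le_trans ha.1 h1, le_trans h2 hb.2⟩
  · exact ⟨le_trans hb.1 h1, le_trans h2 ha.2⟩

theorem BDN_abs {a b w : ℝ} (h : w ∈ uIcc a b) : |a - b| = |a - w| + |w - b| := by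
  rw [mem_uIcc] at h
  rcases h with ⟨h1, h2⟩ | ⟨h1, h2⟩
  · rw [abs_of_nonpos (by linarith), abs_of_nonpos (by linarith), abs_of_nonpos (by linarith)]; ring
  · rw [abs_of_nonneg (by linarith), abs_of_nonneg (by linarith), abs_of_nonneg (by linarith)]; ring

theorem BDN_ind (φ : ℝ → ℝ) (hφ : ContinuousOn φ (Icc 0 1)) (s : ℕ → ℝ) (hs : ∀ j, s j < s (j + 1)) (κ : ℝ)
    (y : ℕ → ℝ) (hy : ∀ i, s i < y i ∧ y i ≤ s (i + 1))
    (hk : ∀ i, ∀ w ∈ Icc (0:ℝ) 1, ∀ w' ∈ Icc (0:ℝ) 1, φ w = y i → φ w' = s i → κ ≤ |w - w'|) (i0 : ℕ) :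
    ∀ m : ℕ, ∀ a ∈ Icc (0:ℝ) 1, ∀ b ∈ Icc (0:ℝ) 1, s (i0 + m) ≤ φ a → φ b ≤ s i0 → (m : ℝ) * κ ≤ |a - b| := by
  have hmono : Monotone s := monotone_nat_of_le_succ (fun j => (hs j).le)
  intro m
  induction m with
  | zero =>
    intro a _ b _ _ _
    rw [Nat.cast_zero, zero_mul]
    exact abs_nonneg _
  | succ m ih =>
    intro a ha b hb h1 h2
    have h3 : s (i0 + m) < s (i0 + m + 1) := hs (i0 + m)
    have h4 : s i0 ≤ s (i0 + m) := hmono (by omega)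
    have h1' : s (i0 + m + 1) ≤ φ a := h1
    obtain ⟨w', hw', hφw'⟩ := intermediate_value_uIcc (hφ.mono (BDN_uIcc_sub ha hb))
      (show s (i0 + m) ∈ uIcc (φ a) (φ b) by
        rw [mem_uIcc]; right; exact ⟨by linarith, by linarith⟩)
    have hw'I := BDN_uIcc_sub ha hb hw'
    have hyi := hy (i0 + m)
    obtain ⟨w, hw, hφw⟩ := intermediate_value_uIcc (hφ.mono (BDN_uIcc_sub ha hw'I))
      (show y (i0 + m) ∈ uIcc (φ a) (φ w') by
        rw [mem_uIcc]; right; exact ⟨by rw [hφw']; exact hyi.1.le, by linarith [hyi.2]⟩)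
    have hwI := BDN_uIcc_sub ha hw'I hw
    have e1 := hk (i0 + m) w hwI w' hw'I hφw hφw'
    have e2 := ih w' hw'I b hb (le_of_eq hφw'.symm) h2
    have e3 := BDN_abs hw'
    have e4 := BDN_abs hw
    have e5 : 0 ≤ |a - w| := abs_nonneg _
    push_cast
    linarith

theorem p_BDN : Stmt_BDN := by
  intro M _ _ H hH δ r μ s D P hδ hRD hS hP
  have hK : IsCompact ((univ : Set M) ×ˢ Icc (0:ℝ) 1) := isCompact_univ.prod isCompact_Icc
  have huc := hK.uniformContinuousOn_of_continuous hH.continuousOn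
  rw [Metric.uniformContinuousOn_iff] at huc
  obtain ⟨κ, hκ, huc⟩ := huc δ hδ
  have hs1 : ∀ j, 1 ≤ s j := by
    intro j
    have hmono : Monotone s := monotone_nat_of_le_succ (fun j => (hS.lt j).le)
    have := hmono (Nat.zero_le j)
    rw [hS.s0] at this
    exact this
  have hm3 : ∀ i, ∃ t ∈ Icc (0:ℝ) 1, s i < μ (s i) t ∧ δ < dist (r (μ (s i) t)) (r (s i)) :=
    fun i => hRD.m3 (s i) (lt_of_lt_of_le one_pos (hs1 i))
  choose ti hti hti1 hti2 using hm3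
  refine ⟨1 / κ + 2, ?_⟩
  intro p hp u hu t ht hmu
  obtain ⟨i0, hi0⟩ : ∃ i0 : ℕ, i0 = ⌈u⌉₊ := ⟨_, rfl⟩
  obtain ⟨j, hj⟩ : ∃ j : ℕ, j = ⌊p⌋₊ := ⟨_, rfl⟩
  have hui : u ≤ i0 := by rw [hi0]; exact Nat.le_ceil u
  have hui2 : (i0 : ℝ) < u + 1 := by rw [hi0]; exact Nat.ceil_lt_add_one hu
  have hjp : (j : ℝ) ≤ p := by rw [hj]; exact Nat.floor_le hp
  have hjp2 : p < j + 1 := by rw [hj]; exact Nat.lt_floor_add_one p
  have hκ0 : 0 < 1 / κ := by positivity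
  by_cases hji : j < i0
  · have h1 : (j : ℝ) + 1 ≤ i0 := by exact_mod_cast hji
    linarith
  · push Not at hji
    obtain ⟨m, hm⟩ : ∃ m : ℕ, j = i0 + m := ⟨j - i0, by omega⟩
    have hPj : s j ≤ P p := by
      rw [← hP.int j]
      exact hP.mono (mem_Ici.2 (Nat.cast_nonneg j)) hp hjp
    have hPu : P u ≤ s i0 := by
      rw [← hP.int i0]
      exact hP.mono hu (mem_Ici.2 (Nat.cast_nonneg i0)) hui
    have hPp0 : 0 ≤ P p := le_trans (le_trans zero_le_one (hs1 j)) hPj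
    obtain ⟨ts, hts, htsμ⟩ := hRD.m4 (P p) hPp0
    have hφ : ContinuousOn (fun w => μ (P p) w) (Icc (0:ℝ) 1) := by
      have hcomp : ContinuousOn (fun w : ℝ => ((P p, w) : ℝ × ℝ)) (Icc (0:ℝ) 1) := by fun_prop
      exact hRD.mC.comp hcomp (fun w hw => ⟨hPp0, hw⟩)
    have key := BDN_ind (fun w => μ (P p) w) hφ s hS.lt κ (fun i => μ (s i) (ti i))
      (fun i => ⟨hti1 i, hS.mx i (s i) (le_trans zero_le_one (hs1 i)) le_rfl (ti i) (hti i)⟩) (by
        intro i w hw w' hw' h1 h2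
        by_contra hc
        push Not at hc
        have h3 : 0 < μ (P p) w := by
          rw [h1]
          exact lt_trans (lt_of_lt_of_le one_pos (hs1 i)) (hti1 i)
        have h4 : 0 < μ (P p) w' := by
          rw [h2]
          exact lt_of_lt_of_le one_pos (hs1 i)
        have h5 := hRD.m2 (P p) hPp0 w hw h3
        have h6 := hRD.m2 (P p) hPp0 w' hw' h4
        have h7 := huc (r (P p), w) ⟨mem_univ _, hw⟩ (r (P p), w') ⟨mem_univ _, hw'⟩ (by
          rw [Prod.dist_eq, dist_self, Real.dist_eq]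
          exact max_lt hκ hc)
        rw [← h5, ← h6, h1, h2] at h7
        exact absurd h7 (not_lt.2 (hti2 i).le)) i0 m ts hts t ht
      (by rw [← hm]; exact le_trans hPj (le_of_eq htsμ.symm)) (le_trans hmu hPu)
    have h8 : |ts - t| ≤ 1 := by
      rw [abs_le]
      exact ⟨by linarith [hts.1, ht.2], by linarith [hts.2, ht.1]⟩
    have h9 : (m : ℝ) ≤ 1 / κ := by
      rw [le_div_iff₀ hκ]
      linarith
    have h10 : (j : ℝ) = i0 + m := by rw [hm]; push_cast; ring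
    linarith

end Pool.RY
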