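import Pool.Agent.Work.MP_36677d_ray.Interface

/-! # Block EXA (helper20) -/

set_option autoImplicit false

open Set Filter Topology

namespace Pool.RY

open Pool.TL94

theorem p_EXA (h1 : Stmt_RET) (h2 : Stmt_LIM) (h3 : Stmt_SHF) : Stmt_EXA := by
  intro M _ _ H hH hT B D r hB hD hr T0 ρ0 S0 hP n hn
  have hcont : ContinuousOn ρ0 (Ici T0) := by
    rw [Metric.continuousOn_iff]
    intro p hp ε hε
    refine ⟨D (ε / 2), hD _ (by linarith), fun p' hp' hd => ?_⟩
    have h := hP.mod (ε / 2) (by linarith) p' hp' p hp (by rw [← Real.dist_eq]; exact hd.le)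
    linarith
  have hret : ∀ k : ℕ, ∃ a b : ℝ, T0 + k ≤ a ∧ a + n ≤ b ∧ b ≤ a + 3 * n ∧
      dist (ρ0 a) (ρ0 b) < 1 / ((k : ℝ) + 1) := fun k =>
    h1 M hT ρ0 T0 hcont n (1 / ((k : ℝ) + 1)) (T0 + k) hn (by positivity)
      (by have : (0 : ℝ) ≤ k := Nat.cast_nonneg k; linarith)
  choose a b ha hab hba hd using hret
  have haT : ∀ k, T0 ≤ a k := fun k => by
    have : (0 : ℝ) ≤ k := Nat.cast_nonneg k
    linarith [ha k]
  have hn0 : (0 : ℝ) ≤ n := Nat.cast_nonneg n
  set U : Ultrafilter ℕ := hyperfilter ℕ with hU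
  have hUa : (U : Filter ℕ) ≤ atTop := Nat.hyperfilter_le_atTop
  obtain ⟨ρ, S, hρ, hlim⟩ := h2 M H hH B D r (fun k => {p | p + a k ∈ Ici T0})
    (fun k p => ρ0 (p + a k)) (fun k p t u => S0 (p + a k) t (u + a k))
    (by
      intro L
      filter_upwards [eventually_ge_atTop ⌈L⌉₊] with k hk p hp
      have h4 : L ≤ k := (Nat.le_ceil L).trans (by exact_mod_cast hk)
      show T0 ≤ p + a k
      linarith [ha k, hp.1])
    (fun k => (h3 M H B D r (Ici T0) ρ0 S0 hP).1 (a k)) U hUa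
  -- the limit of the lengths
  obtain ⟨c, hc, hcU⟩ : ∃ c ∈ Icc (n : ℝ) (3 * n), Tendsto (fun k => b k - a k) U (𝓝 c) := by
    have h5 : ∀ k, b k - a k ∈ Icc (n : ℝ) (3 * n) := fun k =>
      ⟨by linarith [hab k], by linarith [hba k]⟩
    have h6 : (U.map (fun k => b k - a k) : Filter ℝ) ≤ 𝓟 (Icc (n : ℝ) (3 * n)) := by
      rw [le_principal_iff]
      exact Ultrafilter.mem_map.2 (Eventually.of_forall h5)
    exact isCompact_Icc.ultrafilter_le_nhds (U.map (fun k => b k - a k)) h6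
  refine ⟨ρ, S, c, hρ, hc.1, ?_⟩
  refine tendsto_nhds_unique (hlim 0) ?_
  refine (hlim c).congr_dist ?_
  rw [Metric.tendsto_nhds]
  intro ε hε
  have h7 : ∀ᶠ k in (U : Filter ℕ), |(b k - a k) - c| < D (ε / 3) := by
    have := (Metric.tendsto_nhds.1 hcU) (D (ε / 3)) (hD _ (by linarith))
    filter_upwards [this] with k hk
    rwa [Real.dist_eq] at hk
  have h8 : ∀ᶠ k : ℕ in (U : Filter ℕ), 1 / ((k : ℝ) + 1) < ε / 3 := by
    refine hUa ?_
    exact (tendsto_one_div_add_atTop_nhds_zero_nat (𝕜 := ℝ)).eventually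
      (gt_mem_nhds (by linarith))
  filter_upwards [h7, h8] with k hk1 hk2
  have h9 : dist (ρ0 (c + a k)) (ρ0 (b k)) ≤ ε / 3 := by
    refine hP.mod (ε / 3) (by linarith) _ (show T0 ≤ c + a k by linarith [haT k, hc.1]) _
      (show T0 ≤ b k by linarith [haT k, hab k]) ?_
    rw [abs_sub_comm]
    have : b k - (c + a k) = (b k - a k) - c := by ring
    rw [this]
    exact hk1.le
  rw [Real.dist_eq, sub_zero, abs_of_nonneg dist_nonneg, zero_add]
  have h10 := dist_triangle (ρ0 (c + a k)) (ρ0 (b k)) (ρ0 (a k))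
  have h11 := hd k
  rw [dist_comm] at h11
  linarith

end Pool.RY
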