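import Pool.Agent.Work.MP_36677d_ray.Interface

/-! # Block FLC (typed by helper88): constancy of the parities -/

set_option autoImplicit false

open Set Filter Topology

namespace Pool.RY

open Pool.TL94

section

variable {M : Type} [MetricSpace M]

/-- a locally constant predicate is constant on preconnected sets without fixed points -/
theorem FLC_const {H : M → ℝ → M} {ρ : ℝ → M} {c d : ℝ} {V : ℝ → ℝ → Prop}
    (hV : LocW H ρ c d V) {K : Set (ℝ × ℝ)} (hK : IsPreconnected K)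
    (hKs : K ⊆ Icc c d ×ˢ Icc (0:ℝ) 1) (hne : ∀ q ∈ K, H (ρ q.1) q.2 ≠ ρ q.1)
    {x y : ℝ × ℝ} (hx : x ∈ K) (hy : y ∈ K) : V x.1 x.2 ↔ V y.1 y.2 := by
  refine hK.induction₂ (fun a b => V a.1 a.2 ↔ V b.1 b.2) ?_ (fun _ _ _ _ _ _ h h' => h.trans h')
    (fun _ _ _ _ h => h.symm) hx hy
  intro q hq
  obtain ⟨η, hη, h⟩ := hV q.1 (hKs hq).1 q.2 (hKs hq).2 (hne q hq)
  have h1 : Metric.ball q η ∈ 𝓝[K] q := mem_nhdsWithin_of_mem_nhds (Metric.ball_mem_nhds q hη)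
  filter_upwards [h1, self_mem_nhdsWithin] with b hb hbK
  rw [Metric.mem_ball, Prod.dist_eq, max_lt_iff, Real.dist_eq, Real.dist_eq] at hb
  exact (h b.1 (hKs hbK).1 b.2 (hKs hbK).2 hb.1 hb.2).symm

/-- the local step -/
theorem FLC_loc {H : M → ℝ → M} {v : M → ℝ → ℝ} {e δ : ℝ} {N : ℕ} (D : Dat H v e δ N)
    {ρ : ℝ → M} {c d : ℝ} {V : ℝ → ℝ → Prop} (hV : LocW H ρ c d V) {p p' : ℝ}
    (hp : p ∈ Icc c d) (hp' : p' ∈ Icc c d) (hnear : ∀ u ∈ uIcc p p', dist (ρ p) (ρ u) ≤ δ) :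
    fl v e N (ρ p) (V p) = fl v e N (ρ p') (V p') := by
  have hd : dist (ρ p) (ρ p') ≤ δ := hnear p' right_mem_uIcc
  have hN0 : (0 : ℝ) < N := by exact_mod_cast D.N_pos
  have hle : ∀ i : ℕ, (i : ℝ) / (N : ℝ) ≤ ((i + 1 : ℕ) : ℝ) / (N : ℝ) := by
    intro i
    apply div_le_div_of_nonneg_right _ hN0.le
    push_cast; linarith
  -- constancy along the fibre
  have hfib : ∀ q ∈ Icc c d, ∀ i < N, |v (ρ q) ((i : ℝ) / (N : ℝ))| < e →
      (V q ((i : ℝ) / (N : ℝ)) ↔ V q (((i + 1 : ℕ) : ℝ) / (N : ℝ))) := by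
    intro q hq i hi hv
    have h2 := D.mem_t hi.le
    have h3 := D.mem_t (show i + 1 ≤ N from hi)
    refine FLC_const hV (K := {q} ×ˢ Icc ((i : ℝ) / (N : ℝ)) (((i + 1 : ℕ) : ℝ) / (N : ℝ)))
      (isPreconnected_singleton.prod isPreconnected_Icc) ?_ ?_
      (x := (q, (i : ℝ) / (N : ℝ))) (y := (q, ((i + 1 : ℕ) : ℝ) / (N : ℝ)))
      ⟨rfl, le_rfl, hle i⟩ ⟨rfl, hle i, le_rfl⟩
    · rintro ⟨a, t⟩ ⟨ha, ht⟩
      rw [mem_singleton_iff] at ha
      simp only at ha ht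
      subst ha
      exact ⟨hq, h2.1.trans ht.1, ht.2.trans h3.2⟩
    · rintro ⟨a, t⟩ ⟨ha, ht⟩
      rw [mem_singleton_iff] at ha
      simp only at ha ht
      subst ha
      refine D.av (ρ a) (ρ a) (ρ a) _ t (by rw [dist_self]; exact D.δ_pos.le)
        (by rw [dist_self]; exact D.δ_pos.le) ?_ h2 ⟨h2.1.trans ht.1, ht.2.trans h3.2⟩ hv
      refine le_trans ?_ (D.step i)
      rw [abs_sub_comm, abs_of_nonneg (by linarith [ht.1]), abs_sub_comm,
        abs_of_nonneg (by linarith [hle i])]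
      linarith [ht.2]
  refine par_eq D.e_pos (D.t0 (ρ p)) (D.t0 (ρ p')) (D.tN (ρ p)) (D.tN (ρ p'))
    (fun i hi => D.vstep (ρ p) hi) (fun i hi => D.vstep (ρ p') hi) ?_
    (fun i hi h _ => hfib p hp i hi h) (fun i hi h _ => hfib p' hp' i hi h) ?_
  · intro i hi
    exact D.vv _ _ _ _ hd (by rw [sub_self, abs_zero]; exact D.inv_nonneg) (D.mem_t hi) (D.mem_t hi)
  · intro i hi hv _
    have h2 := D.mem_t hi
    have hsub : uIcc p p' ⊆ Icc c d := ordConnected_Icc.uIcc_subset hp hp'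
    refine FLC_const hV (K := uIcc p p' ×ˢ {(i : ℝ) / (N : ℝ)})
      (isPreconnected_uIcc.prod isPreconnected_singleton) ?_ ?_
      (x := (p, (i : ℝ) / (N : ℝ))) (y := (p', (i : ℝ) / (N : ℝ)))
      ⟨left_mem_uIcc, rfl⟩ ⟨right_mem_uIcc, rfl⟩
    · rintro ⟨a, t⟩ ⟨ha, ht⟩
      rw [mem_singleton_iff] at ht
      simp only at ha ht
      subst ht
      exact ⟨hsub ha, h2⟩
    · rintro ⟨a, t⟩ ⟨ha, ht⟩
      rw [mem_singleton_iff] at ht
      simp only at ha ht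
      subst ht
      exact D.av (ρ p) (ρ a) (ρ a) _ _ (hnear a ha) (hnear a ha)
        (by rw [sub_self, abs_zero]; exact D.inv_nonneg) h2 h2 hv

end

theorem p_FLC : Stmt_FLC := by
  intro M _ H v e δ N D ρ c d hρ V hV p hp p' hp'
  refine isPreconnected_Icc.induction₂
    (fun a b => fl v e N (ρ a) (V a) = fl v e N (ρ b) (V b)) ?_ (fun _ _ _ _ _ _ h h' => h.trans h')
    (fun _ _ _ _ h => h.symm) hp hp'
  intro x hx
  have h1 := Metric.continuousWithinAt_iff.1 (hρ x hx) δ D.δ_pos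
  obtain ⟨r, hr, h2⟩ := h1
  have h3 : Metric.ball x r ∈ 𝓝[Icc c d] x := mem_nhdsWithin_of_mem_nhds (Metric.ball_mem_nhds x hr)
  filter_upwards [h3, self_mem_nhdsWithin] with y hy hyI
  refine FLC_loc D hV hx hyI ?_
  intro u hu
  have hub : u ∈ Icc c d := by
    have hsub : uIcc x y ⊆ Icc c d := ordConnected_Icc.uIcc_subset hx hyI
    exact hsub hu
  have hur : dist u x < r := by
    rw [Metric.mem_ball] at hy
    refine lt_of_le_of_lt ?_ hy
    rw [Real.dist_eq, Real.dist_eq, abs_sub_comm u x, abs_sub_comm y x]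
    rcases le_total x y with h | h
    · rw [uIcc_of_le h] at hu
      rw [abs_sub_comm x u, abs_of_nonneg (by linarith [hu.1]), abs_sub_comm x y,
        abs_of_nonneg (by linarith)]
      linarith [hu.2]
    · rw [uIcc_of_ge h] at hu
      rw [abs_of_nonneg (by linarith [hu.2]), abs_of_nonneg (by linarith)]
      linarith [hu.1]
  have h4 := h2 hub hur
  rw [dist_comm] at h4
  exact h4.le

end Pool.RY
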