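import Pool.Agent.Work.MP_36677d_ray.Interface

/-! # MP_36677d_gt, block HCP (helper18): maps whose first coordinate moves the bottom of `M × I` into one
arc component -/

set_option autoImplicit false

open Set Filter Topology

namespace Pool.RY

open Pool.TL94

/-- hereditary unicoherence passes to subspaces -/
theorem HCP_hu {M : Type} [MetricSpace M] (hHU : HU M) (D : Set M) : HU D := by
  intro A B hA hA' hB hB'
  have h1 := hHU (Subtype.val '' A) (Subtype.val '' B) (hA.image continuous_subtype_val)
    (hA'.image _ continuous_subtype_val.continuousOn) (hB.image continuous_subtype_val)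
    (hB'.image _ continuous_subtype_val.continuousOn)
  rw [← image_inter Subtype.val_injective] at h1
  exact (IsInducing.subtypeVal.isPreconnected_image).1 h1

/-- a subcontinuum which lies in one arc component is path connected -/
theorem HCP_joined {M : Type} [MetricSpace M] [CompactSpace M] (hHU : HU M) {D : Set M}
    (hD : Cont D) (hJ : ∀ x ∈ D, ∀ y ∈ D, Joined x y) (x y : D) : Joined x y := by
  by_cases hxy : (x : M) = y
  · rw [Subtype.ext hxy]
  · obtain ⟨γ, hγ⟩ := exists_arcFn (hJ x x.2 y y.2) hxy
    have h1 : γ '' unitInterval ⊆ D := by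
      have h2 : seg (x : M) y = γ '' Icc 0 1 := by
        rw [← hγ.seg_eq hHU le_rfl le_rfl zero_le_one, hγ.zero, hγ.one]
      intro z hz
      have h3 : z ∈ seg (x : M) y := by rw [h2]; exact hz
      exact seg_sub hD x.2 y.2 h3
    have h2 : JoinedIn D (x : M) y := JoinedIn.ofLine hγ.cont hγ.zero hγ.one h1
    exact h2.joined_subtype

/-- a map which leaves the product of such a subcontinuum and the interval invariant has a fixed point -/
theorem HCP_inv {M : Type} [MetricSpace M] [CompactSpace M] (hHU : HU M) {D : Set M}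
    (hD : Cont D) (hJ : ∀ x ∈ D, ∀ y ∈ D, Joined x y) (p : M) (hp : p ∈ D)
    (G : C(M × unitInterval, M × unitInterval))
    (hG : ∀ x ∈ D, ∀ t : unitInterval, (G (x, t)).1 ∈ D) : ∃ q, G q = q := by
  have : CompactSpace D := isCompact_iff_compactSpace.1 hD.cpt
  have hall : ∀ x y : D, Joined x y := HCP_joined hHU hD hJ
  let G' : C(D × unitInterval, D × unitInterval) :=
    ⟨fun q => (⟨(G ((q.1 : M), q.2)).1, hG q.1 q.1.2 q.2⟩, (G ((q.1 : M), q.2)).2), by
      refine Continuous.prodMk ?_ ?_
      · refine Continuous.subtype_mk ?_ _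
        exact continuous_fst.comp (G.continuous.comp (by fun_prop))
      · exact continuous_snd.comp (G.continuous.comp (by fun_prop))⟩
  obtain ⟨q, hq⟩ := core (HCP_hu hHU D) (fun a x hx hne => exists_arcFn hx (fun h => hne h.symm))
    (⟨p, hp⟩ : D) (fun z hpz hz => bdd_of_closure (HCP_hu hHU D) _ z hpz hz (fun x _ => hall _ x)) G'
    (hall _ _)
  refine ⟨((q.1 : M), q.2), ?_⟩
  have h1 : ((G' q).1 : M) = q.1 := by rw [hq]
  have h2 : (G' q).2 = q.2 := by rw [hq]
  exact Prod.ext h1 h2

/-- `M` tree-like and connected, `h (M × {0})` in one arc component: `G = (h, k)` has a fixed point -/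
theorem p_HCP (M : Type) [MetricSpace M] [CompactSpace M] [ConnectedSpace M] (hT : TreeLike M)
    (G : C(M × unitInterval, M × unitInterval)) (p : M) (hp : ∀ x, Joined p (G (x, 0)).1) :
    ∃ q, G q = q := by
  have hc : Continuous (fun q : M × unitInterval => (G q).1) := continuous_fst.comp G.continuous
  have hj : ∀ q : M × unitInterval, Joined p (G q).1 := by
    rintro ⟨x, t⟩
    have h1 : Joined (0 : unitInterval) t :=
      ⟨⟨⟨fun s => s * t, by fun_prop⟩, by simp, by simp⟩⟩
    obtain ⟨γ⟩ := h1
    exact (hp x).trans ⟨γ.map (f := fun s : unitInterval => (G (x, s)).1)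
      (hc.comp (by fun_prop : Continuous fun s : unitInterval => (x, s)))⟩
  have hD : Cont (range (fun q : M × unitInterval => (G q).1)) :=
    ⟨isCompact_range hc, isPreconnected_range hc⟩
  refine HCP_inv hT.hu hD ?_ (G (p, 0)).1 ⟨(p, 0), rfl⟩ G ?_
  · rintro _ ⟨q, rfl⟩ _ ⟨q', rfl⟩
    exact (hj q).symm.trans (hj q')
  · intro x _ t
    exact ⟨(x, t), rfl⟩

end Pool.RY
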