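import Pool.Agent.Work.MP_36677d_ray.Interface

/-! # Block HNL (typed by helper88): maps homotopic to a constant -/

set_option autoImplicit false

open Set Filter Topology

namespace Pool.RY

open Pool.TL94

section

variable {M : Type} [MetricSpace M]

/-- parity one gives a value in the set -/
theorem HNL_par {H : M → ℝ → M} {v : M → ℝ → ℝ} {e : ℝ} {N : ℕ} {x : M} {S : Set M}
    (hN : 0 < N) (h : pa H v e N x S = 1) : ∃ t ∈ Icc (0:ℝ) 1, H x t ∈ S := by
  by_contra hcon
  push Not at hcon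
  have h0 : (0 : ℝ) < N := by exact_mod_cast hN
  have hlab : ∀ i : ℕ, i ≤ N →
      lab e (v x ((i : ℝ) / (N : ℝ))) (H x ((i : ℝ) / (N : ℝ)) ∈ S) ≠ 1 := by
    intro i hi h1
    refine hcon ((i : ℝ) / (N : ℝ)) ⟨by positivity, ?_⟩ (lab_eq_one h1).2
    rw [div_le_one h0]
    exact_mod_cast hi
  have h2 : pa H v e N x S = 0 := by
    unfold pa par
    refine Finset.sum_eq_zero fun i hi => ?_
    have hi' := Finset.mem_range.1 hi
    unfold cr
    rw [if_neg]
    rintro (⟨-, h3⟩ | ⟨h3, -⟩)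
    · exact hlab (i + 1) hi' h3
    · exact hlab i hi'.le h3
  rw [h2] at h
  exact absurd h (by decide)

theorem HNL_joined {γ : ℝ → M} {a b : M} (h : ArcFn γ a b) : Joined a b :=
  ⟨{ toFun := fun t => γ (t : ℝ)
     continuous_toFun := by
       have h1 := continuousOn_iff_continuous_restrict.1 h.cont
       exact h1
     source' := by simpa using h.zero
     target' := by simpa using h.one }⟩

variable [CompactSpace M]

/-- an increasing sequence in an arc is bounded -/
theorem HNL_bdd (hHU : HU M) {γ : ℝ → M} {a b c : M} (h : ArcFn γ a b) (hc : c ∈ γ '' Icc 0 1)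
    (z : ℕ → M) (hz : ∀ n, z n ∈ γ '' Icc 0 1) (hmono : ∀ m n, m ≤ n → z m ∈ seg c (z n)) :
    ∃ w, Joined c w ∧ ∀ n, z n ∈ seg c w := by
  have hab := HNL_joined h
  obtain ⟨s, hs, rfl⟩ := hc
  have hca : Joined a (γ s) := joined_of_mem_seg hHU hab (h.mem_seg hHU hs.1 hs.2)
  choose σ hσ hσz using hz
  have hright : ∀ n, s ≤ σ n → z n ∈ seg (γ s) b := by
    intro n hn
    have h1 := (h.mem_seg_iff hHU hs.1 le_rfl hs.2 (hσ n).1 (hσ n).2).2 ⟨hn, (hσ n).2⟩
    rw [hσz, h.one] at h1
    exact h1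
  have hleft : ∀ n, σ n ≤ s → z n ∈ seg (γ s) a := by
    intro n hn
    have h1 := (h.mem_seg_iff hHU le_rfl hs.2 hs.1 (hσ n).1 (hσ n).2).2 ⟨(hσ n).1, hn⟩
    rw [hσz, h.zero, seg_comm] at h1
    exact h1
  by_cases hall : ∀ n, s ≤ σ n
  · exact ⟨b, hca.symm.trans hab, fun n => hright n (hall n)⟩
  by_cases hall' : ∀ n, σ n ≤ s
  · exact ⟨a, hca.symm, fun n => hleft n (hall' n)⟩
  exfalso
  push Not at hall hall'
  obtain ⟨m, hm⟩ := hall
  obtain ⟨n, hn⟩ := hall'
  rcases le_total m n with hmn | hmn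
  · have h1 := hmono m n hmn
    rw [← hσz m, ← hσz n, h.mem_seg_iff hHU hs.1 (hσ n).2 hn.le (hσ m).1 (hσ m).2] at h1
    linarith [h1.1]
  · have h1 := hmono n m hmn
    rw [← hσz m, ← hσz n, seg_comm, h.mem_seg_iff hHU (hσ m).1 hs.2 hm.le (hσ n).1 (hσ n).2] at h1
    linarith [h1.2]

end

theorem p_HNL (hRAYQ : Stmt_RAYQ) (hTRC : Stmt_TRC) : Stmt_HNL := by
  intro M _ _ hT hNT G c hHo
  by_contra hG
  push Not at hG
  have hHU : HU M := hT.hu
  haveI : Nonempty M := ⟨c⟩
  obtain ⟨v, e, δ, N, D⟩ := exists_dat G hG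
  obtain ⟨F⟩ := hHo
  set H : M → ℝ → M := fun x t => (G (x, projIcc 0 1 zero_le_one t)).1 with hH
  -- the long path
  obtain ⟨K, hK⟩ : ∃ K : M → ℝ → M, ∀ x s, K x s =
      if s ≤ 1 then F (projIcc 0 1 zero_le_one (1 - s), x) else H x (s - 1) := ⟨_, fun _ _ => rfl⟩
  have hKc : Continuous (fun q : M × ℝ => K q.1 q.2) := by
    simp only [hK]
    refine Continuous.if_le ?_ ?_ continuous_snd continuous_const ?_
    · have : Continuous (fun q : M × ℝ => (projIcc (0:ℝ) 1 zero_le_one (1 - q.2), q.1)) := by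
        fun_prop
      exact F.continuous.comp this
    · exact D.cH.comp (by fun_prop : Continuous fun q : M × ℝ => (q.1, q.2 - 1))
    · rintro ⟨x, s⟩ hs
      simp only at hs
      subst hs
      simp only [sub_self]
      rw [projIcc_left]
      have h1 : F (0, x) = (G (x, 0)).1 := F.apply_zero x
      have h2 : H x 0 = (G (x, 0)).1 := by
        rw [hH]
        simp only
        rw [projIcc_left]
        rfl
      rw [h2]
      exact h1
  have hK0 : ∀ x, K x 0 = c := by
    intro x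
    rw [hK, if_pos zero_le_one, sub_zero, projIcc_right]
    exact F.apply_one x
  have hKH : ∀ x, ∀ t ∈ Icc (0:ℝ) 1, K x (t + 1) = H x t := by
    intro x t ht
    rw [hK]
    split_ifs with h1
    · have ht0 : t = 0 := le_antisymm (by linarith) ht.1
      subst ht0
      rw [zero_add, sub_self, projIcc_left]
      have h1 : F (0, x) = (G (x, 0)).1 := F.apply_zero x
      have h2 : H x 0 = (G (x, 0)).1 := by
        rw [hH]
        simp only
        rw [projIcc_left]
        rfl
      rw [h2]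
      exact h1
    · rw [add_sub_cancel_right]
  have hcont : ∀ x, ∀ T : ℝ, Cont ((fun s => K x s) '' Icc 0 T) := by
    intro x T
    have h1 : Continuous (fun s => K x s) := hKc.comp (by fun_prop : Continuous fun s : ℝ => (x, s))
    exact ⟨isCompact_Icc.image h1, isPreconnected_Icc.image _ h1.continuousOn⟩
  have hjoin : ∀ x, ∀ t ∈ Icc (0:ℝ) 1, Joined c (H x t) := by
    intro x t ht
    have h1 : Continuous (fun s : unitInterval => K x ((t + 1) * (s : ℝ))) :=
      hKc.comp (by fun_prop : Continuous fun s : unitInterval => (x, (t + 1) * (s : ℝ)))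
    refine ⟨{ toFun := fun s => K x ((t + 1) * (s : ℝ)), continuous_toFun := h1,
              source' := ?_, target' := ?_ }⟩
    · simp [hK0]
    · simp [hKH x t ht]
  obtain ⟨z, hz1, hz2, hz3, hz4⟩ := hRAYQ M H v e δ N D hHU c (fun x _ t ht => hjoin x t ht)
  have hmono : ∀ m n, m ≤ n → z m ∈ seg c (z n) := by
    intro m n hmn
    induction n, hmn using Nat.le_induction with
    | base => exact right_mem _ _
    | succ n _ ih => exact seg_trans ih (hz3 n)
  have hin : ∀ m n, m ≤ n → z m ∈ (fun s => K (z n) s) '' Icc 0 2 := by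
    intro m n hmn
    obtain ⟨t, ht, h1⟩ := HNL_par D.N_pos (hz2 n (z n) (right_mem _ _))
    have h2 : z m ∈ seg c (H (z n) t) := seg_trans (hmono m n hmn) h1
    refine seg_sub (hcont (z n) 2) ?_ ?_ h2
    · exact ⟨0, ⟨le_rfl, by norm_num⟩, hK0 (z n)⟩
    · exact ⟨t + 1, ⟨by linarith [ht.1], by linarith [ht.2]⟩, hKH (z n) t ht⟩
  -- a limit point
  obtain ⟨x, -, φ, hφ, hlim⟩ := isCompact_univ.tendsto_subseq (fun n => mem_univ (z n))
  have hx : ∀ m, z m ∈ (fun s => K x s) '' Icc 0 2 := by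
    intro m
    have hcl : IsClosed {y : M | z m ∈ (fun s => K y s) '' Icc 0 2} := by
      have h1 : {y : M | z m ∈ (fun s => K y s) '' Icc 0 2} =
          Prod.fst '' ({q : M × ℝ | K q.1 q.2 = z m} ∩ (univ ×ˢ Icc (0:ℝ) 2)) := by
        ext y
        constructor
        · rintro ⟨s, hs, h2⟩
          exact ⟨(y, s), ⟨h2, mem_univ _, hs⟩, rfl⟩
        · rintro ⟨⟨y', s⟩, ⟨h2, -, hs⟩, rfl⟩
          exact ⟨s, hs, h2⟩
      rw [h1]
      have h2 : IsCompact (univ ×ˢ Icc (0:ℝ) 2 : Set (M × ℝ)) := isCompact_univ.prod isCompact_Icc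
      have h3 : IsClosed {q : M × ℝ | K q.1 q.2 = z m} := isClosed_eq hKc continuous_const
      exact ((h2.inter_left h3).image continuous_fst).isClosed
    refine hcl.mem_of_tendsto hlim ?_
    filter_upwards [eventually_ge_atTop m] with k hk
    exact hin m (φ k) (hk.trans (hφ.id_le k))
  have hKx : ContinuousOn (fun s => K x s) (Icc 0 2) :=
    (hKc.comp (by fun_prop : Continuous fun s : ℝ => (x, s))).continuousOn
  obtain ⟨w, hw1, hw2⟩ : ∃ w, Joined c w ∧ ∀ n, z n ∈ seg c w := by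
    rcases hTRC M hHU hNT (fun s => K x s) 0 2 (by norm_num) hKx with ⟨y, hy⟩ | ⟨γ, a, b, hγ, hy⟩
    · refine ⟨c, Joined.refl c, fun n => ?_⟩
      obtain ⟨s, hs, h1⟩ := hx n
      have h2 : z n = c := by
        rw [← h1, ← hK0 x]
        exact (hy s hs).trans (hy 0 ⟨le_rfl, by norm_num⟩).symm
      rw [h2]
      exact left_mem c c
    · refine HNL_bdd hHU hγ ?_ z ?_ hmono
      · have := hy 0 ⟨le_rfl, by norm_num⟩
        simp only [hK0] at this
        exact this
      · intro n
        obtain ⟨s, hs, h1⟩ := hx n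
        rw [← h1]
        exact hy s hs
  obtain ⟨n, hn⟩ := hz4 w hw1
  exact hn (hw2 n)

end Pool.RY
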