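import Pool.Agent.Work.MP_36677d_ray.Interface

set_option autoImplicit false

/-! # Block INTP: intermediate values for the class `Pth` -/

open Set Filter Topology

namespace Pool.RY

open Pool.TL94

/-- the predicate is constant on an interval which avoids `H (ρ p) t` -/
theorem INTP_const {M : Type} [MetricSpace M] {H : M → ℝ → M} {B : ℝ} {D r : ℝ → ℝ} {ρ : ℝ → M}
    {S : ℝ → ℝ → ℝ → Prop} (hr : Pos r) (h : Pth H B D r univ ρ S) (p : ℝ) {t : ℝ}
    (ht : t ∈ Icc (0:ℝ) 1) {x y : ℝ} (hxy : x ≤ y) (hn : ∀ u ∈ Icc x y, H (ρ p) t ≠ ρ u) :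
    S p t x ↔ S p t y := by
  refine (isPreconnected_Icc (a := x) (b := y)).induction₂ (fun u u' => S p t u ↔ S p t u') ?_ ?_ ?_
    (left_mem_Icc.2 hxy) (right_mem_Icc.2 hxy)
  · intro u hu
    have h0 : 0 < dist (H (ρ p) t) (ρ u) := dist_pos.2 (hn u hu)
    have h1 : 0 < r (dist (H (ρ p) t) (ρ u) / 2) := hr _ (half_pos h0)
    have h2 : ∀ᶠ u' in 𝓝[Icc x y] u, dist u' u < r (dist (H (ρ p) t) (ρ u) / 2) :=
      mem_nhdsWithin_of_mem_nhds (Metric.ball_mem_nhds u h1)
    filter_upwards [h2] with u' hu'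
    have h3 : |p - p| ≤ r (dist (H (ρ p) t) (ρ u) / 2) := by
      rw [sub_self, abs_zero]; exact h1.le
    have h4 : |t - t| ≤ r (dist (H (ρ p) t) (ρ u) / 2) := by
      rw [sub_self, abs_zero]; exact h1.le
    have h5 : |u - u'| ≤ r (dist (H (ρ p) t) (ρ u) / 2) := by
      rw [abs_sub_comm, ← Real.dist_eq]; exact hu'.le
    exact h.loc _ (half_pos h0) p (mem_univ _) p (mem_univ _) u (mem_univ _) u' (mem_univ _) t ht t
      ht (half_lt_self h0) h3 h4 h5
  · intro a b c _ _ _ h1 h2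
    exact h1.trans h2
  · intro a b _ _ h1
    exact h1.symm

theorem p_INTP : Stmt_INTP := by
  intro M _ H B D r ρ S hB _ hr h p t ht
  refine ⟨?_, ?_, ?_⟩
  · by_contra hc
    have hn : ∀ u ∈ Icc (p - B) (p + B), H (ρ p) t ≠ ρ u := fun u hu he => hc ⟨u, hu, he.symm⟩
    have h1 := INTP_const hr h p ht (x := p - B) (y := p + B) (by linarith) hn
    have h2 : S p t (p - B) := h.dn p (mem_univ _) (p - B) (mem_univ _) t ht
      (hn _ ⟨le_refl _, by linarith⟩) (le_refl _)
    exact h.up p (mem_univ _) (p + B) (mem_univ _) t ht (hn _ ⟨by linarith, le_refl _⟩)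
      (le_refl _) (h1.1 h2)
  · intro hne hS
    by_contra hc
    have hn : ∀ u ∈ Icc p (p + B), H (ρ p) t ≠ ρ u := by
      intro u hu he
      rcases eq_or_lt_of_le hu.1 with h0 | h0
      · rw [← h0] at he
        exact hne he
      · exact hc ⟨u, ⟨h0, hu.2⟩, he.symm⟩
    have h1 := INTP_const hr h p ht (x := p) (y := p + B) (by linarith) hn
    exact h.up p (mem_univ _) (p + B) (mem_univ _) t ht (hn _ ⟨by linarith, le_refl _⟩)
      (le_refl _) (h1.1 hS)
  · intro hne hS
    by_contra hc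
    have hn : ∀ u ∈ Icc (p - B) p, H (ρ p) t ≠ ρ u := by
      intro u hu he
      rcases eq_or_lt_of_le hu.2 with h0 | h0
      · rw [h0] at he
        exact hne he
      · exact hc ⟨u, ⟨hu.1, h0⟩, he.symm⟩
    have h1 := INTP_const hr h p ht (x := p - B) (y := p) (by linarith) hn
    have h2 : S p t (p - B) := h.dn p (mem_univ _) (p - B) (mem_univ _) t ht
      (hn _ ⟨le_refl _, by linarith⟩) (le_refl _)
    exact hS (h1.1 h2)

end Pool.RY
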