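import Pool.Agent.Work.MP_36677d_ray.Interface

/-! Block KFM: the parities at a forward minimum. -/

set_option autoImplicit false
set_option linter.unusedVariables false

open Set Filter Topology

namespace Pool.RY

open Pool.TL94

variable {M : Type} [MetricSpace M]

theorem KFM_cont {H : M → ℝ → M} {B : ℝ} {D r : ℝ → ℝ} {ρ : ℝ → M} {S : ℝ → ℝ → ℝ → Prop}
    (hD : Pos D) (P : Pth H B D r univ ρ S) : Continuous ρ := by
  rw [Metric.continuous_iff]
  intro p ε hε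
  refine ⟨D (ε / 2), hD _ (by linarith), fun q hq => ?_⟩
  have h := P.mod (ε / 2) (by linarith) q (mem_univ _) p (mem_univ _) (by
    rw [Real.dist_eq] at hq; exact hq.le)
  linarith

theorem KFM_S {H : M → ℝ → M} {B : ℝ} {D r : ℝ → ℝ} {ρ : ℝ → M} {S : ℝ → ℝ → ℝ → Prop}
    (hr : Pos r) (P : Pth H B D r univ ρ S) (p t u : ℝ) (ht : t ∈ Icc (0:ℝ) 1)
    (h : H (ρ p) t ≠ ρ u) : ∃ η : ℝ, 0 < η ∧ ∀ p' t' u', t' ∈ Icc (0:ℝ) 1 → |p' - p| < η →
      |t' - t| < η → |u' - u| < η → (S p' t' u' ↔ S p t u) := by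
  have hd : 0 < dist (H (ρ p) t) (ρ u) := dist_pos.2 h
  refine ⟨r (dist (H (ρ p) t) (ρ u) / 2), hr _ (by linarith), ?_⟩
  intro p' t' u' ht' h1 h2 h3
  refine (P.loc (dist (H (ρ p) t) (ρ u) / 2) (by linarith) p (mem_univ _) p' (mem_univ _) u
    (mem_univ _) u' (mem_univ _) t ht t' ht' (by linarith) ?_ ?_ ?_).symm
  · rw [abs_sub_comm]; exact h1.le
  · rw [abs_sub_comm]; exact h2.le
  · rw [abs_sub_comm]; exact h3.le

theorem KFM_sgn {H : M → ℝ → M} {ρ : ℝ → M} {B c d : ℝ} {γ : ℝ → M} {a b : M} {σ : ℝ → ℝ}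
    {lam : ℝ → ℝ → ℝ} (hB : 0 < B) (L : Leaf H ρ B c d γ a b σ lam) (p t : ℝ) (hp : p ∈ Icc c d)
    (ht : t ∈ Icc (0:ℝ) 1) (h : lam p t ≠ σ p) : ∃ η : ℝ, 0 < η ∧ ∀ p' ∈ Icc c d,
      ∀ t' ∈ Icc (0:ℝ) 1, |p' - p| < η → |t' - t| < η →
      ((σ p' < lam p' t' ↔ σ p < lam p t) ∧ (lam p' t' < σ p' ↔ lam p t < σ p)) := by
  have hsub : Icc c d ⊆ Icc (c - B) (d + B) := Icc_subset_Icc (by linarith) (by linarith)
  have hg : ContinuousOn (fun q : ℝ × ℝ => lam q.1 q.2 - σ q.1) (Icc c d ×ˢ Icc (0:ℝ) 1) := by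
    refine L.lC.sub ?_
    exact (L.sC.mono hsub).comp continuous_fst.continuousOn (fun q hq => hq.1)
  have hne : |lam p t - σ p| > 0 := abs_pos.2 (sub_ne_zero.2 h)
  have h1 := hg (p, t) ⟨hp, ht⟩
  rw [Metric.continuousWithinAt_iff] at h1
  obtain ⟨η, hη, h2⟩ := h1 (|lam p t - σ p|) hne
  refine ⟨η, hη, fun p' hp' t' ht' h3 h4 => ?_⟩
  have h5 := h2 (x := (p', t')) ⟨hp', ht'⟩ (by
    rw [Prod.dist_eq]
    exact max_lt (by rw [Real.dist_eq]; exact h3) (by rw [Real.dist_eq]; exact h4))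
  rw [Real.dist_eq] at h5
  simp only at h5
  rcases lt_or_gt_of_ne h with h6 | h6
  · have h7 : |lam p t - σ p| = σ p - lam p t := by
      rw [abs_of_neg (by linarith)]; ring
    rw [h7] at h5
    have h8 := (abs_lt.1 h5).2
    refine ⟨⟨fun h => ?_, fun h => ?_⟩, ⟨fun _ => h6, fun _ => ?_⟩⟩ <;> linarith
  · have h7 : |lam p t - σ p| = lam p t - σ p := abs_of_pos (by linarith)
    rw [h7] at h5
    have h8 := (abs_lt.1 h5).1
    refine ⟨⟨fun _ => h6, fun _ => ?_⟩, ⟨fun h => ?_, fun h => ?_⟩⟩ <;> linarith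

theorem KFM_ne {H : M → ℝ → M} {ρ : ℝ → M} {B c d : ℝ} {γ : ℝ → M} {a b : M} {σ : ℝ → ℝ}
    {lam : ℝ → ℝ → ℝ} (L : Leaf H ρ B c d γ a b σ lam) {p t q : ℝ} (hp : p ∈ Icc c d)
    (ht : t ∈ Icc (0:ℝ) 1) (hq : q ∈ Icc (c - B) (d + B)) : lam p t = σ q ↔ H (ρ p) t = ρ q := by
  rw [L.lE p hp t ht, L.sE q hq]
  exact ⟨fun h => by rw [h], fun h => L.arc.inj (L.lI p hp t ht) (L.sI q hq) h⟩

theorem p_KFM (hINTP : Stmt_INTP) (hFLC : Stmt_FLC) (hFLB : Stmt_FLB) : Stmt_KFM := by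
  intro M _ H v e δ N hDat B D r ρ S hB hD hr hP c d γ a b σ lam hL u hcu hud hmin p hp
  have hsub : Icc c d ⊆ Icc (c - B) (d + B) := Icc_subset_Icc (by linarith) (by linarith)
  have hρ : ContinuousOn ρ (Icc c d) := (KFM_cont hD hP).continuousOn
  have huI : u ∈ Icc c d := ⟨hcu, by linarith⟩
  have huBI : u + B ∈ Icc c d := ⟨by linarith, hud⟩
  have hne : ∀ p ∈ Icc c d, ∀ t ∈ Icc (0:ℝ) 1, H (ρ p) t ≠ ρ p → lam p t ≠ σ p :=
    fun p hp t ht h h' => h ((KFM_ne hL hp ht (hsub hp)).1 h')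
  -- local constancy of the basic predicates
  have hloc : ∀ p ∈ Icc c d, ∀ t ∈ Icc (0:ℝ) 1, H (ρ p) t ≠ ρ p → ∃ η : ℝ, 0 < η ∧
      ∀ p' ∈ Icc c d, ∀ t' ∈ Icc (0:ℝ) 1, |p' - p| < η → |t' - t| < η →
        (S p' t' p' ↔ S p t p) ∧ (σ p' < lam p' t' ↔ σ p < lam p t) ∧
          (lam p' t' < σ p' ↔ lam p t < σ p) := by
    intro p hp t ht h
    obtain ⟨η1, h1, h2⟩ := KFM_S hr hP p t p ht h
    obtain ⟨η2, h3, h4⟩ := KFM_sgn hB hL p t hp ht (hne p hp t ht h)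
    refine ⟨min η1 η2, lt_min h1 h3, fun p' hp' t' ht' h5 h6 => ?_⟩
    have h7 := lt_of_lt_of_le h5 (min_le_left _ _)
    have h8 := lt_of_lt_of_le h5 (min_le_right _ _)
    have h9 := lt_of_lt_of_le h6 (min_le_left _ _)
    have h10 := lt_of_lt_of_le h6 (min_le_right _ _)
    exact ⟨h2 p' t' p' ht' h7 h9 h7, h4 p' hp' t' ht' h8 h10⟩
  constructor
  · -- the first parity
    have hLW : LocW H ρ c d (fun p t => S p t p ∧ lam p t < σ p) := by
      intro p hp t ht h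
      obtain ⟨η, h1, h2⟩ := hloc p hp t ht h
      refine ⟨η, h1, fun p' hp' t' ht' h3 h4 => ?_⟩
      obtain ⟨h5, h6, h7⟩ := h2 p' hp' t' ht' h3 h4
      simp only [h5, h7]
    have h1 := hFLC M H v e δ N hDat ρ c d hρ _ hLW p hp u huI
    rw [h1]
    refine (hFLB M H v e δ N hDat (ρ u)).2.1 _ ?_
    intro t ht h
    rintro ⟨h2, h3⟩
    obtain ⟨q, hq, hqE⟩ := (hINTP M H B D r ρ S hB hD hr hP u t ht).2.1 h h2
    have hqI : q ∈ Icc (c - B) (d + B) := ⟨by linarith [hq.1], by linarith [hq.2]⟩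
    have h4 : lam u t = σ q := (KFM_ne hL huI ht hqI).2 hqE.symm
    have h5 := hmin q ⟨hq.1.le, hq.2⟩
    linarith
  · -- the second parity
    obtain ⟨V, hV⟩ : ∃ V : ℝ → ℝ → Prop, ∀ p t, V p t ↔ (¬ S p t p ∧ σ p < lam p t) :=
      ⟨_, fun _ _ => Iff.rfl⟩
    obtain ⟨V2, hV2⟩ : ∃ V2 : ℝ → ℝ → Prop, ∀ p t, V2 p t ↔
      (V p t ∧ (u + B < p ∨ (u < p ∧ p ≤ u + B ∧ S p t u))) := ⟨_, fun _ _ => Iff.rfl⟩
    obtain ⟨V1, hV1⟩ : ∃ V1 : ℝ → ℝ → Prop, ∀ p t, V1 p t ↔ (V p t ∧ ¬ V2 p t) :=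
      ⟨_, fun _ _ => Iff.rfl⟩
    have hVloc : ∀ p ∈ Icc c d, ∀ t ∈ Icc (0:ℝ) 1, H (ρ p) t ≠ ρ p → ∃ η : ℝ, 0 < η ∧
        ∀ p' ∈ Icc c d, ∀ t' ∈ Icc (0:ℝ) 1, |p' - p| < η → |t' - t| < η → (V p' t' ↔ V p t) := by
      intro p hp t ht h
      obtain ⟨η, h1, h2⟩ := hloc p hp t ht h
      refine ⟨η, h1, fun p' hp' t' ht' h3 h4 => ?_⟩
      obtain ⟨h5, h6, h7⟩ := h2 p' hp' t' ht' h3 h4
      rw [hV, hV, h5, h6]
    -- the position of `u`
    have hnu : ∀ p ∈ Icc c d, ∀ t ∈ Icc (0:ℝ) 1, u ≤ p → p ≤ u + B → V p t →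
        H (ρ p) t ≠ ρ u := by
      intro p hp t ht h1 h2 h3 h4
      rw [hV] at h3
      have h5 : lam p t = σ u := (KFM_ne hL hp ht (hsub huI)).2 h4
      have h6 := hmin p ⟨h1, h2⟩
      linarith [h3.2]
    have hLW2 : LocW H ρ c d V2 := by
      intro p hp t ht h
      obtain ⟨η, hη, h2⟩ := hVloc p hp t ht h
      by_cases hVp : V p t
      swap
      · refine ⟨η, hη, fun p' hp' t' ht' h3 h4 => ?_⟩
        rw [hV2, hV2]
        exact iff_of_false (fun h5 => hVp ((h2 p' hp' t' ht' h3 h4).1 h5.1)) (fun h5 => hVp h5.1)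
      rcases lt_trichotomy p u with hpu | hpu | hpu
      · refine ⟨min η (u - p), lt_min hη (by linarith), fun p' hp' t' ht' h3 h4 => ?_⟩
        have h5 := (abs_lt.1 (lt_of_lt_of_le h3 (min_le_right _ _))).2
        rw [hV2, hV2]
        refine iff_of_false ?_ ?_
        · rintro ⟨-, h6 | ⟨h6, -, -⟩⟩ <;> linarith
        · rintro ⟨-, h6 | ⟨h6, -, -⟩⟩ <;> linarith
      · subst hpu
        obtain ⟨η1, hη1, h5⟩ := KFM_S hr hP p t p ht h
        refine ⟨min η1 B, lt_min hη1 hB, fun p' hp' t' ht' h3 h4 => ?_⟩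
        have h6 := (abs_lt.1 (lt_of_lt_of_le h3 (min_le_right _ _))).2
        have h7 := h5 p' t' p ht' (lt_of_lt_of_le h3 (min_le_left _ _))
          (lt_of_lt_of_le h4 (min_le_left _ _)) (by simpa using hη1)
        have h8 : ¬ S p t p := ((hV p t).1 hVp).1
        rw [hV2, hV2]
        refine iff_of_false ?_ ?_
        · rintro ⟨-, h9 | ⟨-, -, h9⟩⟩
          · linarith
          · exact h8 (h7.1 h9)
        · rintro ⟨-, h9 | ⟨h9, -, -⟩⟩ <;> linarith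
      · rcases lt_trichotomy p (u + B) with hpB | hpB | hpB
        · obtain ⟨η1, hη1, h5⟩ := KFM_S hr hP p t u ht (hnu p hp t ht hpu.le hpB.le hVp)
          refine ⟨min (min η η1) (min (p - u) (u + B - p)), lt_min (lt_min hη hη1)
            (lt_min (by linarith) (by linarith)), fun p' hp' t' ht' h3 h4 => ?_⟩
          have a1 := (abs_lt.1 (lt_of_lt_of_le h3 ((min_le_right _ _).trans (min_le_left _ _)))).1
          have a2 := (abs_lt.1 (lt_of_lt_of_le h3 ((min_le_right _ _).trans (min_le_right _ _)))).2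
          have a3 := h2 p' hp' t' ht' (lt_of_lt_of_le h3 ((min_le_left _ _).trans (min_le_left _ _)))
            (lt_of_lt_of_le h4 ((min_le_left _ _).trans (min_le_left _ _)))
          have a4 := h5 p' t' u ht' (lt_of_lt_of_le h3 ((min_le_left _ _).trans (min_le_right _ _)))
            (lt_of_lt_of_le h4 ((min_le_left _ _).trans (min_le_right _ _))) (by simpa using hη1)
          rw [hV2, hV2, a3, a4]
          constructor
          · rintro ⟨b1, b2 | ⟨b2, b3, b4⟩⟩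
            · exact absurd b2 (by linarith)
            · exact ⟨b1, Or.inr ⟨hpu, hpB.le, b4⟩⟩
          · rintro ⟨b1, b2 | ⟨b2, b3, b4⟩⟩
            · exact absurd b2 (by linarith)
            · exact ⟨b1, Or.inr ⟨by linarith, by linarith, b4⟩⟩
        · have hHu := hnu p hp t ht hpu.le hpB.le hVp
          obtain ⟨η1, hη1, h5⟩ := KFM_S hr hP p t u ht hHu
          have hS : S p t u := hP.dn p (mem_univ _) u (mem_univ _) t ht hHu (by linarith)
          refine ⟨min (min η η1) B, lt_min (lt_min hη hη1) hB, fun p' hp' t' ht' h3 h4 => ?_⟩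
          have a1 := (abs_lt.1 (lt_of_lt_of_le h3 (min_le_right _ _))).1
          have a3 := h2 p' hp' t' ht' (lt_of_lt_of_le h3 ((min_le_left _ _).trans (min_le_left _ _)))
            (lt_of_lt_of_le h4 ((min_le_left _ _).trans (min_le_left _ _)))
          have a4 := h5 p' t' u ht' (lt_of_lt_of_le h3 ((min_le_left _ _).trans (min_le_right _ _)))
            (lt_of_lt_of_le h4 ((min_le_left _ _).trans (min_le_right _ _))) (by simpa using hη1)
          rw [hV2, hV2]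
          refine iff_of_true ⟨a3.2 hVp, ?_⟩ ⟨hVp, Or.inr ⟨hpu, hpB.le, hS⟩⟩
          by_cases b1 : u + B < p'
          · exact Or.inl b1
          · exact Or.inr ⟨by linarith, by linarith, a4.2 hS⟩
        · refine ⟨min η (p - (u + B)), lt_min hη (by linarith), fun p' hp' t' ht' h3 h4 => ?_⟩
          have a1 := (abs_lt.1 (lt_of_lt_of_le h3 (min_le_right _ _))).1
          have a3 := h2 p' hp' t' ht' (lt_of_lt_of_le h3 (min_le_left _ _))
            (lt_of_lt_of_le h4 (min_le_left _ _))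
          rw [hV2, hV2]
          exact iff_of_true ⟨a3.2 hVp, Or.inl (by linarith)⟩ ⟨hVp, Or.inl hpB⟩
    have hLW1 : LocW H ρ c d V1 := by
      intro p hp t ht h
      obtain ⟨η, hη, h2⟩ := hVloc p hp t ht h
      obtain ⟨η2, hη2, h3⟩ := hLW2 p hp t ht h
      refine ⟨min η η2, lt_min hη hη2, fun p' hp' t' ht' h4 h5 => ?_⟩
      rw [hV1, hV1, h2 p' hp' t' ht' (lt_of_lt_of_le h4 (min_le_left _ _))
        (lt_of_lt_of_le h5 (min_le_left _ _)), h3 p' hp' t' ht'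
        (lt_of_lt_of_le h4 (min_le_right _ _)) (lt_of_lt_of_le h5 (min_le_right _ _))]
    have hsum : fl v e N (ρ p) (V p) = fl v e N (ρ p) (V1 p) + fl v e N (ρ p) (V2 p) := by
      refine (hFLB M H v e δ N hDat (ρ p)).2.2.1 _ _ _ ?_
      intro t ht h
      refine ⟨⟨fun h1 => ?_, fun h1 => ?_⟩, fun h1 => ?_⟩
      · by_cases h2 : V2 p t
        · exact Or.inr h2
        · exact Or.inl ((hV1 p t).2 ⟨h1, h2⟩)
      · rcases h1 with h1 | h1
        · exact ((hV1 p t).1 h1).1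
        · exact ((hV2 p t).1 h1).1
      · exact ((hV1 p t).1 h1.1).2 h1.2
    have h2 : fl v e N (ρ p) (V2 p) = 0 := by
      rw [hFLC M H v e δ N hDat ρ c d hρ _ hLW2 p hp u huI]
      refine (hFLB M H v e δ N hDat (ρ u)).2.1 _ ?_
      intro t ht h
      rw [hV2]
      rintro ⟨-, h3 | ⟨h3, -, -⟩⟩ <;> linarith
    have h1 : fl v e N (ρ p) (V1 p) = 0 := by
      rw [hFLC M H v e δ N hDat ρ c d hρ _ hLW1 p hp (u + B) huBI]
      refine (hFLB M H v e δ N hDat (ρ (u + B))).2.1 _ ?_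
      intro t ht h
      rw [hV1, hV2]
      rintro ⟨h3, h4⟩
      refine h4 ⟨h3, Or.inr ⟨by linarith, le_rfl, ?_⟩⟩
      exact hP.dn (u + B) (mem_univ _) u (mem_univ _) t ht
        (hnu (u + B) huBI t ht (by linarith) le_rfl h3) (by linarith)
    have h3 : fl v e N (ρ p) (fun t => ¬ S p t p ∧ σ p < lam p t) = fl v e N (ρ p) (V p) := by
      congr 1
      funext t
      exact propext (hV p t).symm
    rw [h3, hsum, h1, h2, add_zero]

end Pool.RY
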