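import Pool.Agent.Work.MP_36677d_ray.Interface

/-! Block KND: the parities at points of kind I and II, by symmetry from KFM. -/

set_option autoImplicit false
set_option linter.unusedVariables false

open Set Filter Topology

namespace Pool.RY

open Pool.TL94

variable {M : Type} [MetricSpace M]

/-- reversal of the arc -/
theorem KND_flip {H : M → ℝ → M} {ρ : ℝ → M} {B c d : ℝ} {γ : ℝ → M} {a b : M} {σ : ℝ → ℝ}
    {lam : ℝ → ℝ → ℝ} (L : Leaf H ρ B c d γ a b σ lam) :
    Leaf H ρ B c d (fun s => γ (1 - s)) b a (fun p => 1 - σ p) (fun p t => 1 - lam p t) where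
  arc := L.arc.rev
  sI := fun p hp => ⟨by linarith [(L.sI p hp).2], by linarith [(L.sI p hp).1]⟩
  sC := continuousOn_const.sub L.sC
  sE := fun p hp => by
    show ρ p = γ (1 - (1 - σ p))
    rw [sub_sub_cancel]
    exact L.sE p hp
  lI := fun p hp t ht => ⟨by linarith [(L.lI p hp t ht).2], by linarith [(L.lI p hp t ht).1]⟩
  lC := continuousOn_const.sub L.lC
  lE := fun p hp t ht => by
    show H (ρ p) t = γ (1 - (1 - lam p t))
    rw [sub_sub_cancel]
    exact L.lE p hp t ht

/-- reversal of the path -/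
theorem KND_rev {H : M → ℝ → M} {ρ : ℝ → M} {B c d : ℝ} {γ : ℝ → M} {a b : M} {σ : ℝ → ℝ}
    {lam : ℝ → ℝ → ℝ} (L : Leaf H ρ B c d γ a b σ lam) :
    Leaf H (fun p => ρ (-p)) B (-d) (-c) γ a b (fun p => σ (-p)) (fun p t => lam (-p) t) where
  arc := L.arc
  sI := fun p hp => L.sI (-p) ⟨by linarith [hp.2], by linarith [hp.1]⟩
  sC := L.sC.comp (by fun_prop) (fun p hp => ⟨by linarith [hp.2], by linarith [hp.1]⟩)
  sE := fun p hp => L.sE (-p) ⟨by linarith [hp.2], by linarith [hp.1]⟩
  lI := fun p hp t ht => L.lI (-p) ⟨by linarith [hp.2], by linarith [hp.1]⟩ t ht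
  lC := by
    have h : ContinuousOn (fun q : ℝ × ℝ => (-q.1, q.2)) (Icc (-d) (-c) ×ˢ Icc (0:ℝ) 1) := by
      fun_prop
    exact L.lC.comp h (fun q hq => ⟨⟨by linarith [hq.1.2], by linarith [hq.1.1]⟩, hq.2⟩)
  lE := fun p hp t ht => L.lE (-p) ⟨by linarith [hp.2], by linarith [hp.1]⟩ t ht

theorem p_KND (hKFM : Stmt_KFM) (hSHF : Stmt_SHF) : Stmt_KND := by
  intro M _ H v e δ N hDat B D r ρ S hB hD hr hP c d γ a b σ lam hL u p hp
  have hPr : Pth H B D r univ (fun p => ρ (-p)) (fun p t u => ¬ S (-p) t (-u)) := by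
    have h := (hSHF M H B D r univ ρ S hP).2
    simpa using h
  have hLf := KND_flip hL
  have hLr := KND_rev hL
  have hLrf := KND_flip hLr
  have hp' : -p ∈ Icc (-d) (-c) := ⟨by linarith [hp.2], by linarith [hp.1]⟩
  constructor
  · rintro (⟨h1, h2, h3⟩ | ⟨h1, h2, h3⟩)
    · exact hKFM M H v e δ N hDat B D r ρ S hB hD hr hP c d γ a b σ lam hL u h1 h2 h3 p hp
    · -- backward maximum
      obtain ⟨k1, k2⟩ := hKFM M H v e δ N hDat B D r _ _ hB hD hr hPr (-d) (-c) _ b a _ _ hLrf (-u)
        (by linarith) (by linarith) (by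
          intro q hq
          have := h3 (-q) ⟨by linarith [hq.2], by linarith [hq.1]⟩
          simp only [neg_neg]
          linarith) (-p) hp'
      simp only [neg_neg, not_not] at k1 k2
      refine ⟨?_, ?_⟩
      · rw [← k2]
        congr 1
        funext t
        apply propext
        constructor
        · rintro ⟨h4, h5⟩
          exact ⟨h4, by linarith⟩
        · rintro ⟨h4, h5⟩
          exact ⟨h4, by linarith⟩
      · rw [← k1]
        congr 1
        funext t
        apply propext
        constructor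
        · rintro ⟨h4, h5⟩
          exact ⟨h4, by linarith⟩
        · rintro ⟨h4, h5⟩
          exact ⟨h4, by linarith⟩
  · rintro (⟨h1, h2, h3⟩ | ⟨h1, h2, h3⟩)
    · -- forward maximum
      obtain ⟨k1, k2⟩ := hKFM M H v e δ N hDat B D r ρ S hB hD hr hP c d _ b a _ _ hLf u h1 h2 (by
          intro q hq
          have := h3 q hq
          linarith) p hp
      refine ⟨?_, ?_⟩
      · rw [← k1]
        congr 1
        funext t
        apply propext
        constructor
        · rintro ⟨h4, h5⟩
          exact ⟨h4, by linarith⟩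
        · rintro ⟨h4, h5⟩
          exact ⟨h4, by linarith⟩
      · rw [← k2]
        congr 1
        funext t
        apply propext
        constructor
        · rintro ⟨h4, h5⟩
          exact ⟨h4, by linarith⟩
        · rintro ⟨h4, h5⟩
          exact ⟨h4, by linarith⟩
    · -- backward minimum
      obtain ⟨k1, k2⟩ := hKFM M H v e δ N hDat B D r _ _ hB hD hr hPr (-d) (-c) _ a b _ _ hLr (-u)
        (by linarith) (by linarith) (by
          intro q hq
          have := h3 (-q) ⟨by linarith [hq.2], by linarith [hq.1]⟩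
          simp only [neg_neg]
          linarith) (-p) hp'
      simp only [neg_neg, not_not] at k1 k2
      exact ⟨k2, k1⟩

end Pool.RY
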