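import Pool.Agent.Work.MP_36677d_ray.Interface

/-! # MP_36677d_ray: block LEAF (helper96) -/

set_option autoImplicit false

open Set Filter Topology

namespace Pool.RY

open Pool.TL94

/-- the inverse of an injective continuous function on `[0, 1]` -/
theorem LEAF_inv {M : Type} [MetricSpace M] {γ : ℝ → M} {a b : M} (h : ArcFn γ a b) :
    ∃ g : M → ℝ, (∀ y, g y ∈ Icc (0:ℝ) 1) ∧ (∀ y ∈ γ '' Icc 0 1, γ (g y) = y) ∧
      ContinuousOn g (γ '' Icc 0 1) := by
  classical
  let e : Icc (0:ℝ) 1 → M := fun x => γ x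
  have he : Continuous e := continuousOn_iff_continuous_domRestrict.1 h.cont
  have hi : Function.Injective e := by
    intro x y hxy
    exact Subtype.ext (h.inj x.2 y.2 hxy)
  have hce : IsClosedEmbedding e := he.isClosedEmbedding hi
  let φ := hce.toIsEmbedding.toHomeomorph
  have hr : ∀ y ∈ γ '' Icc 0 1, y ∈ range e := by
    rintro y ⟨x, hx, rfl⟩
    exact ⟨⟨x, hx⟩, rfl⟩
  refine ⟨fun y => if hy : y ∈ range e then (φ.symm ⟨y, hy⟩ : ℝ) else 0, ?_, ?_, ?_⟩
  · intro y
    by_cases hy : y ∈ range e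
    · simp only [hy, dif_pos]
      exact (φ.symm ⟨y, hy⟩).2
    · simp only [hy, dif_neg, not_false_iff]
      exact ⟨le_refl _, zero_le_one⟩
  · intro y hy
    have hy' := hr y hy
    simp only [hy', dif_pos]
    have h1 : φ (φ.symm ⟨y, hy'⟩) = ⟨y, hy'⟩ := φ.apply_symm_apply _
    have h2 : ((φ (φ.symm ⟨y, hy'⟩) : range e) : M) = y := by rw [h1]
    exact h2
  · rw [continuousOn_iff_continuous_domRestrict]
    have : (fun y : (γ '' Icc 0 1 : Set M) => (φ.symm ⟨y.1, hr y.1 y.2⟩ : ℝ)) =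
        (γ '' Icc 0 1).domRestrict (fun y => if hy : y ∈ range e then (φ.symm ⟨y, hy⟩ : ℝ) else 0) := by
      funext y
      have := hr y.1 y.2
      rw [domRestrict_apply, dif_pos this]
    rw [← this]
    exact continuous_subtype_val.comp (φ.symm.continuous.comp
      (Continuous.subtype_mk continuous_subtype_val _))

theorem p_LEAF (h1 : Stmt_INTP) : Stmt_LEAF := by
  intro M _ H hH B D r ρ S hB hD hr hP c d γ a b hγ hρ
  obtain ⟨g, hg1, hg2, hg3⟩ := LEAF_inv hγ
  have hρc : Continuous ρ := by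
    rw [Metric.continuous_iff]
    intro p ε hε
    refine ⟨D (ε / 2), hD _ (by linarith), fun q hq => ?_⟩
    have := hP.mod (ε / 2) (by linarith) q (mem_univ _) p (mem_univ _) (by
      rw [← Real.dist_eq]; exact hq.le)
    linarith
  have hH2 : ∀ p ∈ Icc c d, ∀ t ∈ Icc (0:ℝ) 1, H (ρ p) t ∈ γ '' Icc 0 1 := by
    intro p hp t ht
    obtain ⟨q, hq, hq2⟩ := (h1 M H B D r ρ S hB hD hr hP p t ht).1
    rw [← hq2]
    exact hρ q ⟨by linarith [hq.1, hp.1], by linarith [hq.2, hp.2]⟩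
  refine ⟨fun p => g (ρ p), fun p t => g (H (ρ p) t), ?_⟩
  refine ⟨hγ, fun p _ => hg1 _, ?_, fun p hp => (hg2 _ (hρ p hp)).symm, fun p _ t _ => hg1 _, ?_,
    fun p hp t ht => (hg2 _ (hH2 p hp t ht)).symm⟩
  · exact hg3.comp hρc.continuousOn hρ
  · have hc : Continuous (fun q : ℝ × ℝ => H (ρ q.1) q.2) :=
      hH.comp ((hρc.comp continuous_fst).prodMk continuous_snd)
    exact hg3.comp hc.continuousOn (fun q hq => hH2 q.1 hq.1 q.2 hq.2)

end Pool.RY
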