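import Pool.Agent.Work.MP_36677d_ray.Interface

/-! # Block LIM (helper84): ultrafilter limits of the class `Pth` -/

set_option autoImplicit false

open Set Filter Topology

namespace Pool.RY

open Pool.TL94

theorem p_LIM : Stmt_LIM := by
  intro M _ _ H hH B D r X ρ S hX hP U hU
  have hlim : ∀ p : ℝ, ∃ x : M, Tendsto (fun j => ρ j p) U (𝓝 x) := by
    intro p
    obtain ⟨x, -, hx⟩ := (isCompact_univ (X := M)).ultrafilter_le_nhds (U.map (fun j => ρ j p))
      (by simp)
    exact ⟨x, hx⟩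
  choose ρ' hρ' using hlim
  have hmem : ∀ p : ℝ, ∀ᶠ j in (U : Filter ℕ), p ∈ X j := by
    intro p
    have h1 : ∀ᶠ j in (U : Filter ℕ), Icc (-|p|) |p| ⊆ X j := hU (hX |p|)
    filter_upwards [h1] with j hj
    exact hj ⟨neg_abs_le p, le_abs_self p⟩
  have hdist : ∀ (p t u : ℝ), Tendsto (fun j => dist (H (ρ j p) t) (ρ j u)) U
      (𝓝 (dist (H (ρ' p) t) (ρ' u))) := by
    intro p t u
    have h1 : Tendsto (fun j => H (ρ j p) t) U (𝓝 (H (ρ' p) t)) := by
      have h2 : Continuous (fun x : M => H x t) := hH.comp (continuous_id.prodMk continuous_const)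
      exact (h2.tendsto (ρ' p)).comp (hρ' p)
    exact h1.dist (hρ' u)
  have hne : ∀ (p t u : ℝ), H (ρ' p) t ≠ ρ' u → ∀ᶠ j in (U : Filter ℕ), H (ρ j p) t ≠ ρ j u := by
    intro p t u h
    have h1 : 0 < dist (H (ρ' p) t) (ρ' u) := dist_pos.2 h
    filter_upwards [(hdist p t u).eventually (lt_mem_nhds h1)] with j hj
    exact dist_pos.1 hj
  refine ⟨ρ', fun p t u => ∀ᶠ j in (U : Filter ℕ), S j p t u, ⟨?_, ?_, ?_, ?_⟩, hρ'⟩
  · intro ε hε p _ p' _ hpp
    refine le_of_tendsto ((hρ' p).dist (hρ' p')) ?_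
    filter_upwards [hmem p, hmem p'] with j h1 h2
    exact (hP j).mod ε hε p h1 p' h2 hpp
  · intro c hc p _ p' _ u _ u' _ t ht t' ht' hcd hp htt huu
    apply eventually_congr
    filter_upwards [hmem p, hmem p', hmem u, hmem u', (hdist p t u).eventually (lt_mem_nhds hcd)]
      with j h1 h2 h3 h4 h5
    exact (hP j).loc c hc p h1 p' h2 u h3 u' h4 t ht t' ht' h5 hp htt huu
  · intro p _ u _ t ht h hpu hS
    have h1 : ∀ᶠ _j in (U : Filter ℕ), False := by
      filter_upwards [hmem p, hmem u, hne p t u h, hS] with j h1 h2 h3 h4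
      exact (hP j).up p h1 u h2 t ht h3 hpu h4
    exact (eventually_false_iff_eq_bot.1 h1 ▸ (inferInstance : (U : Filter ℕ).NeBot)).ne rfl
  · intro p _ u _ t ht h hpu
    filter_upwards [hmem p, hmem u, hne p t u h] with j h1 h2 h3
    exact (hP j).dn p h1 u h2 t ht h3 hpu

end Pool.RY
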