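import Pool.Agent.Work.MP_36677d_ray.Interface

/-! # Block LOOP: a loop of the path is covered by its ends -/

set_option autoImplicit false

open Set Filter Topology

namespace Pool.RY

open Pool.TL94

theorem LOOP_cont {M : Type} [MetricSpace M] {H : M → ℝ → M} {B : ℝ} {D r : ℝ → ℝ} {ρ : ℝ → M}
    {S : ℝ → ℝ → ℝ → Prop} (hD : Pos D) (h : Pth H B D r univ ρ S) : Continuous ρ := by
  rw [Metric.continuous_iff]
  intro b ε hε
  refine ⟨D (ε / 2), hD _ (by positivity), fun a hab => ?_⟩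
  have h1 := h.mod (ε / 2) (by positivity) a (mem_univ _) b (mem_univ _) (by
    rw [← Real.dist_eq]; exact hab.le)
  linarith

theorem p_LOOP (h1 : Stmt_LEAF) (h2 : Stmt_BK) : Stmt_LOOP := by
  intro M _ H v e δ N hdat hlin B D r ρ S hB hD hr hP a b hab hρ p hp
  have hcont := LOOP_cont hD hP
  rcases hlin ρ (a - B) (b + B) (by linarith) hcont.continuousOn with ⟨x, hx⟩ | ⟨γ, A, A', hγ, hmem⟩
  · left
    refine ⟨a, ⟨le_rfl, by linarith⟩, ?_⟩
    rw [hx a ⟨by linarith, by linarith⟩, hx p ⟨by linarith [hp.1], by linarith [hp.2]⟩]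
  obtain ⟨σ, lam, hL⟩ := h1 M H hdat.cH B D r ρ S hB hD hr hP a b γ A A' hγ hmem
  have hbk := h2 M H v e δ N hdat B D r ρ S hB hD hr hP a b γ A A' σ lam hL
  have hσc : ContinuousOn σ (Icc a b) := hL.sC.mono (Icc_subset_Icc (by linarith) (by linarith))
  have hsub : ∀ q ∈ Icc a b, q ∈ Icc (a - B) (b + B) := fun q hq =>
    ⟨by linarith [hq.1], by linarith [hq.2]⟩
  have hne : (Icc a b).Nonempty := ⟨a, le_rfl, by linarith⟩
  have hσab : σ a = σ b := by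
    refine hγ.inj (hL.sI a (hsub a ⟨le_rfl, by linarith⟩)) (hL.sI b (hsub b ⟨by linarith, le_rfl⟩)) ?_
    rw [← hL.sE a (hsub a ⟨le_rfl, by linarith⟩), ← hL.sE b (hsub b ⟨by linarith, le_rfl⟩), hρ]
  obtain ⟨x, hx, hxm⟩ := isCompact_Icc.exists_isMaxOn hne hσc
  obtain ⟨y, hy, hym⟩ := isCompact_Icc.exists_isMinOn hne hσc
  have hxm' : ∀ q ∈ Icc a b, σ q ≤ σ x := fun q hq => hxm hq
  have hym' : ∀ q ∈ Icc a b, σ y ≤ σ q := fun q hq => hym hq
  have x2 : x + B ≤ b → Kind2 B a b σ x := fun h => Or.inl ⟨hx.1, h, fun q hq =>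
    hxm' q ⟨hx.1.trans hq.1, hq.2.trans h⟩⟩
  have x1 : a ≤ x - B → Kind1 B a b σ x := fun h => Or.inr ⟨h, hx.2, fun q hq =>
    hxm' q ⟨h.trans hq.1, hq.2.trans hx.2⟩⟩
  have y1 : y + B ≤ b → Kind1 B a b σ y := fun h => Or.inl ⟨hy.1, h, fun q hq =>
    hym' q ⟨hy.1.trans hq.1, hq.2.trans h⟩⟩
  have y2 : a ≤ y - B → Kind2 B a b σ y := fun h => Or.inr ⟨h, hy.2, fun q hq =>
    hym' q ⟨h.trans hq.1, hq.2.trans hy.2⟩⟩
  have key : ∀ z ∈ Icc a b, σ z = σ p → z ∈ Icc a (a + B) ∪ Icc (b - B) b →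
      ρ p ∈ ρ '' Icc a (a + B) ∪ ρ '' Icc (b - B) b := by
    intro z hz hzp hzz
    have e : ρ z = ρ p := by rw [hL.sE z (hsub z hz), hL.sE p (hsub p hp), hzp]
    rcases hzz with h | h
    · exact Or.inl ⟨z, h, e⟩
    · exact Or.inr ⟨z, h, e⟩
  have ivt : ∀ s t : ℝ, a ≤ s → s ≤ t → t ≤ b → σ p ∈ uIcc (σ s) (σ t) → ∃ z ∈ Icc s t, σ z = σ p := by
    intro s t hs hst ht hpp
    have h3 := intermediate_value_uIcc (a := s) (b := t) (f := σ) (by
      rw [uIcc_of_le hst]; exact hσc.mono (Icc_subset_Icc hs ht)) hpp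
    rw [uIcc_of_le hst] at h3
    exact h3
  have hpx := hxm' p hp
  have hpy := hym' p hp
  by_cases hxB : x + B ≤ b
  · have hy' : b - B < y := by
      by_contra h
      exact hbk y x (y1 (by linarith)) (x2 hxB)
    have hx' : x - B < a := by
      by_contra h
      exact hbk x x (x1 (by linarith)) (x2 hxB)
    rcases le_total (σ a) (σ p) with h | h
    · obtain ⟨z, hz, hzp⟩ := ivt a x le_rfl hx.1 hx.2 (by rw [uIcc_of_le (h.trans hpx)]; exact ⟨h, hpx⟩)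
      exact key z ⟨hz.1, hz.2.trans hx.2⟩ hzp (Or.inl ⟨hz.1, by linarith [hz.2]⟩)
    · rw [hσab] at h
      obtain ⟨z, hz, hzp⟩ := ivt y b hy.1 hy.2 le_rfl (by
        rw [uIcc_of_le (hpy.trans h)]; exact ⟨hpy, h⟩)
      exact key z ⟨hy.1.trans hz.1, hz.2⟩ hzp (Or.inr ⟨by linarith [hz.1], hz.2⟩)
  · have hx' : a ≤ x - B := by linarith
    have hy' : y - B < a := by
      by_contra h
      exact hbk x y (x1 hx') (y2 (by linarith))
    rcases le_total (σ a) (σ p) with h | h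
    · rw [hσab] at h
      obtain ⟨z, hz, hzp⟩ := ivt x b hx.1 hx.2 le_rfl (by
        rw [uIcc_of_ge (h.trans hpx)]; exact ⟨h, hpx⟩)
      exact key z ⟨hx.1.trans hz.1, hz.2⟩ hzp (Or.inr ⟨by linarith [hz.1], hz.2⟩)
    · obtain ⟨z, hz, hzp⟩ := ivt a y le_rfl hy.1 hy.2 (by
        rw [uIcc_of_ge (hpy.trans h)]; exact ⟨hpy, h⟩)
      exact key z ⟨hz.1, hz.2.trans hy.2⟩ hzp (Or.inl ⟨hz.1, by linarith [hz.2]⟩)

end Pool.RY
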