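import Pool.Agent.Work.MP_36677d_ray.Interface

/-! # Block MNR (helper65): the main theorem for discretised data -/

set_option autoImplicit false

open Set Filter Topology

namespace Pool.RY

open Pool.TL94

theorem MNR_joined {M : Type} [MetricSpace M] {H : M → ℝ → M}
    (hH : Continuous (fun q : M × ℝ => H q.1 q.2)) (x : M) (t t' : ℝ) :
    Joined (H x t) (H x t') :=
  ⟨{ toFun := fun s => H x (t + (s : ℝ) * (t' - t))
     continuous_toFun := by
       have h1 : Continuous fun s : unitInterval => (x, t + (s : ℝ) * (t' - t)) := by fun_prop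
       exact hH.comp h1
     source' := by simp
     target' := by simp }⟩

theorem p_MNR (hRAYQ : Stmt_RAYQ) (hRPAR : Stmt_RPAR) (hRDD : Stmt_RDD) (hSTP : Stmt_STP)
    (hPRM : Stmt_PRM) (hBAS : Stmt_BAS) (hNOB : Stmt_NOB) : Stmt_MNR := by
  intro M _ _ H v e δ N D hT hL p hfix
  have hHU : HU M := hT.hu
  have hJ : ∀ x, Joined p x → ∀ t ∈ Icc (0:ℝ) 1, Joined p (H x t) := by
    intro x hx t _
    obtain ⟨t0, -, ht0⟩ := hfix x hx
    have h1 := MNR_joined D.cH x t0 t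
    rw [ht0] at h1
    exact hx.trans h1
  obtain ⟨z, hz1, hz2, hz3, hz4⟩ := hRAYQ M H v e δ N D hHU p hJ
  obtain ⟨r, hr⟩ := hRPAR M H v e N hHU p z hz1 hz2 hz3 hz4
  obtain ⟨μ, hμ⟩ := hRDD M H v e δ N D hHU hL p r hr hfix
  obtain ⟨s, hs⟩ := hSTP M H δ r μ hμ
  obtain ⟨D', P, hD', hP⟩ := hPRM M H D.cH δ r μ s hμ hs
  obtain ⟨B, r0, hB, hr0, hPth⟩ := hBAS M H D.cH δ r μ s D' P D.δ_pos hD' hμ hs hP
  exact hNOB M H v e δ N D hT hL B D' r0 hB hD' hr0 0 _ _ hPth

end Pool.RY
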