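import Pool.Agent.Work.MP_36677d_ray.Interface

/-! # MP_36677d_gt, block MUC: the coordinate of `H (r s) t` on the ray is continuous (helper94) -/

set_option autoImplicit false

open Set Filter Topology

namespace Pool.RY

open Pool.TL94

theorem MUC_joined {M : Type} [MetricSpace M] {r : ℝ → M} {p : M} (hr : ContinuousOn r (Ici 0))
    (h0 : r 0 = p) {s : ℝ} (hs : 0 ≤ s) : Joined p (r s) := by
  have h1 : ContinuousOn (fun u => r (s * u)) unitInterval := by
    refine hr.comp (by fun_prop) ?_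
    intro u hu
    exact mul_nonneg hs hu.1
  exact ⟨Path.ofLine h1 (by rw [mul_zero]; exact h0) (by rw [mul_one])⟩

/-- points between the two values of `kap` lie in every continuum through the two points -/
theorem MUC_key {M : Type} [MetricSpace M] {r : ℝ → M} {p : M} {kap : M → ℝ}
    (hk : ∀ w, Joined p w → 0 ≤ kap w ∧ (∀ s : ℝ, 0 ≤ s → (r s ∈ seg p w ↔ s ≤ kap w)) ∧
    (0 < kap w → r (kap w) = w)) {w w' : M} (hw : Joined p w) (hw' : Joined p w') {K : Set M}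
    (hK : Cont K) (h1 : w ∈ K) (h2 : w' ∈ K) {s : ℝ} (hs : kap w < s) (hs' : s ≤ kap w') :
    r s ∈ K := by
  by_contra hn
  have h0 : 0 ≤ s := (hk w hw).1.trans hs.le
  have h3 := seg_iff (a := p) hK h1 h2 hn
  rw [(hk w hw).2.1 s h0, (hk w' hw').2.1 s h0] at h3
  exact absurd (h3.2 hs') (not_le.2 hs)

theorem p_MUC : Stmt_MUC := by
  intro M _ _ H v e N hH hHU p r hr hj kap hk
  obtain ⟨G, hG⟩ : ∃ G : ℝ × ℝ → M, ∀ q, G q = H (r q.1) q.2 := ⟨_, fun _ => rfl⟩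
  have hGc : ContinuousOn G (Ici 0 ×ˢ Icc (0:ℝ) 1) := by
    have h1 : ContinuousOn (fun q : ℝ × ℝ => ((r q.1, q.2) : M × ℝ)) (Ici 0 ×ˢ Icc (0:ℝ) 1) :=
      (hr.cont.comp continuousOn_fst (fun q hq => hq.1)).prodMk continuousOn_snd
    have h2 := hH.comp_continuousOn h1
    exact h2.congr (fun q _ => hG q)
  have hJ : ∀ q ∈ (Ici 0 ×ˢ Icc (0:ℝ) 1 : Set (ℝ × ℝ)), Joined p (G q) := by
    intro q hq
    rw [hG]
    exact hj _ (MUC_joined hr.cont hr.zero hq.1) _ hq.2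
  have hgoal : ContinuousOn (fun q => kap (G q)) (Ici 0 ×ˢ Icc (0:ℝ) 1) := by
    rw [Metric.continuousOn_iff]
    intro q0 hq0 ε hε
    have hw0 := hJ q0 hq0
    obtain ⟨k0, hk0⟩ : ∃ k0, k0 = kap (G q0) := ⟨_, rfl⟩
    have hk0' : 0 ≤ k0 := hk0 ▸ (hk _ hw0).1
    have hη1 : 0 < dist (r (k0 + ε / 2)) (r (k0 + ε)) := dist_pos.2 (fun h => by
      have := hr.inj (show k0 + ε / 2 ∈ Ici (0:ℝ) from mem_Ici.2 (by linarith))
        (show k0 + ε ∈ Ici (0:ℝ) from mem_Ici.2 (by linarith)) h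
      linarith)
    obtain ⟨η2, hη2, hη2'⟩ : ∃ η2 : ℝ, 0 < η2 ∧ (ε ≤ k0 → η2 ≤ dist (r (k0 - ε / 2)) (r k0)) := by
      by_cases h : ε ≤ k0
      · refine ⟨dist (r (k0 - ε / 2)) (r k0), dist_pos.2 (fun h2 => ?_), fun _ => le_rfl⟩
        have := hr.inj (show k0 - ε / 2 ∈ Ici (0:ℝ) from mem_Ici.2 (by linarith))
          (show k0 ∈ Ici (0:ℝ) from hk0') h2
        linarith
      · exact ⟨1, one_pos, fun h' => absurd h' h⟩
    obtain ⟨η, hη, hη1', hη2''⟩ : ∃ η : ℝ, 0 < η ∧ η ≤ dist (r (k0 + ε / 2)) (r (k0 + ε)) ∧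
        η ≤ η2 := ⟨min _ _, lt_min hη1 hη2, min_le_left _ _, min_le_right _ _⟩
    obtain ⟨ρ, hρ, hρ'⟩ := Metric.continuousOn_iff.1 hGc q0 hq0 (η / 2) (by positivity)
    refine ⟨ρ, hρ, fun q hq hd => ?_⟩
    -- the continuum
    obtain ⟨L, hL⟩ : ∃ L : Set (ℝ × ℝ), L = segment ℝ q0 q := ⟨_, rfl⟩
    have hLS : L ⊆ Ici 0 ×ˢ Icc (0:ℝ) 1 := by
      rw [hL]
      exact ((convex_Ici (𝕜 := ℝ) (0:ℝ)).prod (convex_Icc (0:ℝ) 1)).segment_subset hq0 hq
    have hLb : L ⊆ Metric.ball q0 ρ := by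
      rw [hL]
      exact (convex_ball q0 ρ).segment_subset (Metric.mem_ball_self hρ) (Metric.mem_ball.2 hd)
    have hLc : IsCompact L := by
      rw [hL, segment_eq_image]
      exact isCompact_Icc.image (by fun_prop)
    have hLp : IsPreconnected L := by
      rw [hL]
      exact (convex_segment q0 q).isPreconnected
    have hK : Cont (G '' L) := ⟨hLc.image_of_continuousOn (hGc.mono hLS), hLp.image _ (hGc.mono hLS)⟩
    have hK0 : G q0 ∈ G '' L := ⟨q0, hL ▸ left_mem_segment ℝ q0 q, rfl⟩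
    have hKq : G q ∈ G '' L := ⟨q, hL ▸ right_mem_segment ℝ q0 q, rfl⟩
    have hsm : ∀ x ∈ G '' L, ∀ y ∈ G '' L, dist x y < η := by
      rintro _ ⟨a, ha, rfl⟩ _ ⟨b, hb, rfl⟩
      have h1 := hρ' a (hLS ha) (Metric.mem_ball.1 (hLb ha))
      have h2 := hρ' b (hLS hb) (Metric.mem_ball.1 (hLb hb))
      have h3 := dist_triangle_right (G a) (G b) (G q0)
      linarith
    rw [Real.dist_eq, ← hk0, abs_lt]
    constructor
    · by_contra hcon
      have h1 : kap (G q) ≤ k0 - ε := by linarith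
      have h2 := (hk _ (hJ q hq)).1
      have h3 := MUC_key hk (hJ q hq) hw0 hK hKq hK0 (s := k0 - ε / 2) (by linarith) (by linarith)
      have h4 := MUC_key hk (hJ q hq) hw0 hK hKq hK0 (s := k0) (by linarith) (by linarith)
      have h5 := hsm _ h3 _ h4
      have h6 := hη2' (by linarith)
      linarith
    · by_contra hcon
      have h1 : k0 + ε ≤ kap (G q) := by linarith
      have h3 := MUC_key hk hw0 (hJ q hq) hK hK0 hKq (s := k0 + ε / 2) (by linarith) (by linarith)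
      have h4 := MUC_key hk hw0 (hJ q hq) hK hK0 hKq (s := k0 + ε) (by linarith) (by linarith)
      have h5 := hsm _ h3 _ h4
      linarith
  exact hgoal.congr (fun q _ => congrArg kap (hG q).symm)

end Pool.RY
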