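import Pool.Agent.Work.MP_36677d_ray.Interface

/-! # Block NOB (helper20) -/

set_option autoImplicit false

open Set Filter Topology

namespace Pool.RY

open Pool.TL94

theorem p_NOB (h1 : Stmt_EXA) (h2 : Stmt_NOL) : Stmt_NOB := by
  intro M _ _ H v e δ N D0 hT hL B D r hB hD hr T0 ρ0 S0 hP
  have h := fun n : ℕ => h1 M H D0.cH hT B D r hB hD hr T0 ρ0 S0 hP (n + 1) (by omega)
  choose ρ S b hP' hb hρ using h
  refine h2 M H v e δ N D0 hL B D r hB hD hr ρ S (fun _ => 0) b hP' (fun n => ?_) hρ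
  have := hb n
  push_cast at this
  linarith

end Pool.RY
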