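import Pool.Agent.Work.MP_36677d_ray.Interface

/-! # Block NOL: no long loops -/

set_option autoImplicit false

open Set Filter Topology

namespace Pool.RY

open Pool.TL94

/-- Limits along moving parameters. -/
theorem NOL_lim {M : Type} [MetricSpace M] {H : M → ℝ → M} {B : ℝ} {D r : ℝ → ℝ} (hD : Pos D)
    {ρ : ℕ → ℝ → M} {S : ℕ → ℝ → ℝ → ℝ → Prop} (hP : ∀ n, Pth H B D r univ (ρ n) (S n))
    (U : Ultrafilter ℕ) (c : ℕ → ℝ) (ρ' : ℝ → M)
    (h : ∀ p, Tendsto (fun j => ρ j (p + c j)) U (𝓝 (ρ' p))) (x : ℕ → ℝ) (x₀ : ℝ)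
    (hx : Tendsto x U (𝓝 x₀)) : Tendsto (fun j => ρ j (x j + c j)) U (𝓝 (ρ' x₀)) := by
  rw [Metric.tendsto_nhds]
  intro ε hε
  have h1 := (Metric.tendsto_nhds.1 (h x₀)) (ε / 2) (by positivity)
  have h2 := (Metric.tendsto_nhds.1 hx) (D (ε / 2)) (hD _ (by positivity))
  filter_upwards [h1, h2] with j h1 h2
  have h3 := (hP j).mod (ε / 2) (by positivity) (x j + c j) (mem_univ _) (x₀ + c j) (mem_univ _)
    (by rw [show x j + c j - (x₀ + c j) = x j - x₀ by ring, ← Real.dist_eq]; exact h2.le)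
  calc dist (ρ j (x j + c j)) (ρ' x₀) ≤ dist (ρ j (x j + c j)) (ρ j (x₀ + c j)) +
        dist (ρ j (x₀ + c j)) (ρ' x₀) := dist_triangle _ _ _
    _ < ε := by linarith

/-- Members of the class are continuous. -/
theorem NOL_cont {M : Type} [MetricSpace M] {H : M → ℝ → M} {B : ℝ} {D r : ℝ → ℝ} (hD : Pos D)
    {ρ : ℝ → M} {S : ℝ → ℝ → ℝ → Prop} (hP : Pth H B D r univ ρ S) : Continuous ρ := by
  rw [Metric.continuous_iff]
  intro p ε hε
  refine ⟨D (ε / 2), hD _ (by positivity), fun q hq => ?_⟩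
  have := hP.mod (ε / 2) (by positivity) q (mem_univ _) p (mem_univ _)
    (by rw [← Real.dist_eq]; exact hq.le)
  linarith

/-- If the points of the third limit are eventually on a compact piece near `c n`, they are on the
limit of this piece. -/
theorem NOL_piece {M : Type} [MetricSpace M] {H : M → ℝ → M} {B : ℝ} {D r : ℝ → ℝ} (hD : Pos D)
    {ρ : ℕ → ℝ → M} {S : ℕ → ℝ → ℝ → ℝ → Prop} (hP : ∀ n, Pth H B D r univ (ρ n) (S n))
    (U : Ultrafilter ℕ) (c : ℕ → ℝ) (ρ' : ℝ → M)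
    (h : ∀ p, Tendsto (fun j => ρ j (p + c j)) U (𝓝 (ρ' p))) (lo hi : ℝ) (hlh : lo ≤ hi)
    (y : ℕ → M) (y₀ : M) (hy : Tendsto y U (𝓝 y₀))
    (he : ∀ᶠ n in U, ∃ x ∈ Icc lo hi, y n = ρ n (x + c n)) : y₀ ∈ ρ' '' Icc lo hi := by
  classical
  let x : ℕ → ℝ := fun n => if hn : ∃ x ∈ Icc lo hi, y n = ρ n (x + c n) then hn.choose else lo
  have hxI : ∀ n, x n ∈ Icc lo hi := by
    intro n
    by_cases hn : ∃ x ∈ Icc lo hi, y n = ρ n (x + c n)
    · simp only [x, dif_pos hn]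
      exact hn.choose_spec.1
    · simp only [x, dif_neg hn]
      exact ⟨le_refl _, hlh⟩
  obtain ⟨x₀, hx₀, hx₀'⟩ := (isCompact_Icc (a := lo) (b := hi)).ultrafilter_le_nhds (U.map x)
    (by
      rw [Ultrafilter.coe_map, le_principal_iff, mem_map]
      exact Filter.mem_of_superset univ_mem fun n _ => hxI n)
  have hx : Tendsto x U (𝓝 x₀) := by
    rw [Ultrafilter.coe_map] at hx₀'
    exact hx₀'
  have h1 := NOL_lim hD hP U c ρ' h x x₀ hx
  have h2 : Tendsto y U (𝓝 (ρ' x₀)) := by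
    refine h1.congr' ?_
    filter_upwards [he] with n hn
    have h3 : x n = hn.choose := dif_pos hn
    rw [h3]
    exact hn.choose_spec.2.symm
  exact ⟨x₀, hx₀, tendsto_nhds_unique h2 hy⟩

theorem p_NOL (h1 : Stmt_LIM) (h2 : Stmt_SHF) (h3 : Stmt_LOOP) (h4 : Stmt_ARCB) : Stmt_NOL := by
  intro M _ _ H v e δ N hDat hLin B D r hB hD hr ρ S a b hP hab hloop
  let U : Ultrafilter ℕ := hyperfilter ℕ
  have hU : (U : Filter ℕ) ≤ atTop := Nat.hyperfilter_le_atTop
  -- limits of the translates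
  have hlim : ∀ c : ℕ → ℝ, ∃ ρ' S', Pth H B D r univ ρ' S' ∧
      ∀ p, Tendsto (fun j => ρ j (p + c j)) U (𝓝 (ρ' p)) := by
    intro c
    refine h1 M H hDat.cH B D r (fun _ => univ) (fun j p => ρ j (p + c j))
      (fun j p t u => S j (p + c j) t (u + c j)) (fun L => Eventually.of_forall fun j =>
        subset_univ _) (fun j => ?_) U hU
    have h5 := (h2 M H B D r univ (ρ j) (S j) (hP j)).1 (c j)
    have h6 : {p : ℝ | p + c j ∈ (univ : Set ℝ)} = univ := by ext p; simp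
    rw [h6] at h5
    exact h5
  obtain ⟨ρA, SA, hA, hAl⟩ := hlim a
  obtain ⟨ρB, SB, hBp, hBl⟩ := hlim b
  obtain ⟨ρM, SM, hM, hMl⟩ := hlim fun n => (a n + b n) / 2
  have h0 : ρA 0 = ρB 0 := by
    have h5 := hAl 0
    have h6 := hBl 0
    refine tendsto_nhds_unique h5 (h6.congr fun n => ?_)
    rw [zero_add, zero_add, hloop]
  -- the middle limit lies on the two ends
  have hmid : ∀ p, ρM p ∈ ρA '' Icc 0 B ∪ ρB '' Icc (-B) 0 := by
    intro p
    have hev : ∀ᶠ n in U, (∃ x ∈ Icc 0 B, ρ n (p + (a n + b n) / 2) = ρ n (x + a n)) ∨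
        ∃ x ∈ Icc (-B) 0, ρ n (p + (a n + b n) / 2) = ρ n (x + b n) := by
      refine hU ?_
      obtain ⟨n₀, hn₀⟩ := exists_nat_ge (2 * B + 2 * |p|)
      filter_upwards [eventually_ge_atTop n₀] with n hn
      have hn' : (n₀ : ℝ) ≤ n := by exact_mod_cast hn
      have e1 := abs_nonneg p
      have e2 := le_abs_self p
      have e3 := neg_abs_le p
      have e4 := hab n
      have h5 := h3 M H v e δ N hDat hLin B D r (ρ n) (S n) hB hD hr (hP n) (a n) (b n)
        (by linarith) (hloop n) (p + (a n + b n) / 2) ⟨by linarith, by linarith⟩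
      rcases h5 with ⟨x, hx, hxe⟩ | ⟨x, hx, hxe⟩
      · left
        refine ⟨x - a n, ⟨by linarith [hx.1], by linarith [hx.2]⟩, ?_⟩
        rw [sub_add_cancel, hxe]
      · right
        refine ⟨x - b n, ⟨by linarith [hx.1], by linarith [hx.2]⟩, ?_⟩
        rw [sub_add_cancel, hxe]
    rcases Ultrafilter.eventually_or.1 hev with hev | hev
    · left
      exact NOL_piece hD hP U a ρA hAl 0 B hB.le _ _ (hMl p) hev
    · right
      exact NOL_piece hD hP U b ρB hBl (-B) 0 (by linarith) _ _ (hMl p) hev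
  -- the path through both ends
  let ξ : ℝ → M := fun u => if u ≤ 0 then ρB u else ρA u
  have hξ : Continuous ξ := Continuous.if_le (NOL_cont hD hBp) (NOL_cont hD hA) continuous_id
    continuous_const (by intro u hu; rw [hu, h0])
  have hξM : ∀ p, ρM p ∈ ξ '' Icc (-B) B := by
    intro p
    rcases hmid p with ⟨x, hx, hxe⟩ | ⟨x, hx, hxe⟩
    · refine ⟨x, ⟨by linarith [hx.1], hx.2⟩, ?_⟩
      by_cases hx0 : x ≤ 0
      · have hx1 : x = 0 := le_antisymm hx0 hx.1
        simp only [ξ, if_pos hx0]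
        rw [← hxe, hx1, h0]
      · simp only [ξ, if_neg hx0]
        exact hxe
    · refine ⟨x, ⟨hx.1, by linarith [hx.2]⟩, ?_⟩
      simp only [ξ, if_pos hx.2]
      exact hxe
  refine h4 M H v e δ N hDat B D r ρM SM hB hD hr hM ?_
  rcases hLin ξ (-B) B (by linarith) hξ.continuousOn with ⟨x, hx⟩ | ⟨γ, a', b', hγ, hx⟩
  · left
    refine ⟨x, fun p => ?_⟩
    obtain ⟨u, hu, hue⟩ := hξM p
    rw [← hue, hx u hu]
  · right
    refine ⟨γ, a', b', hγ, fun p => ?_⟩
    obtain ⟨u, hu, hue⟩ := hξM p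
    rw [← hue]
    exact hx u hu

end Pool.RY
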