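import Pool.Agent.Work.MP_36677d_ray.Interface

/-! # Block PRM: the monotone parametrisation -/

set_option autoImplicit false

open Set Filter Topology

namespace Pool.RY

open Pool.TL94

theorem p_PRM (hRMX : Stmt_RMX) : Stmt_PRM := by
  intro M _ _ H hH δ r μ s hR hS
  -- modulus of continuity of `H` in the second variable
  have hU : ∀ ε : ℝ, 0 < ε → ∃ η : ℝ, 0 < η ∧ ∀ x : M, ∀ t ∈ Icc (0:ℝ) 1, ∀ t' ∈ Icc (0:ℝ) 1,
      |t - t'| ≤ η → dist (H x t) (H x t') ≤ ε := by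
    intro ε hε
    have hK : IsCompact ((univ : Set M) ×ˢ Icc (0:ℝ) 1) := isCompact_univ.prod isCompact_Icc
    have huc := hK.uniformContinuousOn_of_continuous hH.continuousOn
    rw [Metric.uniformContinuousOn_iff] at huc
    obtain ⟨η, hη, hη2⟩ := huc ε hε
    refine ⟨η / 2, by linarith, fun x t ht t' ht' htt => ?_⟩
    have h1 := hη2 (x, t) ⟨mem_univ _, ht⟩ (x, t') ⟨mem_univ _, ht'⟩ (by
      rw [Prod.dist_eq, dist_self, Real.dist_eq]
      refine lt_of_le_of_lt (max_le (abs_nonneg _) le_rfl) ?_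
      linarith)
    exact h1.le
  have hs1 : ∀ j, 1 ≤ s j := by
    intro j
    induction j with
    | zero => rw [hS.s0]
    | succ j ih => exact ih.trans (hS.lt j).le
  have hsm : StrictMono s := strictMono_nat_of_lt_succ hS.lt
  -- the pieces
  have hpc : ∀ j : ℕ, ∃ (m : ℝ → ℝ) (x t1 t2 : ℝ), ContinuousOn m (Icc 0 1) ∧ MonotoneOn m (Icc 0 1) ∧
      m 0 = s j ∧ m 1 = s (j + 1) ∧ 0 ≤ x ∧ t1 ∈ Icc (0:ℝ) 1 ∧ t2 ∈ Icc (0:ℝ) 1 ∧
      ∀ w ∈ Icc (0:ℝ) 1, ∀ w' ∈ Icc (0:ℝ) 1, w < w' → m w < m w' →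
      ∃ w1 ∈ Icc w w', ∃ w2 ∈ Icc w w', m w = μ x (t1 + w1 * (t2 - t1)) ∧
        m w' = μ x (t1 + w2 * (t2 - t1)) := by
    intro j
    obtain ⟨x, hx0, hxs, t2, ht2, hμ⟩ := hS.at' j
    obtain ⟨t1, ht1, hμ1⟩ := hR.m4 x hx0
    have hseg : ∀ w ∈ Icc (0:ℝ) 1, t1 + w * (t2 - t1) ∈ Icc (0:ℝ) 1 := by
      intro w hw
      constructor
      · nlinarith [ht1.1, ht2.1, hw.1, hw.2, mul_nonneg hw.1 ht2.1,
          mul_nonneg (sub_nonneg.2 hw.2) ht1.1]
      · nlinarith [ht1.2, ht2.2, hw.1, hw.2, mul_nonneg hw.1 (sub_nonneg.2 ht2.2),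
          mul_nonneg (sub_nonneg.2 hw.2) (sub_nonneg.2 ht1.2)]
    have hcont : ContinuousOn (fun w => μ x (t1 + w * (t2 - t1))) (Icc 0 1) := by
      have h1 : ContinuousOn (fun w : ℝ => ((x, t1 + w * (t2 - t1)) : ℝ × ℝ)) (Icc 0 1) := by
        refine Continuous.continuousOn ?_
        fun_prop
      refine hR.mC.comp h1 ?_
      intro w hw
      exact ⟨hx0, hseg w hw⟩
    obtain ⟨m, c1, c2, c3, c4, c5⟩ := hRMX (fun w => μ x (t1 + w * (t2 - t1))) (s j) (s (j + 1))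
      hcont (hS.lt j) (by
        show μ x (t1 + 0 * (t2 - t1)) ≤ s j
        rw [zero_mul, add_zero, hμ1]
        exact hxs) (by
        show μ x (t1 + 1 * (t2 - t1)) = s (j + 1)
        rw [one_mul, add_sub_cancel, hμ]) (by
        intro w hw
        exact hS.mx j x hx0 hxs _ (hseg w hw))
    exact ⟨m, x, t1, t2, c1, c2, c3, c4, hx0, ht1, ht2, c5⟩
  choose m x t1 t2 c1 c2 c3 c4 cx ct1 ct2 c5 using hpc
  have hseg : ∀ j, ∀ w ∈ Icc (0:ℝ) 1, t1 j + w * (t2 j - t1 j) ∈ Icc (0:ℝ) 1 := by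
    intro j w hw
    have ht1 := ct1 j
    have ht2 := ct2 j
    constructor
    · nlinarith [ht1.1, ht2.1, hw.1, hw.2, mul_nonneg hw.1 ht2.1,
        mul_nonneg (sub_nonneg.2 hw.2) ht1.1]
    · nlinarith [ht1.2, ht2.2, hw.1, hw.2, mul_nonneg hw.1 (sub_nonneg.2 ht2.2),
        mul_nonneg (sub_nonneg.2 hw.2) (sub_nonneg.2 ht1.2)]
  set P : ℝ → ℝ := fun p => m ⌊p⌋₊ (p - ⌊p⌋₊) with hP
  have hPj : ∀ j : ℕ, ∀ p ∈ Icc (j:ℝ) (j + 1), P p = m j (p - j) := by
    intro j p hp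
    rcases eq_or_lt_of_le hp.2 with h | h
    · have hf : ⌊(j : ℝ) + 1⌋₊ = j + 1 := by
        have : ((j : ℝ) + 1) = ((j + 1 : ℕ) : ℝ) := by push_cast; ring
        rw [this, Nat.floor_natCast]
      simp only [hP, h, hf]
      push_cast
      rw [sub_self, c3, add_sub_cancel_left, c4]
    · have hf : ⌊p⌋₊ = j := by
        rw [Nat.floor_eq_iff ((Nat.cast_nonneg j).trans hp.1)]
        exact ⟨hp.1, h⟩
      simp only [hP, hf]
  have hloc : ∀ p : ℝ, 0 ≤ p → p ∈ Icc ((⌊p⌋₊ : ℕ) : ℝ) (⌊p⌋₊ + 1) := by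
    intro p hp
    exact ⟨Nat.floor_le hp, (Nat.lt_floor_add_one p).le⟩
  have hbd : ∀ j : ℕ, ∀ p ∈ Icc (j:ℝ) (j + 1), s j ≤ P p ∧ P p ≤ s (j + 1) := by
    intro j p hp
    have hw : p - j ∈ Icc (0:ℝ) 1 := ⟨by linarith [hp.1], by linarith [hp.2]⟩
    rw [hPj j p hp, ← c3 j, ← c4 j]
    exact ⟨c2 j ⟨le_rfl, zero_le_one⟩ hw hw.1, c2 j hw ⟨zero_le_one, le_rfl⟩ hw.2⟩
  have hPint : ∀ j : ℕ, P (j : ℝ) = s j := by
    intro j
    rw [hPj j j ⟨le_rfl, by linarith⟩, sub_self, c3]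
  -- distance on one piece
  have hdist : ∀ ε η : ℝ, 0 ≤ ε → (∀ x : M, ∀ t ∈ Icc (0:ℝ) 1, ∀ t' ∈ Icc (0:ℝ) 1,
      |t - t'| ≤ η → dist (H x t) (H x t') ≤ ε) → ∀ j : ℕ, ∀ p ∈ Icc (j:ℝ) (j + 1),
      ∀ p' ∈ Icc (j:ℝ) (j + 1), p ≤ p' → p' - p ≤ η → dist (r (P p)) (r (P p')) ≤ ε := by
    intro ε η hε hη j p hp p' hp' hpp hpη
    have hw : p - j ∈ Icc (0:ℝ) 1 := ⟨by linarith [hp.1], by linarith [hp.2]⟩
    have hw' : p' - j ∈ Icc (0:ℝ) 1 := ⟨by linarith [hp'.1], by linarith [hp'.2]⟩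
    have e1 := hPj j p hp
    have e2 := hPj j p' hp'
    have hle : m j (p - j) ≤ m j (p' - j) := c2 j hw hw' (by linarith)
    rcases eq_or_lt_of_le hle with heq | hlt
    · rw [e1, e2, heq, dist_self]
      exact hε
    · have hww : p - j < p' - j := by
        by_contra hcon
        push Not at hcon
        have : p = p' := by linarith
        rw [this] at hlt
        exact lt_irrefl _ hlt
      obtain ⟨w1, hw1, w2, hw2, d1, d2⟩ := c5 j _ hw _ hw' hww hlt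
      have hw1' : w1 ∈ Icc (0:ℝ) 1 := ⟨hw.1.trans hw1.1, hw1.2.trans hw'.2⟩
      have hw2' : w2 ∈ Icc (0:ℝ) 1 := ⟨hw.1.trans hw2.1, hw2.2.trans hw'.2⟩
      have hpos : 0 < m j (p - j) := by
        have := (hbd j p hp).1
        rw [e1] at this
        linarith [hs1 j]
      have hpos' : 0 < m j (p' - j) := hpos.trans hlt
      have f1 : r (P p) = H (r (x j)) (t1 j + w1 * (t2 j - t1 j)) := by
        rw [e1, d1]
        exact hR.m2 (x j) (cx j) _ (hseg j w1 hw1') (by rw [← d1]; exact hpos)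
      have f2 : r (P p') = H (r (x j)) (t1 j + w2 * (t2 j - t1 j)) := by
        rw [e2, d2]
        exact hR.m2 (x j) (cx j) _ (hseg j w2 hw2') (by rw [← d2]; exact hpos')
      rw [f1, f2]
      refine hη _ _ (hseg j w1 hw1') _ (hseg j w2 hw2') ?_
      have g1 : t1 j + w1 * (t2 j - t1 j) - (t1 j + w2 * (t2 j - t1 j)) = (w1 - w2) * (t2 j - t1 j) := by
        ring
      rw [g1, abs_mul]
      have g2 : |w1 - w2| ≤ p' - p := by
        rw [abs_le]
        constructor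
        · linarith [hw1.1, hw2.2]
        · linarith [hw1.2, hw2.1]
      have g3 : |t2 j - t1 j| ≤ 1 := by
        rw [abs_le]
        constructor
        · linarith [(ct1 j).2, (ct2 j).1]
        · linarith [(ct1 j).1, (ct2 j).2]
      calc |w1 - w2| * |t2 j - t1 j| ≤ (p' - p) * 1 :=
            mul_le_mul g2 g3 (abs_nonneg _) (by linarith)
        _ ≤ η := by linarith
  choose η hη hη2 using hU
  set D : ℝ → ℝ := fun ε => if h : 0 < ε then min (η (ε / 2) (by linarith)) 1 else 1 with hD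
  have hDp : Pos D := by
    intro ε hε
    simp only [hD, dif_pos hε]
    exact lt_min (hη _ _) one_pos
  -- distance for ordered pairs
  have hord : ∀ ε : ℝ, 0 < ε → ∀ p : ℝ, 0 ≤ p → ∀ p' : ℝ, 0 ≤ p' → p ≤ p' → p' - p ≤ D ε →
      dist (r (P p)) (r (P p')) ≤ ε := by
    intro ε hε p hp p' hp' hpp hpD
    have hD1 : D ε ≤ η (ε / 2) (by linarith) := by
      simp only [hD, dif_pos hε]
      exact min_le_left _ _
    have hD2 : D ε ≤ 1 := by
      simp only [hD, dif_pos hε]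
      exact min_le_right _ _
    have hj := hloc p hp
    set j := ⌊p⌋₊ with hjdef
    by_cases hc : p' ≤ j + 1
    · refine (hdist (ε / 2) _ (by linarith) (hη2 (ε / 2) (by linarith)) j p hj p'
        ⟨hj.1.trans hpp, hc⟩ hpp (by linarith)).trans (by linarith)
    · push Not at hc
      have hj2 : p' ∈ Icc ((j + 1 : ℕ) : ℝ) ((j + 1 : ℕ) + 1) := by
        push_cast
        exact ⟨hc.le, by linarith [hj.2]⟩
      have q1 := hdist (ε / 2) _ (by linarith) (hη2 (ε / 2) (by linarith)) j p hj ((j : ℝ) + 1)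
        ⟨by linarith, le_rfl⟩ hj.2 (by linarith)
      have q2 := hdist (ε / 2) _ (by linarith) (hη2 (ε / 2) (by linarith)) (j + 1) ((j : ℝ) + 1)
        ⟨by push_cast; exact le_rfl, by push_cast; linarith⟩ p' hj2 hc.le (by linarith [hj.2])
      calc dist (r (P p)) (r (P p')) ≤ dist (r (P p)) (r (P ((j : ℝ) + 1))) +
            dist (r (P ((j : ℝ) + 1))) (r (P p')) := dist_triangle _ _ _
        _ ≤ ε / 2 + ε / 2 := add_le_add q1 q2
        _ = ε := by ring
  refine ⟨D, P, hDp, ?_, ?_, hPint, ?_⟩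
  · -- continuity
    have hpiece : ∀ j : ℕ, ContinuousOn P (Icc (j:ℝ) (j + 1)) := by
      intro j
      have h1 : ContinuousOn (fun p : ℝ => m j (p - j)) (Icc (j:ℝ) (j + 1)) := by
        refine (c1 j).comp (Continuous.continuousOn (by fun_prop)) ?_
        intro p hp
        exact ⟨by linarith [hp.1], by linarith [hp.2]⟩
      exact h1.congr fun p hp => hPj j p hp
    have hind : ∀ n : ℕ, ContinuousOn P (Icc 0 (n : ℝ)) := by
      intro n
      induction n with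
      | zero =>
        have : Icc (0:ℝ) ((0 : ℕ) : ℝ) = {0} := by simp
        rw [this]
        exact continuousOn_singleton _ _
      | succ n ih =>
        have h1 : Icc (0:ℝ) ((n + 1 : ℕ) : ℝ) = Icc 0 (n : ℝ) ∪ Icc (n : ℝ) (n + 1) := by
          push_cast
          rw [Icc_union_Icc_eq_Icc (Nat.cast_nonneg n) (by linarith)]
        rw [h1]
        exact ih.union_of_isClosed (hpiece n) isClosed_Icc isClosed_Icc
    intro p hp
    obtain ⟨n, hn⟩ := exists_nat_gt p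
    have h1 := hind n p ⟨hp, hn.le⟩
    refine h1.mono_of_mem_nhdsWithin ?_
    have h2 : Iio (n : ℝ) ∈ 𝓝 p := Iio_mem_nhds hn
    refine mem_nhdsWithin_iff_exists_mem_nhds_inter.2 ⟨Iio (n : ℝ), h2, ?_⟩
    rintro q ⟨hq1, hq2⟩
    exact ⟨hq2, (le_of_lt hq1)⟩
  · intro p hp p' hp' hpp
    have hj := hloc p hp
    have hj' := hloc p' hp'
    have hjj : ⌊p⌋₊ ≤ ⌊p'⌋₊ := Nat.floor_le_floor hpp
    rcases eq_or_lt_of_le hjj with h | h
    · rw [← h] at hj'
      rw [hPj _ p hj, hPj _ p' hj']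
      exact c2 _ ⟨by linarith [hj.1], by linarith [hj.2]⟩ ⟨by linarith [hj'.1], by linarith [hj'.2]⟩
        (by linarith)
    · refine (hbd _ p hj).2.trans (le_trans ?_ (hbd _ p' hj').1)
      exact hsm.monotone h
  · intro ε hε p hp p' hp' hpp
    rcases le_total p p' with h | h
    · refine hord ε hε p hp p' hp' h ?_
      rw [abs_sub_comm, abs_of_nonneg (by linarith)] at hpp
      exact hpp
    · rw [dist_comm]
      refine hord ε hε p' hp' p hp h ?_
      rw [abs_of_nonneg (by linarith)] at hpp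
      exact hpp

end Pool.RY
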