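import Pool.Agent.Work.MP_36677d_ray.Interface

/-! # Block RAYQ (helper20, after `Dat.false` of helper94) -/

set_option autoImplicit false

open Set Filter Topology

namespace Pool.RY

open Pool.TL94

theorem RAYQ_false {M : Type} [MetricSpace M] [SecondCountableTopology M] {H : M → ℝ → M}
    {v : M → ℝ → ℝ} {e δ : ℝ} {N : ℕ}
    (D : Dat H v e δ N) (hHU : HU M) {p : M} {P : M → Prop} (hp : P p) (hP : ArcTo p P)
    (hdown : ∀ y, P y → ∀ x ∈ seg p y, P x)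
    (hPH : ∀ x, P x → ∀ t ∈ Icc (0:ℝ) 1, P (H x t))
    (hN : ∀ z : ℕ → M, (∀ n, P (z n)) →
      (∀ n, ∀ x ∈ seg p (z n), pa H v e N x (Bey p x) = 1) → (∀ n, z n ∈ seg p (z (n + 1))) →
      ∃ w, P w ∧ ∀ n, z n ∈ seg p w) : False := by
  obtain ⟨Q, hQdef⟩ : ∃ Q : M → Prop, ∀ z, Q z ↔ P z ∧ ∀ x ∈ seg p z,
    pa H v e N x (Bey p x) = 1 := ⟨_, fun _ => Iff.rfl⟩
  have hQp : Q p := by
    rw [hQdef]
    refine ⟨hp, fun x hx => ?_⟩
    rw [seg_self] at hx
    rw [mem_singleton_iff.1 hx]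
    exact D.base p
  -- extension
  have hext : ∀ z, Q z → ∃ z', Q z' ∧ z ∈ seg p z' ∧ z' ∉ seg p z := by
    intro z hz
    rw [hQdef] at hz
    obtain ⟨y, hPy, γ, hγ, s, hs0, hs1, hsz, r, hr, h1⟩ :=
      D.forward hHU hP hPH hz.1 (hz.2 z (right_mem p z))
    obtain ⟨u, hsu, hu1, hur⟩ : ∃ u, s < u ∧ u ≤ 1 ∧ u - s < r := by
      refine ⟨s + min (r / 2) (1 - s), ?_, ?_, ?_⟩
      · have : 0 < min (r / 2) (1 - s) := lt_min (by linarith) (by linarith)
        linarith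
      · have := min_le_right (r / 2) (1 - s)
        linarith
      · have := min_le_left (r / 2) (1 - s)
        linarith
    have hu0 : 0 ≤ u := hs0.trans hsu.le
    refine ⟨γ u, ?_, ?_, ?_⟩
    · rw [hQdef]
      refine ⟨hdown y hPy _ (hγ.mem_seg hHU hu0 hu1), fun x hx => ?_⟩
      rw [← hγ.zero, hγ.seg_eq hHU le_rfl hu1 hu0] at hx
      obtain ⟨w, hw, rfl⟩ := hx
      rcases le_or_gt w s with h2 | h2
      · apply hz.2
        rw [← hsz]
        exact (hγ.mem_iff0 hHU hs0 hs1.le hw.1 (hw.2.trans hu1)).2 h2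
      · exact h1 w h2 (hw.2.trans hu1) (by linarith [hw.2])
    · rw [← hsz]
      exact (hγ.mem_iff0 hHU hu0 hu1 hs0 hs1.le).2 hsu.le
    · rw [← hsz, hγ.mem_iff0 hHU hs0 hs1.le hu0 hu1]
      exact not_le.2 hsu
  -- suprema
  have hsup : ∀ z : ℕ → M, (∀ n, Q (z n)) → (∀ n, z n ∈ seg p (z (n + 1))) →
      ∃ z', Q z' ∧ ∀ n, z n ∈ seg p z' := by
    intro z hz hzz
    obtain ⟨w, hPw, hw⟩ := hN z (fun n => ((hQdef _).1 (hz n)).1)
      (fun n => ((hQdef _).1 (hz n)).2) hzz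
    by_cases hwp : w = p
    · refine ⟨p, hQp, fun n => ?_⟩
      have := hw n
      rwa [hwp] at this
    · obtain ⟨γ, hγ⟩ := hP w hPw hwp
      have h1 : ∀ n, ∃ u, 0 ≤ u ∧ u ≤ 1 ∧ γ u = z n := fun n => hγ.exists_of_mem hHU (hw n)
      choose u hu0 hu1 huz using h1
      have hbdd : BddAbove (range u) := ⟨1, by rintro _ ⟨n, rfl⟩; exact hu1 n⟩
      set U := sSup (range u) with hU
      have hle : ∀ n, u n ≤ U := fun n => le_csSup hbdd ⟨n, rfl⟩
      have hU0 : 0 ≤ U := (hu0 0).trans (hle 0)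
      have hU1 : U ≤ 1 := csSup_le ⟨u 0, 0, rfl⟩ (by rintro _ ⟨n, rfl⟩; exact hu1 n)
      have hlt : ∀ s, 0 ≤ s → s < U → pa H v e N (γ s) (Bey p (γ s)) = 1 := by
        intro s hs0 hsU
        obtain ⟨_, ⟨n, rfl⟩, hn⟩ := exists_lt_of_lt_csSup (range_nonempty u) hsU
        apply ((hQdef _).1 (hz n)).2
        rw [← huz n]
        exact (hγ.mem_iff0 hHU (hu0 n) (hu1 n) hs0 (hsU.le.trans hU1)).2 hn.le
      refine ⟨γ U, ?_, fun n => ?_⟩
      · rw [hQdef]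
        refine ⟨hdown w hPw _ (hγ.mem_seg hHU hU0 hU1), fun x hx => ?_⟩
        rw [← hγ.zero, hγ.seg_eq hHU le_rfl hU1 hU0] at hx
        obtain ⟨s, hs, rfl⟩ := hx
        rcases hs.2.lt_or_eq with h2 | h2
        · exact hlt s hs.1 h2
        · rw [h2]
          rcases hU0.lt_or_eq with h3 | h3
          · obtain ⟨r, hr, h4⟩ := D.left hHU hγ h3 hU1
            have h5 : max 0 (U - r / 2) < U := max_lt h3 (by linarith)
            rw [← h4 (max 0 (U - r / 2)) (le_max_left _ _) h5.le (by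
              have := le_max_right 0 (U - r / 2); linarith)]
            exact hlt _ (le_max_left _ _) h5
          · rw [← h3, hγ.zero]
            exact ((hQdef _).1 hQp).2 p (left_mem p p)
      · rw [← huz n]
        exact (hγ.mem_iff0 hHU hU0 hU1 (hu0 n) (hu1 n)).2 (hle n)
  -- the greedy sequence
  obtain ⟨U, -, hUb⟩ := exists_basis_seq (M := M)
  classical
  let f : ℕ → {z // Q z} := fun n => Nat.rec ⟨p, hQp⟩ (fun n z =>
    if h : ∃ z' : {z // Q z}, z.1 ∈ seg p z'.1 ∧ (seg p z'.1 ∩ U n).Nonempty then h.choose else z) n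
  have hf : ∀ n, f (n + 1) = if h : ∃ z' : {z // Q z}, (f n).1 ∈ seg p z'.1 ∧
      (seg p z'.1 ∩ U n).Nonempty then h.choose else f n := fun _ => rfl
  have hf1 : ∀ n, (f n).1 ∈ seg p (f (n + 1)).1 := by
    intro n
    rw [hf]
    split_ifs with h
    · exact h.choose_spec.1
    · exact right_mem _ _
  obtain ⟨z1, hz1, hz1'⟩ := hsup (fun n => (f n).1) (fun n => (f n).2) hf1
  obtain ⟨z2, hz2, hz12, hz21⟩ := hext z1 hz1
  obtain ⟨n, hn1, hn2⟩ := hUb z2 (seg p z1)ᶜ (isClosed_seg p z1).isOpen_compl hz21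
  have h : ∃ z' : {z // Q z}, (f n).1 ∈ seg p z'.1 ∧ (seg p z'.1 ∩ U n).Nonempty :=
    ⟨⟨z2, hz2⟩, seg_trans (hz1' n) hz12, z2, right_mem p z2, hn1⟩
  have h2 : (seg p (f (n + 1)).1 ∩ U n).Nonempty := by
    rw [hf, dif_pos h]
    exact h.choose_spec.2
  obtain ⟨x, hx1, hx2⟩ := h2
  exact hn2 hx2 (seg_mono (hz1' (n + 1)) hx1)

theorem p_RAYQ : Stmt_RAYQ := by
  intro M _ _ H v e δ N D hHU p hPH
  by_contra hcon
  have hN : ∀ z : ℕ → M, (∀ n, Joined p (z n)) →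
      (∀ n, ∀ x ∈ seg p (z n), pa H v e N x (Bey p x) = 1) → (∀ n, z n ∈ seg p (z (n + 1))) →
      ∃ w, Joined p w ∧ ∀ n, z n ∈ seg p w := by
    intro z hz1 hz2 hzz
    by_contra h
    push Not at h
    exact hcon ⟨z, hz1, hz2, hzz, h⟩
  exact RAYQ_false D hHU (P := Joined p) (Joined.refl p)
    (fun x hx hne => exists_arcFn hx (fun h => hne h.symm))
    (fun y hy x hx => joined_of_mem_seg hHU hy hx) hPH hN

end Pool.RY
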