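import Pool.Agent.Work.MP_36677d_ray.Interface

/-! Block RES1: the first theorem. -/

set_option autoImplicit false

open Set Filter Topology

namespace Pool.RY

open Pool.TL94

theorem p_RES1 (hMNR : Stmt_MNR) (hTRC : Stmt_TRC) : Stmt_RES1 := by
  intro M _ _ hT hN G p hp
  by_contra hG
  push Not at hG
  have : Nonempty M := ⟨p⟩
  obtain ⟨v, e, δ, N, D⟩ := exists_dat G hG
  refine hMNR M _ v e δ N D hT (hTRC M hT.hu hN) p ?_
  intro x hx
  obtain ⟨t, ht⟩ := hp x hx
  refine ⟨t.1, t.2, ?_⟩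
  simp only [projIcc_val]
  exact ht

end Pool.RY
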