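import Pool.Agent.Work.MP_36677d_ray.Interface

set_option autoImplicit false

open Set Filter Topology

namespace Pool.RY

open Pool.TL94

theorem p_RET (hCHD : Stmt_CHD) : Stmt_RET := by
  intro M _ _ hT f T0 hf n ε T hn hε hTT
  obtain ⟨N, U, hopen, hne, hdiam, hcov, -, hacyc⟩ := hT ε hε
  obtain ⟨δ, hδ, hleb⟩ := lebesgue_number_lemma_of_metric (isCompact_univ : IsCompact (univ : Set M)) hopen
    (by rw [hcov])
  have hleb' : ∀ x : M, ∃ i, Metric.ball x δ ⊆ U i := fun x => hleb x (mem_univ x)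
  have hn0 : (1 : ℝ) ≤ n := by exact_mod_cast hn
  obtain ⟨X, hX⟩ : ∃ X : ℝ, X = 2 * N * (n + 1) := ⟨_, rfl⟩
  have hKc : IsCompact (Icc T (T + X)) := isCompact_Icc
  have hfK : ContinuousOn f (Icc T (T + X)) := hf.mono (fun x hx => le_trans hTT hx.1)
  have huc := hKc.uniformContinuousOn_of_continuous hfK
  rw [Metric.uniformContinuousOn_iff] at huc
  obtain ⟨η, hη, huc⟩ := huc δ hδ
  obtain ⟨τ, hτ⟩ : ∃ τ : ℝ, τ = min (1 / 2) (η / 2) := ⟨_, rfl⟩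
  have hτ0 : 0 < τ := by rw [hτ]; exact lt_min (by norm_num) (by linarith)
  have hτ1 : τ ≤ 1 / 2 := by rw [hτ]; exact min_le_left _ _
  have hτη : τ < η := by
    have : τ ≤ η / 2 := by rw [hτ]; exact min_le_right _ _
    linarith
  obtain ⟨h, hh⟩ : ∃ h : ℕ, h = ⌈(n : ℝ) / τ⌉₊ := ⟨_, rfl⟩
  have hnτ : 0 < (n : ℝ) / τ := by positivity
  have hh1 : (n : ℝ) / τ ≤ h := by rw [hh]; exact Nat.le_ceil _
  have hh2 : (h : ℝ) < (n : ℝ) / τ + 1 := by rw [hh]; exact Nat.ceil_lt_add_one hnτ.le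
  have hhp : 1 ≤ h := by
    rw [hh]; exact Nat.one_le_ceil_iff.2 hnτ
  have hhτ1 : (n : ℝ) ≤ h * τ := by rwa [div_le_iff₀ hτ0] at hh1
  have hhτ2 : (h : ℝ) * τ ≤ n + τ := by
    have h1 : (h : ℝ) * τ ≤ ((n : ℝ) / τ + 1) * τ := mul_le_mul_of_nonneg_right hh2.le hτ0.le
    have h2 : ((n : ℝ) / τ + 1) * τ = n + τ := by field_simp
    linarith
  obtain ⟨m, hm⟩ : ∃ m : ℕ, m = 2 * h * N := ⟨_, rfl⟩
  have hmX : (m : ℝ) * τ ≤ X := by
    have hN0 : (0 : ℝ) ≤ N := Nat.cast_nonneg _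
    rw [hm, hX]
    push_cast
    have h1 : (h : ℝ) * τ ≤ n + 1 := by linarith
    calc 2 * (h : ℝ) * N * τ = 2 * N * (h * τ) := by ring
      _ ≤ 2 * N * (n + 1) := mul_le_mul_of_nonneg_left h1 (by positivity)
  have hpt : ∀ k : ℕ, k ≤ m → T + k * τ ∈ Icc T (T + X) := by
    intro k hk
    have hk' : (k : ℝ) ≤ m := by exact_mod_cast hk
    have h1 : (k : ℝ) * τ ≤ m * τ := mul_le_mul_of_nonneg_right hk' hτ0.le
    have h2 : 0 ≤ (k : ℝ) * τ := by positivity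
    exact ⟨by linarith, by linarith⟩
  obtain ⟨w, hw⟩ : ∃ w : ℕ → Fin N, ∀ k : ℕ, Metric.ball (f (T + (k : ℝ) * τ)) δ ⊆ U (w k) :=
    ⟨fun k => Classical.choose (hleb' (f (T + (k : ℝ) * τ))), fun k => Classical.choose_spec (hleb' (f (T + k * τ)))⟩
  have hwm : ∀ k : ℕ, f (T + (k : ℝ) * τ) ∈ U (w k) := fun k => hw k (Metric.mem_ball_self hδ)
  obtain ⟨k, l, hkl, hlm, hwkl, h1, h2⟩ := hCHD N _ hacyc m h w hhp (by rw [hm]) (by
    intro k hk
    by_cases hkk : w k = w (k + 1)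
    · exact Or.inl hkk
    · right
      rw [SimpleGraph.fromRel_adj]
      refine ⟨hkk, Or.inl ⟨f (T + ((k + 1 : ℕ) : ℝ) * τ), ?_, hwm (k + 1)⟩⟩
      apply hw k
      rw [Metric.mem_ball]
      apply huc _ (hpt (k + 1) hk) _ (hpt k hk.le)
      rw [Real.dist_eq]
      push_cast
      have : T + ((k : ℝ) + 1) * τ - (T + k * τ) = τ := by ring
      rw [this, abs_of_pos hτ0]
      exact hτη)
  have hlk : ((l - k : ℕ) : ℝ) = l - k := Nat.cast_sub hkl.le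
  have r1 : (h : ℝ) ≤ l - k := by rw [← hlk]; exact_mod_cast h1
  have r2 : (l : ℝ) - k ≤ 2 * h := by rw [← hlk]; exact_mod_cast h2
  refine ⟨T + k * τ, T + l * τ, ?_, ?_, ?_, ?_⟩
  · have : 0 ≤ (k : ℝ) * τ := by positivity
    linarith
  · have h3 : (h : ℝ) * τ ≤ (l - k) * τ := mul_le_mul_of_nonneg_right r1 hτ0.le
    have h4 : ((l : ℝ) - k) * τ = l * τ - k * τ := by ring
    linarith
  · have h3 : ((l : ℝ) - k) * τ ≤ (2 * h) * τ := mul_le_mul_of_nonneg_right r2 hτ0.le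
    have h4 : ((l : ℝ) - k) * τ = l * τ - k * τ := by ring
    have h5 : (2 * (h : ℝ)) * τ = 2 * (h * τ) := by ring
    linarith
  · refine lt_of_le_of_lt (Metric.dist_le_diam_of_mem (isCompact_univ.isBounded.subset (subset_univ _))
      (hwm k) ?_) (hdiam (w k))
    rw [hwkl]; exact hwm l

end Pool.RY
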