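import Pool.Agent.Work.MP_36677d_ray.Interface

/-! # Block RMX: running maximum of a real path -/

set_option autoImplicit false

open Set Filter Topology

namespace Pool.RY

open Pool.TL94

theorem p_RMX : Stmt_RMX := by
  intro φ a b hφ hab h0 h1 hle
  -- an extension of the path
  set ψ : ℝ → ℝ := fun x => max a (φ (projIcc 0 1 zero_le_one x)) with hψ
  have hψc : Continuous ψ := by
    refine continuous_const.max ?_
    have : Continuous (fun x => (Icc (0:ℝ) 1).restrict φ (projIcc 0 1 zero_le_one x)) :=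
      (continuousOn_iff_continuous_restrict.1 hφ).comp continuous_projIcc
    exact this
  have hψe : ∀ x ∈ Icc (0:ℝ) 1, ψ x = max a (φ x) := by
    intro x hx
    simp only [hψ, projIcc_of_mem zero_le_one hx]
  set m : ℝ → ℝ := fun w => sSup ((fun u => ψ (w * u)) '' Icc (0:ℝ) 1) with hm
  have hmc : Continuous m := by
    refine isCompact_Icc.continuous_sSup (f := fun w u => ψ (w * u)) ?_
    exact hψc.comp (continuous_fst.mul continuous_snd)
  -- the running maximum is attained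
  have hG : ∀ w ∈ Icc (0:ℝ) 1, (∃ x ∈ Icc (0:ℝ) w, m w = max a (φ x)) ∧
      ∀ x ∈ Icc (0:ℝ) w, max a (φ x) ≤ m w := by
    intro w hw
    have hK : IsCompact ((fun u => ψ (w * u)) '' Icc (0:ℝ) 1) :=
      isCompact_Icc.image (hψc.comp (continuous_const.mul continuous_id))
    have hne : ((fun u => ψ (w * u)) '' Icc (0:ℝ) 1).Nonempty :=
      ⟨_, 0, ⟨le_rfl, zero_le_one⟩, rfl⟩
    have hmem := hK.sSup_mem hne
    constructor
    · obtain ⟨u, hu, hu2⟩ := hmem
      refine ⟨w * u, ⟨mul_nonneg hw.1 hu.1, ?_⟩, ?_⟩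
      · calc w * u ≤ w * 1 := mul_le_mul_of_nonneg_left hu.2 hw.1
          _ = w := mul_one w
      · rw [← hψe (w * u) ⟨mul_nonneg hw.1 hu.1, by nlinarith [hu.1, hu.2, hw.1, hw.2]⟩]
        exact hu2.symm
    · intro x hx
      rw [← hψe x ⟨hx.1, hx.2.trans hw.2⟩]
      have hbdd := hK.bddAbove
      rcases eq_or_lt_of_le hw.1 with hw0 | hw0
      · have hx0 : x = 0 := le_antisymm (by rw [hw0]; exact hx.2) hx.1
        refine le_csSup hbdd ⟨0, ⟨le_rfl, zero_le_one⟩, ?_⟩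
        simp [hx0]
      · refine le_csSup hbdd ⟨x / w, ⟨div_nonneg hx.1 hw0.le, ?_⟩, ?_⟩
        · rw [div_le_one hw0]; exact hx.2
        · show ψ (w * (x / w)) = ψ x
          rw [mul_div_cancel₀ _ hw0.ne']
  have hmono : MonotoneOn m (Icc 0 1) := by
    intro w hw w' hw' hww
    obtain ⟨⟨x, hx, hx2⟩, -⟩ := hG w hw
    rw [hx2]
    exact (hG w' hw').2 x ⟨hx.1, hx.2.trans hww⟩
  refine ⟨m, hmc.continuousOn, hmono, ?_, ?_, ?_⟩
  · obtain ⟨⟨x, hx, hx2⟩, -⟩ := hG 0 ⟨le_rfl, zero_le_one⟩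
    have hx0 : x = 0 := le_antisymm hx.2 hx.1
    rw [hx2, hx0]
    exact max_eq_left h0
  · obtain ⟨⟨x, hx, hx2⟩, hx3⟩ := hG 1 ⟨zero_le_one, le_rfl⟩
    refine le_antisymm ?_ ?_
    · rw [hx2]
      exact max_le hab.le (hle x hx)
    · have := hx3 1 ⟨zero_le_one, le_rfl⟩
      rw [h1] at this
      exact (le_max_right _ _).trans this
  · intro w hw w' hw' hww hlt
    obtain ⟨⟨x, hx, hx2⟩, -⟩ := hG w' hw'
    obtain ⟨⟨y, hy, hy2⟩, hy3⟩ := hG w hw
    have ham : a ≤ m w := by rw [hy2]; exact le_max_left _ _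
    have hx3 : m w' = φ x := by
      rcases max_choice a (φ x) with h | h
      · rw [h] at hx2
        linarith
      · rw [h] at hx2
        exact hx2
    have hwx : w < x := by
      by_contra hcon
      push Not at hcon
      have := hy3 x ⟨hx.1, hcon⟩
      rw [← hx2] at this
      linarith
    have hφw : φ w ≤ m w := (le_max_right _ _).trans (hy3 w ⟨hw.1, le_rfl⟩)
    have hcont : ContinuousOn φ (Icc w x) := hφ.mono (Icc_subset_Icc hw.1 (hx.2.trans hw'.2))
    obtain ⟨w1, hw1, hw2⟩ := intermediate_value_Icc hwx.le hcont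
      (show m w ∈ Icc (φ w) (φ x) from ⟨hφw, by rw [← hx3]; exact hlt.le⟩)
    exact ⟨w1, ⟨hw1.1, hw1.2.trans hx.2⟩, x, ⟨hwx.le, hx.2⟩, hw2.symm, hx3⟩

end Pool.RY
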