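import Pool.Agent.Work.MP_36677d_ray.Interface

set_option autoImplicit false

/-! # Block SHF: translation and reversal of the class `Pth` -/

open Set Filter Topology

namespace Pool.RY

open Pool.TL94

theorem SHF_tr {M : Type} [MetricSpace M] {H : M → ℝ → M} {B : ℝ} {D r : ℝ → ℝ}
    {X : Set ℝ} {ρ : ℝ → M} {S : ℝ → ℝ → ℝ → Prop} (h : Pth H B D r X ρ S) (a : ℝ) :
    Pth H B D r {p | p + a ∈ X} (fun p => ρ (p + a)) (fun p t u => S (p + a) t (u + a)) := by
  have e : ∀ x y : ℝ, (x + a) - (y + a) = x - y := fun x y => by ring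
  refine ⟨?_, ?_, ?_, ?_⟩
  · intro ε hε p hp p' hp' hd
    exact h.mod ε hε (p + a) hp (p' + a) hp' (by rw [e]; exact hd)
  · intro c hc p hp p' hp' u hu u' hu' t ht t' ht' h1 h2 h3 h4
    exact h.loc c hc (p + a) hp (p' + a) hp' (u + a) hu (u' + a) hu' t ht t' ht' h1
      (by rw [e]; exact h2) h3 (by rw [e]; exact h4)
  · intro p hp u hu t ht h1 h2
    exact h.up (p + a) hp (u + a) hu t ht h1 (by linarith)
  · intro p hp u hu t ht h1 h2
    exact h.dn (p + a) hp (u + a) hu t ht h1 (by linarith)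

theorem SHF_rev {M : Type} [MetricSpace M] {H : M → ℝ → M} {B : ℝ} {D r : ℝ → ℝ}
    {X : Set ℝ} {ρ : ℝ → M} {S : ℝ → ℝ → ℝ → Prop} (h : Pth H B D r X ρ S) :
    Pth H B D r {p | -p ∈ X} (fun p => ρ (-p)) (fun p t u => ¬ S (-p) t (-u)) := by
  have e : ∀ x y : ℝ, |-x - -y| = |x - y| := fun x y => by
    rw [show -x - -y = -(x - y) by ring, abs_neg]
  refine ⟨?_, ?_, ?_, ?_⟩
  · intro ε hε p hp p' hp' hd
    exact h.mod ε hε (-p) hp (-p') hp' (by rw [e]; exact hd)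
  · intro c hc p hp p' hp' u hu u' hu' t ht t' ht' h1 h2 h3 h4
    exact not_congr (h.loc c hc (-p) hp (-p') hp' (-u) hu (-u') hu' t ht t' ht' h1
      (by rw [e]; exact h2) h3 (by rw [e]; exact h4))
  · intro p hp u hu t ht h1 h2 h3
    exact h3 (h.dn (-p) hp (-u) hu t ht h1 (by linarith))
  · intro p hp u hu t ht h1 h2
    exact h.up (-p) hp (-u) hu t ht h1 (by linarith)

theorem p_SHF : Stmt_SHF := fun _ _ _ _ _ _ _ _ _ h => ⟨SHF_tr h, SHF_rev h⟩

end Pool.RY
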