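import Pool.Agent.Work.MP_36677d_ray.Interface

/-! # Block TRA (typed by helper88): arcs from a common point -/

set_option autoImplicit false

open Set Filter Topology

namespace Pool.RY

open Pool.TL94

section

variable {M : Type} [MetricSpace M]

/-- a piece of an arc, forwards -/
theorem TRA_fw {γ : ℝ → M} {a b : M} (h : ArcFn γ a b) {s t : ℝ} (hs : 0 ≤ s) (hst : s < t)
    (ht : t ≤ 1) : ArcFn (fun r => γ (s + (t - s) * r)) (γ s) (γ t) ∧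
      (fun r => γ (s + (t - s) * r)) '' Icc 0 1 = γ '' Icc s t := by
  have hmap : ∀ r ∈ Icc (0:ℝ) 1, s + (t - s) * r ∈ Icc s t := by
    intro r hr
    have h1 : 0 ≤ (t - s) * r := mul_nonneg (by linarith) hr.1
    have h2 : (t - s) * r ≤ (t - s) * 1 := mul_le_mul_of_nonneg_left hr.2 (by linarith)
    exact ⟨by linarith, by linarith⟩
  have hsub : Icc s t ⊆ Icc (0:ℝ) 1 := Icc_subset_Icc hs ht
  refine ⟨⟨?_, ?_, by simp, by simp⟩, ?_⟩
  · exact h.cont.comp (by fun_prop) (fun r hr => hsub (hmap r hr))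
  · intro r hr r' hr' hrr
    have h1 := h.inj (hsub (hmap r hr)) (hsub (hmap r' hr')) hrr
    have h2 : (t - s) * r = (t - s) * r' := by linarith
    exact mul_left_cancel₀ (by linarith : t - s ≠ 0) h2
  · ext w
    constructor
    · rintro ⟨r, hr, rfl⟩
      exact ⟨_, hmap r hr, rfl⟩
    · rintro ⟨u, hu, rfl⟩
      have h0 : 0 < t - s := by linarith
      refine ⟨(u - s) / (t - s), ⟨div_nonneg (by linarith [hu.1]) h0.le,
        (div_le_one h0).2 (by linarith [hu.2])⟩, ?_⟩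
      show γ (s + (t - s) * ((u - s) / (t - s))) = γ u
      rw [mul_div_cancel₀ _ h0.ne']
      congr 1
      ring

/-- a piece of an arc, backwards -/
theorem TRA_bw {γ : ℝ → M} {a b : M} (h : ArcFn γ a b) {s t : ℝ} (hs : 0 ≤ s) (hst : s < t)
    (ht : t ≤ 1) : ∃ β : ℝ → M, ArcFn β (γ t) (γ s) ∧ β '' Icc 0 1 = γ '' Icc s t := by
  obtain ⟨h1, h2⟩ := TRA_fw h hs hst ht
  refine ⟨_, h1.rev, ?_⟩
  rw [← h2]
  ext w
  constructor
  · rintro ⟨r, hr, rfl⟩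
    exact ⟨1 - r, ⟨by linarith [hr.2], by linarith [hr.1]⟩, rfl⟩
  · rintro ⟨r, hr, rfl⟩
    refine ⟨1 - r, ⟨by linarith [hr.2], by linarith [hr.1]⟩, ?_⟩
    show γ (s + (t - s) * (1 - (1 - r))) = γ (s + (t - s) * r)
    rw [sub_sub_cancel]

variable [CompactSpace M]

theorem TRA_main (hHU : HU M) {z x y : M} (hx : Joined z x) (hy : Joined z y) (hxz : x ≠ z)
    (hyz : y ≠ z) : ∃ m, m ∈ seg z x ∧ m ∈ seg z y ∧ seg z x ∩ seg z y = seg z m := by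
  obtain ⟨f, hf⟩ := exists_arcFn hx hxz.symm
  -- the last parameter of `f` in `seg z y`
  set T : Set ℝ := {u | u ∈ Icc (0:ℝ) 1 ∧ f u ∈ seg z y} with hT
  have hTc : IsCompact T := by
    have h1 : IsClosed T := by
      have := hf.cont.preimage_isClosed_of_isClosed isClosed_Icc (isClosed_seg z y)
      exact this
    exact isCompact_Icc.of_isClosed_subset h1 (fun u hu => hu.1)
  have hT0 : (0:ℝ) ∈ T := ⟨⟨le_rfl, zero_le_one⟩, by rw [hf.zero]; exact left_mem z y⟩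
  obtain ⟨τ, hτ, hmax⟩ := hTc.exists_isGreatest ⟨0, hT0⟩
  refine ⟨f τ, hf.mem_seg hHU hτ.1.1 hτ.1.2, hτ.2, ?_⟩
  ext w
  constructor
  · rintro ⟨h1, h2⟩
    obtain ⟨u, hu0, hu1, rfl⟩ := hf.exists_of_mem hHU h1
    have h3 : u ≤ τ := hmax ⟨⟨hu0, hu1⟩, h2⟩
    exact (hf.mem_iff0 hHU hτ.1.1 hτ.1.2 hu0 hu1).2 h3
  · intro h1
    exact ⟨seg_trans h1 (hf.mem_seg hHU hτ.1.1 hτ.1.2), seg_trans h1 hτ.2⟩

end

theorem p_TRA : Stmt_TRA := by
  intro M _ _ hHU hNT z x y hx hy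
  by_cases hxz : x = z
  · left
    rw [hxz, seg_self]
    ext w
    constructor
    · exact fun h => h.1
    · intro h
      rw [mem_singleton_iff] at h
      rw [h]
      exact ⟨rfl, left_mem z y⟩
  by_cases hyz : y = z
  · left
    rw [hyz, seg_self]
    ext w
    constructor
    · exact fun h => h.2
    · intro h
      rw [mem_singleton_iff] at h
      rw [h]
      exact ⟨left_mem z x, rfl⟩
  obtain ⟨m, hmx, hmy, hA⟩ := TRA_main hHU hx hy hxz hyz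
  by_cases hmz : m = z
  · left
    rw [hA, hmz, seg_self]
  by_cases hmX : m = x
  · right; left
    rw [← hmX]; exact hmy
  by_cases hmY : m = y
  · right; right
    rw [← hmY]; exact hmx
  exfalso
  apply hNT
  obtain ⟨f, hf⟩ := exists_arcFn hx (Ne.symm hxz)
  obtain ⟨g, hg⟩ := exists_arcFn hy (Ne.symm hyz)
  obtain ⟨τ, hτ0, hτ1, hτ⟩ := hf.exists_of_mem hHU hmx
  obtain ⟨σ, hσ0, hσ1, hσ⟩ := hg.exists_of_mem hHU hmy
  have hτ0' : 0 < τ := by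
    rcases hτ0.lt_or_eq with h | h
    · exact h
    · exfalso; rw [← h, hf.zero] at hτ; exact hmz hτ.symm
  have hτ1' : τ < 1 := by
    rcases hτ1.lt_or_eq with h | h
    · exact h
    · exfalso; rw [h, hf.one] at hτ; exact hmX hτ.symm
  have hσ1' : σ < 1 := by
    rcases hσ1.lt_or_eq with h | h
    · exact h
    · exfalso; rw [h, hg.one] at hσ; exact hmY hσ.symm
  obtain ⟨β, hβ, hβi⟩ := TRA_bw hf le_rfl hτ0' hτ1
  obtain ⟨h1, h1i⟩ := TRA_fw hf hτ0 hτ1' le_rfl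
  obtain ⟨h2, h2i⟩ := TRA_fw hg hσ0 hσ1' le_rfl
  rw [hτ] at hβ h1
  rw [hσ] at h2
  have hfm : f '' Icc 0 τ = seg z m := by
    rw [← hf.seg_eq hHU le_rfl hτ1 hτ0, hf.zero, hτ]
  have hgm : g '' Icc 0 σ = seg z m := by
    rw [← hg.seg_eq hHU le_rfl hσ1 hσ0, hg.zero, hσ]
  refine ⟨β, _, _, m, f 0, f 1, g 1, hβ, h1, h2, ?_, ?_, ?_⟩
  · rw [hβi, h1i]
    ext w
    constructor
    · rintro ⟨⟨u, hu, rfl⟩, u', hu', h3⟩
      have h4 := hf.inj ⟨hτ0.trans hu'.1, hu'.2⟩ ⟨hu.1, hu.2.trans hτ1⟩ h3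
      have h5 : u = τ := le_antisymm hu.2 (h4 ▸ hu'.1)
      rw [h5, hτ]; rfl
    · intro h
      rw [mem_singleton_iff] at h
      rw [h, ← hτ]
      exact ⟨⟨τ, ⟨hτ0, le_rfl⟩, rfl⟩, τ, ⟨le_rfl, hτ1⟩, rfl⟩
  · rw [hβi, h2i, hfm, ← hgm]
    ext w
    constructor
    · rintro ⟨⟨u, hu, rfl⟩, u', hu', h3⟩
      have h4 := hg.inj ⟨hσ0.trans hu'.1, hu'.2⟩ ⟨hu.1, hu.2.trans hσ1⟩ h3
      have h5 : u = σ := le_antisymm hu.2 (h4 ▸ hu'.1)
      rw [h5, hσ]; rfl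
    · intro h
      rw [mem_singleton_iff] at h
      rw [h, ← hσ]
      exact ⟨⟨σ, ⟨hσ0, le_rfl⟩, rfl⟩, σ, ⟨le_rfl, hσ1⟩, rfl⟩
  · rw [h1i, h2i]
    ext w
    constructor
    · rintro ⟨⟨u, hu, rfl⟩, u', hu', h3⟩
      have h4 : f u ∈ seg z x ∩ seg z y := by
        refine ⟨hf.mem_seg hHU (hτ0.trans hu.1) hu.2, ?_⟩
        rw [← h3]
        exact hg.mem_seg hHU (hσ0.trans hu'.1) hu'.2
      rw [hA, ← hfm] at h4
      obtain ⟨u2, hu2, h5⟩ := h4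
      have h6 := hf.inj ⟨hu2.1, hu2.2.trans hτ1⟩ ⟨hτ0.trans hu.1, hu.2⟩ h5
      have h7 : u = τ := le_antisymm (h6 ▸ hu2.2) hu.1
      rw [h7, hτ]; rfl
    · intro h
      rw [mem_singleton_iff] at h
      rw [h]
      exact ⟨⟨τ, ⟨le_rfl, hτ1⟩, hτ⟩, σ, ⟨le_rfl, hσ1⟩, hσ⟩

end Pool.RY
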