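import Pool.Agent.Work.MP_36677d_ray.Interface

/-! # Block TRB: at most two directions (helper55) -/

set_option autoImplicit false

open Set Filter Topology

namespace Pool.RY

open Pool.TL94

theorem TRB_arc {M : Type} [MetricSpace M] [CompactSpace M] (hHU : HU M) {z x : M}
    (h : Joined z x) (hne : x ≠ z) : ∃ f : ℝ → M, ArcFn f z x ∧ seg z x = f '' Icc 0 1 := by
  obtain ⟨γ, hγ⟩ := exists_arcFn h (fun h => hne h.symm)
  refine ⟨γ, hγ, ?_⟩
  rw [← hγ.seg_eq hHU le_rfl le_rfl zero_le_one, hγ.zero, hγ.one]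

theorem p_TRB : Stmt_TRB := by
  intro M _ _ hHU hNT z x y w hx hy hw hxz hyz hwz h1 h2 h3
  obtain ⟨f, hf, ef⟩ := TRB_arc hHU hx hxz
  obtain ⟨g, hg, eg⟩ := TRB_arc hHU hy hyz
  obtain ⟨h, hh, eh⟩ := TRB_arc hHU hw hwz
  rw [ef, eg] at h1
  rw [ef, eh] at h2
  rw [eg, eh] at h3
  exact hNT ⟨f, g, h, z, x, y, w, hf, hg, hh, h1, h2, h3⟩

end Pool.RY
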