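import Pool.Agent.Work.MP_36677d_ray.Interface

/-! # MP_36677d_gt, block TRC: without simple triods every path lies in an arc (helper94) -/

set_option autoImplicit false

open Set Filter Topology

namespace Pool.RY

open Pool.TL94

theorem TRC_joined {M : Type} [MetricSpace M] {f : ℝ → M} {c d : ℝ}
    (hf : ContinuousOn f (Icc c d)) {u : ℝ} (hu : u ∈ Icc c d) : Joined (f c) (f u) := by
  have h1 : ContinuousOn (fun s => f (c + s * (u - c))) unitInterval := by
    refine hf.comp (by fun_prop) ?_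
    intro s hs
    have h2 : 0 ≤ u - c := by linarith [hu.1]
    have h3 : 0 ≤ s * (u - c) := mul_nonneg hs.1 h2
    have h4 : s * (u - c) ≤ u - c := mul_le_of_le_one_left h2 hs.2
    exact ⟨by linarith, by linarith [hu.2]⟩
  exact ⟨Path.ofLine h1 (by ring_nf) (by ring_nf)⟩

/-- a set in a nondegenerate segment lies in an arc -/
theorem TRC_arc {M : Type} [MetricSpace M] [CompactSpace M] (hHU : HU M) {a b : M}
    (hab : Joined a b) (hne : a ≠ b) {S : Set M} (hS : S ⊆ seg a b) :
    ∃ (γ : ℝ → M) (a' b' : M), ArcFn γ a' b' ∧ S ⊆ γ '' Icc 0 1 := by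
  obtain ⟨γ, hγ⟩ := exists_arcFn hab hne
  refine ⟨γ, a, b, hγ, ?_⟩
  have h1 := hγ.seg_eq hHU le_rfl le_rfl zero_le_one
  rw [hγ.zero, hγ.one] at h1
  rw [← h1]
  exact hS

/-- if two segments meet only in their common end point then this point is between the other ends -/
theorem TRC_between {M : Type} [MetricSpace M] [CompactSpace M] (hHU : HU M) {z y y' : M}
    (hy : Joined z y) (hy' : Joined z y') (h : seg z y ∩ seg z y' = {z}) : z ∈ seg y y' := by
  intro C hC h1 h2
  have hA := cont_seg hHU hy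
  have hB := cont_seg hHU hy'
  have hAB : Cont (seg z y ∪ seg z y') := hA.union hB ⟨z, left_mem _ _, left_mem _ _⟩
  have h3 := hHU _ _ hC.cpt hC.con hAB.cpt hAB.con
  obtain ⟨w, hw, hw2⟩ := isPreconnected_closed_iff.1 h3 (seg z y) (seg z y') hA.cpt.isClosed
    hB.cpt.isClosed (fun w hw => hw.2) ⟨y, ⟨h1, Or.inl (right_mem _ _)⟩, right_mem _ _⟩
    ⟨y', ⟨h2, Or.inr (right_mem _ _)⟩, right_mem _ _⟩
  rw [h] at hw2
  rw [← mem_singleton_iff.1 hw2]
  exact hw.1

theorem p_TRC (h1 : Stmt_TRA) (h2 : Stmt_TRB) (h3 : Stmt_TRM) : Stmt_TRC := by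
  intro M _ _ hHU hT f c d hcd hf
  have hJ : ∀ w ∈ f '' Icc c d, Joined (f c) w := by
    rintro _ ⟨u, hu, rfl⟩
    exact TRC_joined hf hu
  obtain ⟨z, hz⟩ : ∃ z, z = f c := ⟨_, rfl⟩
  rw [← hz] at hJ
  -- it suffices to put the path in an arc
  suffices hmain : (∃ x, ∀ u ∈ Icc c d, f u = x) ∨
      ∃ (γ : ℝ → M) (a b : M), ArcFn γ a b ∧ f '' Icc c d ⊆ γ '' Icc 0 1 by
    rcases hmain with h | ⟨γ, a, b, h4, h5⟩
    · exact Or.inl h
    · exact Or.inr ⟨γ, a, b, h4, fun u hu => h5 ⟨u, hu, rfl⟩⟩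
  by_cases hconst : ∀ x ∈ f '' Icc c d, x = z
  · exact Or.inl ⟨z, fun u hu => hconst _ ⟨u, hu, rfl⟩⟩
  · refine Or.inr ?_
    push Not at hconst
    obtain ⟨x, hx, hxz⟩ := hconst
    obtain ⟨y, hy, hxy, hmax⟩ := h3 M hHU hT f c d hcd hf x hx (hz ▸ hxz)
    rw [← hz] at hxy hmax
    have hyz : y ≠ z := by
      rintro rfl
      rw [seg_self] at hxy
      exact hxz hxy
    by_cases hall : ∀ w ∈ f '' Icc c d, w ∈ seg z y
    · exact TRC_arc hHU (hJ y hy) hyz.symm hall
    · push Not at hall
      obtain ⟨x', hx', hx'y⟩ := hall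
      have h4 : seg z x' ∩ seg z x = {z} := by
        by_contra hcon
        exact hx'y (hmax x' hx' hcon)
      have hx'z : x' ≠ z := by
        rintro rfl
        exact hx'y (left_mem _ _)
      obtain ⟨y', hy', hxy', hmax'⟩ := h3 M hHU hT f c d hcd hf x' hx' (hz ▸ hx'z)
      rw [← hz] at hxy' hmax'
      have hyz' : y' ≠ z := by
        rintro rfl
        rw [seg_self] at hxy'
        exact hx'z hxy'
      have hcov : f '' Icc c d ⊆ seg z y ∪ seg z y' := by
        intro w hw
        by_cases hwz : w = z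
        · rw [hwz]
          exact Or.inl (left_mem _ _)
        · by_cases h5 : seg z x ∩ seg z w = {z}
          · have h6 := h2 M hHU hT z x x' w (hJ x hx) (hJ x' hx') (hJ w hw) hxz hx'z hwz
              (by rw [inter_comm]; exact h4) h5
            exact Or.inr (hmax' w hw (by rw [inter_comm]; exact h6))
          · exact Or.inl (hmax w hw (by rw [inter_comm]; exact h5))
      rcases h1 M hHU hT z y y' (hJ y hy) (hJ y' hy') with h5 | h5 | h5
      · have h6 : z ∈ seg y y' := TRC_between hHU (hJ y hy) (hJ y' hy') h5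
        have h7 : y ≠ y' := by
          rintro rfl
          rw [inter_self] at h5
          exact hyz (h5 ▸ right_mem z y : y ∈ ({z} : Set M))
        refine TRC_arc hHU ((hJ y hy).symm.trans (hJ y' hy')) h7 (hcov.trans ?_)
        refine union_subset ?_ ?_
        · rw [seg_comm z y]
          exact seg_mono h6
        · rw [seg_comm z y', seg_comm y y']
          exact seg_mono (seg_comm y y' ▸ h6)
      · refine TRC_arc hHU (hJ y' hy') hyz'.symm (hcov.trans (union_subset ?_ Subset.rfl))
        exact seg_mono h5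
      · refine TRC_arc hHU (hJ y hy) hyz.symm (hcov.trans (union_subset Subset.rfl ?_))
        exact seg_mono h5

end Pool.RY
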