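import Pool.Agent.Work.MP_36677d_ray.Interface

/-! # Block TRM (helper1): maxima of a path in one direction

The sets `K a` of the parameters `u` with `a ∈ seg (f c) (f u)` are closed, and those for the points
`a` of the path in the direction of `x` are nonempty and totally ordered by inclusion; a parameter
in all of them gives the maximum. -/

set_option autoImplicit false

open Set Filter Topology

namespace Pool.RY

open Pool.TL94

section
variable {M : Type} [MetricSpace M]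

theorem TRM_joined {f : ℝ → M} {c d u : ℝ} (hf : ContinuousOn f (Icc c d)) (hu : u ∈ Icc c d) :
    Joined (f c) (f u) := by
  have h1 : ContinuousOn (fun s : ℝ => f (c + s * (u - c))) unitInterval := by
    refine hf.comp (by fun_prop) ?_
    intro s hs
    have h2 : 0 ≤ u - c := by linarith [hu.1]
    have h3 := mul_nonneg hs.1 h2
    have h4 := mul_le_mul_of_nonneg_right hs.2 h2
    exact ⟨by linarith, by linarith [hu.2]⟩
  exact ⟨Path.ofLine h1 (by simp) (by simp)⟩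

theorem TRM_closed {f : ℝ → M} {c d : ℝ} (hf : ContinuousOn f (Icc c d)) (z a : M) :
    IsClosed {u : ℝ | u ∈ Icc c d ∧ a ∈ seg z (f u)} := by
  refine isClosed_of_closure_subset fun u hu => ?_
  have huI : u ∈ Icc c d := closure_minimal (fun w hw => hw.1) isClosed_Icc hu
  refine ⟨huI, ?_⟩
  by_contra hn
  have hne : f u ≠ a := fun h => hn (h ▸ right_mem z (f u))
  have h1 : ∀ᶠ w in 𝓝[Icc c d] u, f w ≠ a := (hf u huI).eventually_ne hne
  obtain ⟨r, hr, h2⟩ := Metric.eventually_nhds_iff.1 (eventually_nhdsWithin_iff.1 h1)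
  obtain ⟨w, hw, hwu⟩ := Metric.mem_closure_iff.1 hu r hr
  have hsub : uIcc w u ⊆ Icc c d := uIcc_subset_Icc hw.1 huI
  have hC : Cont (f '' uIcc w u) :=
    ⟨isCompact_uIcc.image_of_continuousOn (hf.mono hsub),
      isPreconnected_uIcc.image _ (hf.mono hsub)⟩
  have hx : a ∉ f '' uIcc w u := by
    rintro ⟨s, hs, hsa⟩
    refine h2 ?_ (hsub hs) hsa
    rw [Real.dist_eq] at hwu ⊢
    have h3 := abs_lt.1 hwu
    rcases mem_uIcc.1 hs with h4 | h4
    · rw [abs_lt]; constructor <;> linarith [h4.1, h4.2]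
    · rw [abs_lt]; constructor <;> linarith [h4.1, h4.2]
  exact hn ((seg_iff hC ⟨w, left_mem_uIcc, rfl⟩ ⟨u, right_mem_uIcc, rfl⟩ hx).1 hw.2)

end

theorem p_TRM (hTRA : Stmt_TRA) : Stmt_TRM := by
  intro M _ _ hHU hNT f c d hcd hf x hx hxz
  have hJ : ∀ a ∈ f '' Icc c d, Joined (f c) a := by
    rintro _ ⟨u, hu, rfl⟩
    exact TRM_joined hf hu
  obtain ⟨A, hA⟩ : ∃ A : Set M, A = {a | a ∈ f '' Icc c d ∧ seg (f c) a ∩ seg (f c) x ≠ {f c}} :=
    ⟨_, rfl⟩
  have hAmem : ∀ a, a ∈ A ↔ a ∈ f '' Icc c d ∧ seg (f c) a ∩ seg (f c) x ≠ {f c} := by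
    intro a; rw [hA]; exact Iff.rfl
  have hne : ∀ a b y : M, y ∈ seg (f c) a → y ∈ seg (f c) b → y ≠ f c →
      seg (f c) a ∩ seg (f c) b ≠ {f c} := by
    intro a b y h1 h2 h3 h4
    have h5 : y ∈ seg (f c) a ∩ seg (f c) b := ⟨h1, h2⟩
    rw [h4] at h5
    exact h3 h5
  have hxA : x ∈ A := (hAmem x).2 ⟨hx, hne x x x (right_mem _ _) (right_mem _ _) hxz⟩
  -- comparison with `x`
  have hcx : ∀ a ∈ A, a ∈ seg (f c) x ∨ x ∈ seg (f c) a := by
    intro a ha
    obtain ⟨h1, h2⟩ := (hAmem a).1 ha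
    rcases hTRA M hHU hNT (f c) a x (hJ a h1) (hJ x hx) with h | h | h
    · exact absurd h h2
    · exact Or.inl h
    · exact Or.inr h
  obtain ⟨γ, hγ⟩ := exists_arcFn (hJ x hx) (fun h => hxz h.symm)
  have htot : ∀ a ∈ A, ∀ b ∈ A, a ∈ seg (f c) b ∨ b ∈ seg (f c) a := by
    intro a ha b hb
    rcases hcx a ha with h1 | h1
    · rcases hcx b hb with h2 | h2
      · obtain ⟨s, hs0, hs1, rfl⟩ := hγ.exists_of_mem hHU h1
        obtain ⟨t, ht0, ht1, rfl⟩ := hγ.exists_of_mem hHU h2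
        rcases le_total s t with h | h
        · exact Or.inl ((hγ.mem_iff0 hHU ht0 ht1 hs0 hs1).2 h)
        · exact Or.inr ((hγ.mem_iff0 hHU hs0 hs1 ht0 ht1).2 h)
      · exact Or.inl (seg_trans h1 h2)
    · rcases hcx b hb with h2 | h2
      · exact Or.inr (seg_trans h2 h1)
      · rcases hTRA M hHU hNT (f c) a b (hJ a ((hAmem a).1 ha).1) (hJ b ((hAmem b).1 hb).1)
          with h | h | h
        · exact absurd h (hne a b x h1 h2 hxz)
        · exact Or.inl h
        · exact Or.inr h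
  have : Nonempty A := ⟨⟨x, hxA⟩⟩
  obtain ⟨u, hu⟩ := IsCompact.nonempty_iInter_of_directed_nonempty_isCompact_isClosed
    (fun a : A => {u : ℝ | u ∈ Icc c d ∧ (a : M) ∈ seg (f c) (f u)})
    (by
      rintro ⟨a, ha⟩ ⟨b, hb⟩
      rcases htot a ha b hb with h | h
      · exact ⟨⟨b, hb⟩, fun u hu => ⟨hu.1, seg_trans h hu.2⟩, Subset.rfl⟩
      · exact ⟨⟨a, ha⟩, Subset.rfl, fun u hu => ⟨hu.1, seg_trans h hu.2⟩⟩)
    (by
      rintro ⟨a, ha⟩
      obtain ⟨u, hu, hua⟩ := ((hAmem a).1 ha).1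
      exact ⟨u, hu, by rw [hua]; exact right_mem _ _⟩)
    (fun a => isCompact_Icc.of_isClosed_subset (TRM_closed hf _ _) fun u hu => hu.1)
    (fun a => TRM_closed hf _ _)
  rw [mem_iInter] at hu
  refine ⟨f u, ⟨u, (hu ⟨x, hxA⟩).1, rfl⟩, (hu ⟨x, hxA⟩).2, fun w hw hwx => ?_⟩
  exact (hu ⟨w, (hAmem w).2 ⟨hw, hwx⟩⟩).2

end Pool.RY
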