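import Pool.Agent.Work.MP_36677d_ray.B_CHD
import Pool.Agent.Work.MP_36677d_ray.B_RET
import Pool.Agent.Work.MP_36677d_ray.B_LIM
import Pool.Agent.Work.MP_36677d_ray.B_SHF
import Pool.Agent.Work.MP_36677d_ray.B_INTP
import Pool.Agent.Work.MP_36677d_ray.B_FLC
import Pool.Agent.Work.MP_36677d_ray.B_FLB
import Pool.Agent.Work.MP_36677d_ray.B_LEAF
import Pool.Agent.Work.MP_36677d_ray.B_KFM
import Pool.Agent.Work.MP_36677d_ray.B_KND
import Pool.Agent.Work.MP_36677d_ray.B_BK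
import Pool.Agent.Work.MP_36677d_ray.B_LOOP
import Pool.Agent.Work.MP_36677d_ray.B_ARCB
import Pool.Agent.Work.MP_36677d_ray.B_NOL
import Pool.Agent.Work.MP_36677d_ray.B_EXA
import Pool.Agent.Work.MP_36677d_ray.B_NOB
import Pool.Agent.Work.MP_36677d_ray.B_RAYQ
import Pool.Agent.Work.MP_36677d_ray.B_RPAR
import Pool.Agent.Work.MP_36677d_ray.B_KAP
import Pool.Agent.Work.MP_36677d_ray.B_MUC
import Pool.Agent.Work.MP_36677d_ray.B_RDD
import Pool.Agent.Work.MP_36677d_ray.B_STP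
import Pool.Agent.Work.MP_36677d_ray.B_RMX
import Pool.Agent.Work.MP_36677d_ray.B_PRM
import Pool.Agent.Work.MP_36677d_ray.B_BDN
import Pool.Agent.Work.MP_36677d_ray.B_BAS
import Pool.Agent.Work.MP_36677d_ray.B_MNR
import Pool.Agent.Work.MP_36677d_ray.B_TRA
import Pool.Agent.Work.MP_36677d_ray.B_TRB
import Pool.Agent.Work.MP_36677d_ray.B_TRM
import Pool.Agent.Work.MP_36677d_ray.B_TRC
import Pool.Agent.Work.MP_36677d_ray.B_RES1
import Pool.Agent.Work.MP_36677d_ray.B_HID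
import Pool.Agent.Work.MP_36677d_ray.B_HNL
import Pool.Agent.Work.MP_36677d_ray.B_HCP

/-! # Assembly -/

set_option autoImplicit false

namespace Pool.RY

theorem trc : Stmt_TRC := p_TRC p_TRA p_TRB (p_TRM p_TRA)
theorem leaf : Stmt_LEAF := p_LEAF p_INTP
theorem knd : Stmt_KND := p_KND (p_KFM p_INTP p_FLC p_FLB) p_SHF
theorem bk : Stmt_BK := p_BK knd p_FLB
theorem arcb : Stmt_ARCB := p_ARCB p_LIM p_SHF p_INTP p_FLB leaf bk
theorem nol : Stmt_NOL := p_NOL p_LIM p_SHF (p_LOOP leaf bk) arcb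
theorem nob : Stmt_NOB := p_NOB (p_EXA (p_RET p_CHD) p_LIM p_SHF) nol
theorem mnr : Stmt_MNR :=
  p_MNR p_RAYQ p_RPAR (p_RDD p_KAP p_MUC p_FLB) p_STP (p_PRM p_RMX) (p_BAS p_BDN) nob
theorem res1 : Stmt_RES1 := p_RES1 mnr trc
theorem hid (M : Type) [MetricSpace M] [CompactSpace M] [Nonempty M] (hT : Pool.TL94.TreeLike M) (hN : NoTriod M)
    (G : C(M × unitInterval, M × unitInterval))
    (hG : (ContinuousMap.mk (fun x : M => (G (x, 0)).1) (by fun_prop)).Homotopic (ContinuousMap.id M)) :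
    ∃ q, G q = q :=
  p_HID res1 M hT hN G hG

theorem hnl : Stmt_HNL := p_HNL p_RAYQ trc

end Pool.RY
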