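import Pool.Agent.Work.MP_36677d_ray.Interface

/-! # Block BK (helper70) -/

set_option autoImplicit false

open Set Filter Topology

namespace Pool.RY

open Pool.TL94

theorem p_BK (h1 : Stmt_KND) (h2 : Stmt_FLB) : Stmt_BK := by
  intro M _ H v e δ N D B Dm r ρ S hB hD hr hP c d γ a b σ lam hL u u' hk1 hk2
  have hu : u ∈ Icc c d := by
    rcases hk1 with ⟨h3, h4, -⟩ | ⟨h3, h4, -⟩
    · exact ⟨h3, by linarith⟩
    · exact ⟨by linarith, h4⟩
  obtain ⟨hA, hA2⟩ := (h1 M H v e δ N D B Dm r ρ S hB hD hr hP c d γ a b σ lam hL u u hu).1 hk1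
  obtain ⟨hB1, hB2⟩ := (h1 M H v e δ N D B Dm r ρ S hB hD hr hP c d γ a b σ lam hL u' u hu).2 hk2
  obtain ⟨ht, -, hadd, -⟩ := h2 M H v e δ N D (ρ u)
  have hu' : u ∈ Icc (c - B) (d + B) := ⟨by linarith [hu.1], by linarith [hu.2]⟩
  have hne : ∀ t ∈ Icc (0:ℝ) 1, H (ρ u) t ≠ ρ u → lam u t ≠ σ u := by
    intro t ht h3 h4
    apply h3
    rw [hL.lE u hu t ht, h4, ← hL.sE u hu']
  have e1 : fl v e N (ρ u) (fun _ => True) =
      fl v e N (ρ u) (fun t => S u t u) + fl v e N (ρ u) (fun t => ¬ S u t u) := by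
    refine hadd _ _ _ (fun t _ _ => ?_)
    tauto
  have e2 : fl v e N (ρ u) (fun t => S u t u) =
      fl v e N (ρ u) (fun t => S u t u ∧ lam u t < σ u) +
        fl v e N (ρ u) (fun t => S u t u ∧ σ u < lam u t) := by
    refine hadd _ _ _ (fun t ht h3 => ⟨?_, ?_⟩)
    · constructor
      · intro h4
        rcases lt_or_gt_of_ne (hne t ht h3) with h5 | h5
        · exact Or.inl ⟨h4, h5⟩
        · exact Or.inr ⟨h4, h5⟩
      · rintro (h4 | h4)
        · exact h4.1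
        · exact h4.1
    · rintro ⟨h4, h5⟩
      exact absurd (h4.2.trans h5.2) (lt_irrefl _)
  have e3 : fl v e N (ρ u) (fun t => ¬ S u t u) =
      fl v e N (ρ u) (fun t => ¬ S u t u ∧ lam u t < σ u) +
        fl v e N (ρ u) (fun t => ¬ S u t u ∧ σ u < lam u t) := by
    refine hadd _ _ _ (fun t ht h3 => ⟨?_, ?_⟩)
    · constructor
      · intro h4
        rcases lt_or_gt_of_ne (hne t ht h3) with h5 | h5
        · exact Or.inl ⟨h4, h5⟩
        · exact Or.inr ⟨h4, h5⟩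
      · rintro (h4 | h4)
        · exact h4.1
        · exact h4.1
    · rintro ⟨h4, h5⟩
      exact absurd (h4.2.trans h5.2) (lt_irrefl _)
  rw [ht, e2, e3, hA, hA2, hB1, hB2] at e1
  simp at e1

end Pool.RY
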