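import Pool.Agent.Work.MP_36677d_ray.Interface

/-! # Block CHD: the discrete chord lemma (helper63) -/

set_option autoImplicit false

open Set Filter Topology

namespace Pool.RY

open Pool.TL94

theorem CHD_walk {n : ℕ} (Γ : SimpleGraph (Fin n)) (w : ℕ → Fin n) (v : Fin n) (a b : ℕ)
    (hab : a ≤ b) :
    (∀ k, a ≤ k → k < b → w k = w (k + 1) ∨ Γ.Adj (w k) (w (k + 1))) →
    (∀ k, a ≤ k → k ≤ b → w k ≠ v) → ∃ p : Γ.Walk (w a) (w b), v ∉ p.support := by
  induction b, hab using Nat.le_induction with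
  | base =>
    intro _ h2
    refine ⟨SimpleGraph.Walk.nil, ?_⟩
    rw [SimpleGraph.Walk.support_nil, List.mem_singleton]
    exact fun h => h2 a le_rfl le_rfl h.symm
  | succ b hab ih =>
    intro h1 h2
    obtain ⟨p, hp⟩ := ih (fun k hk hk' => h1 k hk (by omega)) (fun k hk hk' => h2 k hk (by omega))
    rcases h1 b hab (Nat.lt_succ_self b) with h | h
    · refine ⟨p.copy rfl h, ?_⟩
      rw [SimpleGraph.Walk.support_copy]
      exact hp
    · refine ⟨p.concat h, ?_⟩
      rw [SimpleGraph.Walk.support_concat, List.mem_append,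
        List.mem_singleton]
      rintro (h3 | h3)
      · exact hp h3
      · exact h2 (b + 1) (by omega) le_rfl h3.symm

theorem CHD_nb {n : ℕ} {Γ : SimpleGraph (Fin n)} (hΓ : Γ.IsAcyclic) {a b v : Fin n}
    (ha : Γ.Adj a v) (hb : Γ.Adj v b) (p : Γ.Walk a b) (hp : v ∉ p.support) : a = b := by
  classical
  by_contra hne
  have hq : (SimpleGraph.Walk.cons ha (SimpleGraph.Walk.cons hb SimpleGraph.Walk.nil)).IsPath := by
    rw [SimpleGraph.Walk.isPath_def]
    simp only [SimpleGraph.Walk.support_cons, SimpleGraph.Walk.support_nil]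
    simp only [List.nodup_cons, List.mem_cons, List.not_mem_nil, or_false, not_or,
      not_false_eq_true, List.nodup_nil, and_true]
    exact ⟨⟨ha.ne, hne⟩, hb.ne⟩
  have h1 := (hΓ.subsingleton_path a b).elim ⟨_, hq⟩ p.toPath
  have h2 : v ∈ (p.toPath : Γ.Walk a b).support := by
    rw [← h1]
    simp
  exact hp (SimpleGraph.Walk.support_toPath_subset_support p h2)

theorem p_CHD : Stmt_CHD := by
  classical
  intro n Γ hΓ m h w hh hm hw
  have hex : ∃ d, 2 * h ≤ d ∧ ∃ k, k + d ≤ m ∧ w k = w (k + d) := by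
    obtain ⟨i, j, hij, he⟩ := Fintype.exists_ne_map_eq_of_card_lt
      (fun i : Fin (n + 1) => w (2 * h * i)) (by simp)
    have key : ∀ i j : Fin (n + 1), i < j → w (2 * h * i) = w (2 * h * j) →
        ∃ d, 2 * h ≤ d ∧ ∃ k, k + d ≤ m ∧ w k = w (k + d) := by
      intro i j hij he
      have h1 : (i : ℕ) < j := hij
      have h2 : (j : ℕ) ≤ n := Nat.lt_succ_iff.1 j.2
      obtain ⟨c, hc⟩ := Nat.exists_eq_add_of_lt h1
      refine ⟨2 * h * (c + 1), Nat.le_mul_of_pos_right _ (Nat.succ_pos c), 2 * h * i, ?_, ?_⟩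
      · calc 2 * h * i + 2 * h * (c + 1) = 2 * h * j := by rw [hc]; ring
          _ ≤ 2 * h * n := Nat.mul_le_mul_left _ h2
          _ ≤ m := hm
      · rw [he, hc]
        congr 1
        ring
    rcases lt_or_gt_of_ne hij with h1 | h1
    · exact key i j h1 he
    · exact key j i h1 he.symm
  obtain ⟨h1, k, hk, hwk⟩ := Nat.find_spec hex
  have hmin : ∀ d' < Nat.find hex, ∀ k', k' + d' ≤ m → w k' = w (k' + d') → d' < 2 * h := by
    intro d' hd' k' hk' hwk'
    by_contra hcon
    exact Nat.find_min hex hd' ⟨not_lt.1 hcon, k', hk', hwk'⟩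
  set d := Nat.find hex with hd
  rcases Nat.eq_or_lt_of_le h1 with h2 | h2
  · exact ⟨k, k + d, by omega, hk, hwk, by omega, by omega⟩
  · by_cases hc : ∃ c, k < c ∧ c < k + d ∧ w c = w k
    · obtain ⟨c, hc1, hc2, hc3⟩ := hc
      have h3 := hmin (c - k) (by omega) k (by omega) (by
        rw [show k + (c - k) = c by omega]; exact hc3.symm)
      have h4 := hmin (k + d - c) (by omega) c (by omega) (by
        rw [show c + (k + d - c) = k + d by omega, hc3]; exact hwk)
      by_cases h5 : h ≤ c - k
      · exact ⟨k, c, hc1, by omega, hc3.symm, h5, by omega⟩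
      · exact ⟨c, k + d, hc2, hk, hc3.trans hwk, by omega, by omega⟩
    · push Not at hc
      obtain ⟨p, hp⟩ := CHD_walk Γ w (w k) (k + 1) (k + d - 1) (by omega)
        (fun i _ hi => hw i (by omega)) (fun i hi hi' => hc i (by omega) (by omega))
      have ha : Γ.Adj (w (k + 1)) (w k) := by
        rcases hw k (by omega) with h3 | h3
        · exact absurd h3.symm (hc (k + 1) (by omega) (by omega))
        · exact h3.symm
      have hb : Γ.Adj (w k) (w (k + d - 1)) := by
        rcases hw (k + d - 1) (by omega) with h3 | h3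
        · rw [show k + d - 1 + 1 = k + d by omega, ← hwk] at h3
          exact absurd h3 (hc (k + d - 1) (by omega) (by omega))
        · rw [show k + d - 1 + 1 = k + d by omega, ← hwk] at h3
          exact h3.symm
      have h3 := CHD_nb hΓ ha hb p hp
      have h4 := hmin (d - 2) (by omega) (k + 1) (by omega) (by
        rw [show k + 1 + (d - 2) = k + d - 1 by omega]; exact h3)
      exact ⟨k + 1, k + d - 1, by omega, by omega, h3, by omega, by omega⟩

end Pool.RY
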