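import Pool.Agent.Work.MP_36677d_ray.Interface

/-! # HID: the case of a map homotopic to the identity (helper79) -/

set_option autoImplicit false

open Set Filter Topology

namespace Pool.RY

open Pool.TL94

/-- `min (2 t) 1` -/
noncomputable def HID_a (t : unitInterval) : unitInterval :=
  ⟨min (2 * (t : ℝ)) 1, le_min (mul_nonneg (by norm_num) t.2.1) zero_le_one, min_le_right _ _⟩

/-- `max (2 t - 1) 0` -/
noncomputable def HID_b (t : unitInterval) : unitInterval :=
  ⟨max (2 * (t : ℝ) - 1) 0, le_max_right _ _, max_le (by have := t.2.2; linarith) zero_le_one⟩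

/-- `(1 + s) / 2` -/
noncomputable def HID_c (s : unitInterval) : unitInterval :=
  ⟨(1 + (s : ℝ)) / 2, by have := s.2.1; linarith, by have := s.2.2; linarith⟩

theorem HID_ca : Continuous HID_a :=
  Continuous.subtype_mk (by fun_prop) _

theorem HID_cb : Continuous HID_b :=
  Continuous.subtype_mk (by fun_prop) _

theorem HID_cc : Continuous HID_c :=
  Continuous.subtype_mk (by fun_prop) _

/-- `Stmt_HID` for nonempty `M` (`Stmt_HID` as stated fails for the empty space). -/
theorem p_HID (h1 : Stmt_RES1) : ∀ (M : Type) [MetricSpace M] [CompactSpace M] [Nonempty M],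
    TreeLike M → NoTriod M → ∀ (G : C(M × unitInterval, M × unitInterval)),
    (ContinuousMap.mk (fun x : M => (G (x, 0)).1) (by fun_prop)).Homotopic (ContinuousMap.id M) →
    ∃ q, G q = q := by
  intro M _ _ hne hT hN G hG
  obtain ⟨F⟩ := hG.symm
  have hF0 : ∀ x : M, F (0, x) = x := fun x => F.apply_zero x
  have hF1 : ∀ x : M, F (1, x) = (G (x, 0)).1 := fun x => F.apply_one x
  obtain ⟨p⟩ := hne
  -- the first coordinate
  have hcont : Continuous (fun q : M × unitInterval =>
      if (q.2 : ℝ) ≤ 1 / 2 then F (HID_a q.2, q.1) else (G (q.1, HID_b q.2)).1) := by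
    refine Continuous.if_le ?_ ?_ ?_ ?_ ?_
    · exact F.continuous.comp ((HID_ca.comp continuous_snd).prodMk continuous_fst)
    · exact continuous_fst.comp
        (G.continuous.comp (continuous_fst.prodMk (HID_cb.comp continuous_snd)))
    · exact continuous_subtype_val.comp continuous_snd
    · exact continuous_const
    · rintro ⟨x, t⟩ ht
      dsimp only at ht ⊢
      have ha : HID_a t = 1 := by
        apply Subtype.ext
        change min (2 * (t : ℝ)) 1 = 1
        rw [ht]; norm_num
      have hb : HID_b t = 0 := by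
        apply Subtype.ext
        change max (2 * (t : ℝ) - 1) 0 = 0
        rw [ht]; norm_num
      rw [ha, hb]
      exact hF1 x
  have hcont2 : Continuous (fun q : M × unitInterval => HID_c (G (q.1, HID_b q.2)).2) :=
    HID_cc.comp (continuous_snd.comp
      (G.continuous.comp (continuous_fst.prodMk (HID_cb.comp continuous_snd))))
  let G' : C(M × unitInterval, M × unitInterval) :=
    ⟨fun q => (if (q.2 : ℝ) ≤ 1 / 2 then F (HID_a q.2, q.1) else (G (q.1, HID_b q.2)).1,
      HID_c (G (q.1, HID_b q.2)).2), hcont.prodMk hcont2⟩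
  have hG' : ∀ (x : M) (t : unitInterval), G' (x, t) =
      (if (t : ℝ) ≤ 1 / 2 then F (HID_a t, x) else (G (x, HID_b t)).1,
        HID_c (G (x, HID_b t)).2) := fun x t => rfl
  obtain ⟨⟨x, t⟩, hq⟩ := h1 M hT hN G' p (by
    intro x _
    refine ⟨0, ?_⟩
    rw [hG']
    have ha : HID_a 0 = 0 := by
      apply Subtype.ext
      change min (2 * (0 : ℝ)) 1 = 0
      norm_num
    dsimp only
    rw [if_pos (by change (0 : ℝ) ≤ 1 / 2; norm_num), ha]
    exact hF0 x)
  rw [hG', Prod.mk.injEq] at hq
  obtain ⟨hq1, hq2⟩ := hq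
  refine ⟨(x, HID_b t), ?_⟩
  -- the second coordinate
  have h2 : (1 + ((G (x, HID_b t)).2 : ℝ)) / 2 = (t : ℝ) := congrArg Subtype.val hq2
  have h3 : (0 : ℝ) ≤ ((G (x, HID_b t)).2 : ℝ) := (G (x, HID_b t)).2.2.1
  have h4 : (G (x, HID_b t)).2 = HID_b t := by
    apply Subtype.ext
    change ((G (x, HID_b t)).2 : ℝ) = max (2 * (t : ℝ) - 1) 0
    rw [max_eq_left (by linarith)]
    linarith
  have h5 : (G (x, HID_b t)).1 = x := by
    by_cases ht : (t : ℝ) ≤ 1 / 2
    · have ht2 : (t : ℝ) = 1 / 2 := le_antisymm ht (by linarith)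
      rw [if_pos ht] at hq1
      have ha : HID_a t = 1 := by
        apply Subtype.ext
        change min (2 * (t : ℝ)) 1 = 1
        rw [ht2]; norm_num
      have hb : HID_b t = 0 := by
        apply Subtype.ext
        change max (2 * (t : ℝ) - 1) 0 = 0
        rw [ht2]; norm_num
      rw [ha, hF1] at hq1
      rw [hb]
      exact hq1
    · rw [if_neg ht] at hq1
      exact hq1
  exact Prod.ext h5 h4

end Pool.RY
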