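import Pool.Agent.Work.MP_36677d_ray.Interface

/-! # Block STP (helper20) -/

set_option autoImplicit false

open Set Filter Topology

namespace Pool.RY

open Pool.TL94

theorem p_STP : Stmt_STP := by
  intro M _ H δ r μ R
  -- the maximum
  have hmax : ∀ s : ℝ, 0 ≤ s → ∃ y : ℝ, (∀ x : ℝ, 0 ≤ x → x ≤ s → ∀ t ∈ Icc (0:ℝ) 1, μ x t ≤ y) ∧
      ∃ x : ℝ, 0 ≤ x ∧ x ≤ s ∧ ∃ t ∈ Icc (0:ℝ) 1, μ x t = y := by
    intro s hs
    have hK : IsCompact (Icc (0:ℝ) s ×ˢ Icc (0:ℝ) 1) := isCompact_Icc.prod isCompact_Icc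
    have hne : (Icc (0:ℝ) s ×ˢ Icc (0:ℝ) 1).Nonempty :=
      ⟨(0, 0), ⟨⟨le_rfl, hs⟩, ⟨le_rfl, zero_le_one⟩⟩⟩
    have hC : ContinuousOn (fun q : ℝ × ℝ => μ q.1 q.2) (Icc (0:ℝ) s ×ˢ Icc (0:ℝ) 1) :=
      R.mC.mono (prod_mono (fun x hx => hx.1) subset_rfl)
    obtain ⟨⟨x0, t0⟩, h0, h1⟩ := hK.exists_isMaxOn hne hC
    refine ⟨μ x0 t0, fun x hx0 hxs t ht => ?_, x0, h0.1.1, h0.1.2, t0, h0.2, rfl⟩
    exact h1 (show (x, t) ∈ Icc (0:ℝ) s ×ˢ Icc (0:ℝ) 1 from ⟨⟨hx0, hxs⟩, ht⟩)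
  choose! Y hY1 hY2 using hmax
  have hYlt : ∀ s : ℝ, 0 < s → s < Y s := by
    intro s hs
    obtain ⟨t, ht, h1, -⟩ := R.m3 s hs
    exact h1.trans_le (hY1 s hs.le s hs.le le_rfl t ht)
  let s : ℕ → ℝ := fun n => Nat.rec 1 (fun _ x => Y x) n
  have hs0 : s 0 = 1 := rfl
  have hs1 : ∀ j, s (j + 1) = Y (s j) := fun _ => rfl
  have hspos : ∀ j, 0 < s j := by
    intro j
    induction j with
    | zero => rw [hs0]; exact one_pos
    | succ j ih => rw [hs1]; exact ih.trans (hYlt _ ih)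
  have hlt : ∀ j, s j < s (j + 1) := fun j => by rw [hs1]; exact hYlt _ (hspos j)
  have hmono : StrictMono s := strictMono_nat_of_lt_succ hlt
  refine ⟨s, hs0, hlt, ?_, ?_, ?_⟩
  · rcases tendsto_atTop_of_monotone hmono.monotone with h | ⟨S, hS⟩
    · exact h
    · exfalso
      have hle : ∀ j, s j ≤ S := fun j => hmono.monotone.ge_of_tendsto hS j
      have hSpos : 0 < S := (hspos 0).trans_le (hle 0)
      obtain ⟨t, ht, h1, -⟩ := R.m3 S hSpos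
      have hC : ContinuousWithinAt (fun x : ℝ => μ x t) (Ici 0) S := by
        have h2 : ContinuousWithinAt (fun q : ℝ × ℝ => μ q.1 q.2) (Ici 0 ×ˢ Icc (0:ℝ) 1) (S, t) :=
          R.mC (S, t) ⟨hSpos.le, ht⟩
        exact h2.comp (f := fun x : ℝ => (x, t)) (by fun_prop)
          (fun x hx => ⟨hx, ht⟩)
      have hT : Tendsto (fun j => μ (s j) t) atTop (𝓝 (μ S t)) := by
        refine hC.tendsto.comp ?_
        exact tendsto_nhdsWithin_iff.2 ⟨hS, Eventually.of_forall fun j => (hspos j).le⟩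
      obtain ⟨j, hj⟩ := (hT.eventually (lt_mem_nhds h1)).exists
      have h3 : μ (s j) t ≤ s (j + 1) := by
        rw [hs1]; exact hY1 _ (hspos j).le _ (hspos j).le le_rfl t ht
      linarith [hle (j + 1)]
  · intro j x hx0 hxs t ht
    rw [hs1]
    exact hY1 _ (hspos j).le x hx0 hxs t ht
  · intro j
    rw [hs1]
    exact hY2 _ (hspos j).le

end Pool.RY
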