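import Pool.Agent.Work.MP_36677d_gt_h94.Final

/-! # MP_36677d_gt: maps of `M × I` whose tracks pass through their starting points; definitions

Complete proof: newest note of helper22 on MP_36677d_gt.  Library: helper94's `Pool.TL94` (`seg`, `Cont`, `HU`,
`ArcFn`, `exists_arcFn`, `Dat`, `exists_dat`, `par`, `par_eq`, `par_eq_sum`, `par_one`, `Dat.false`, ...). -/

set_option autoImplicit false

open Set Filter Topology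

namespace Pool.RY

open Pool.TL94

/-- no simple triod: no three arcs with a common end point which are disjoint otherwise -/
def NoTriod (M : Type) [MetricSpace M] : Prop :=
  ¬ ∃ (f g h : ℝ → M) (z a b c : M), ArcFn f z a ∧ ArcFn g z b ∧ ArcFn h z c ∧
    f '' Icc 0 1 ∩ g '' Icc 0 1 = {z} ∧ f '' Icc 0 1 ∩ h '' Icc 0 1 = {z} ∧
    g '' Icc 0 1 ∩ h '' Icc 0 1 = {z}

/-- every path is constant or lies in an arc -/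
def LinP (M : Type) [MetricSpace M] : Prop :=
  ∀ (f : ℝ → M) (c d : ℝ), c ≤ d → ContinuousOn f (Icc c d) →
    (∃ x, ∀ u ∈ Icc c d, f u = x) ∨
    ∃ (γ : ℝ → M) (a b : M), ArcFn γ a b ∧ ∀ u ∈ Icc c d, f u ∈ γ '' Icc 0 1

/-- positive on the positive numbers -/
def Pos (D : ℝ → ℝ) : Prop := ∀ ε : ℝ, 0 < ε → 0 < D ε

section
variable {M : Type} [MetricSpace M]

/-- The class of paths `ρ` together with a predicate `S`; `S p t u` means: `H (ρ p) t` lies beyond `ρ u` on the path.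
All conditions are required for parameters in `X` only. -/
structure Pth (H : M → ℝ → M) (B : ℝ) (D r : ℝ → ℝ) (X : Set ℝ) (ρ : ℝ → M)
    (S : ℝ → ℝ → ℝ → Prop) : Prop where
  mod : ∀ ε : ℝ, 0 < ε → ∀ p ∈ X, ∀ p' ∈ X, |p - p'| ≤ D ε → dist (ρ p) (ρ p') ≤ ε
  loc : ∀ c : ℝ, 0 < c → ∀ p ∈ X, ∀ p' ∈ X, ∀ u ∈ X, ∀ u' ∈ X, ∀ t ∈ Icc (0:ℝ) 1,
    ∀ t' ∈ Icc (0:ℝ) 1, c < dist (H (ρ p) t) (ρ u) → |p - p'| ≤ r c → |t - t'| ≤ r c →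
    |u - u'| ≤ r c → (S p t u ↔ S p' t' u')
  up : ∀ p ∈ X, ∀ u ∈ X, ∀ t ∈ Icc (0:ℝ) 1, H (ρ p) t ≠ ρ u → p + B ≤ u → ¬ S p t u
  dn : ∀ p ∈ X, ∀ u ∈ X, ∀ t ∈ Icc (0:ℝ) 1, H (ρ p) t ≠ ρ u → u ≤ p - B → S p t u

/-- the parity of a predicate over the point `x` -/
noncomputable def fl (v : M → ℝ → ℝ) (e : ℝ) (N : ℕ) (x : M) (V : ℝ → Prop) : ZMod 2 :=
  par e (fun i => v x ((i : ℝ) / (N : ℝ))) (fun i => V ((i : ℝ) / (N : ℝ))) N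

/-- `V` is locally constant where `H (ρ p) t ≠ ρ p`, `p ∈ [c, d]` -/
def LocW (H : M → ℝ → M) (ρ : ℝ → M) (c d : ℝ) (V : ℝ → ℝ → Prop) : Prop :=
  ∀ p ∈ Icc c d, ∀ t ∈ Icc (0:ℝ) 1, H (ρ p) t ≠ ρ p → ∃ η : ℝ, 0 < η ∧
    ∀ p' ∈ Icc c d, ∀ t' ∈ Icc (0:ℝ) 1, |p' - p| < η → |t' - t| < η → (V p' t' ↔ V p t)

/-- leaf coordinates `σ` of `ρ` and `lam` of `H (ρ p) t` on the window `[c, d]` -/
structure Leaf (H : M → ℝ → M) (ρ : ℝ → M) (B c d : ℝ) (γ : ℝ → M) (a b : M) (σ : ℝ → ℝ)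
    (lam : ℝ → ℝ → ℝ) : Prop where
  arc : ArcFn γ a b
  sI : ∀ p ∈ Icc (c - B) (d + B), σ p ∈ Icc (0:ℝ) 1
  sC : ContinuousOn σ (Icc (c - B) (d + B))
  sE : ∀ p ∈ Icc (c - B) (d + B), ρ p = γ (σ p)
  lI : ∀ p ∈ Icc c d, ∀ t ∈ Icc (0:ℝ) 1, lam p t ∈ Icc (0:ℝ) 1
  lC : ContinuousOn (fun q : ℝ × ℝ => lam q.1 q.2) (Icc c d ×ˢ Icc (0:ℝ) 1)
  lE : ∀ p ∈ Icc c d, ∀ t ∈ Icc (0:ℝ) 1, H (ρ p) t = γ (lam p t)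

/-- kind I: forward minimum or backward maximum of `σ` at `u` -/
def Kind1 (B c d : ℝ) (σ : ℝ → ℝ) (u : ℝ) : Prop :=
  (c ≤ u ∧ u + B ≤ d ∧ ∀ q ∈ Icc u (u + B), σ u ≤ σ q) ∨
  (c ≤ u - B ∧ u ≤ d ∧ ∀ q ∈ Icc (u - B) u, σ q ≤ σ u)

/-- kind II: forward maximum or backward minimum of `σ` at `u` -/
def Kind2 (B c d : ℝ) (σ : ℝ → ℝ) (u : ℝ) : Prop :=
  (c ≤ u ∧ u + B ≤ d ∧ ∀ q ∈ Icc u (u + B), σ q ≤ σ u) ∨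
  (c ≤ u - B ∧ u ≤ d ∧ ∀ q ∈ Icc (u - B) u, σ u ≤ σ q)

/-- an unbounded injective ray `r` from `p` with parity one at all its points -/
structure Ray (H : M → ℝ → M) (v : M → ℝ → ℝ) (e : ℝ) (N : ℕ) (p : M) (r : ℝ → M) : Prop where
  cont : ContinuousOn r (Ici 0)
  inj : InjOn r (Ici 0)
  zero : r 0 = p
  par1 : ∀ s : ℝ, 0 ≤ s → pa H v e N (r s) (Bey p (r s)) = 1
  unb : ∀ w, Joined p w → ∃ s : ℝ, 0 ≤ s ∧ r s ∉ seg p w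

/-- real data of the map along the ray: `μ s t` is the coordinate of `H (r s) t` -/
structure RD (H : M → ℝ → M) (δ : ℝ) (r : ℝ → M) (μ : ℝ → ℝ → ℝ) : Prop where
  rC : ContinuousOn r (Ici 0)
  mC : ContinuousOn (fun q : ℝ × ℝ => μ q.1 q.2) (Ici 0 ×ˢ Icc (0:ℝ) 1)
  m0 : ∀ s : ℝ, 0 ≤ s → ∀ t ∈ Icc (0:ℝ) 1, 0 ≤ μ s t
  m2 : ∀ s : ℝ, 0 ≤ s → ∀ t ∈ Icc (0:ℝ) 1, 0 < μ s t → r (μ s t) = H (r s) t
  m3 : ∀ s : ℝ, 0 < s → ∃ t ∈ Icc (0:ℝ) 1, s < μ s t ∧ δ < dist (r (μ s t)) (r s)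
  m4 : ∀ s : ℝ, 0 ≤ s → ∃ t ∈ Icc (0:ℝ) 1, μ s t = s

/-- the sequence of maximal steps -/
structure Stp (μ : ℝ → ℝ → ℝ) (s : ℕ → ℝ) : Prop where
  s0 : s 0 = 1
  lt : ∀ j, s j < s (j + 1)
  top : Tendsto s atTop atTop
  mx : ∀ j, ∀ x : ℝ, 0 ≤ x → x ≤ s j → ∀ t ∈ Icc (0:ℝ) 1, μ x t ≤ s (j + 1)
  at' : ∀ j, ∃ x : ℝ, 0 ≤ x ∧ x ≤ s j ∧ ∃ t ∈ Icc (0:ℝ) 1, μ x t = s (j + 1)

/-- the monotone parametrisation -/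
structure Prm (r : ℝ → M) (s : ℕ → ℝ) (D : ℝ → ℝ) (P : ℝ → ℝ) : Prop where
  cont : ContinuousOn P (Ici 0)
  mono : MonotoneOn P (Ici 0)
  int : ∀ j : ℕ, P (j : ℝ) = s j
  mod : ∀ ε : ℝ, 0 < ε → ∀ p : ℝ, 0 ≤ p → ∀ p' : ℝ, 0 ≤ p' → |p - p'| ≤ D ε →
    dist (r (P p)) (r (P p')) ≤ ε

end

end Pool.RY
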