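import Pool.Agent.Work.MP_36677d_ray.All

/-! # The final theorems -/

set_option autoImplicit false

namespace Pool.RY

theorem noTriod_of (M : Type) [MetricSpace M]
    (no_triod : ¬ ∃ f g h : C(unitInterval, M), Function.Injective f ∧ Function.Injective g ∧
      Function.Injective h ∧ f 0 = g 0 ∧ f 0 = h 0 ∧ Set.range f ∩ Set.range g = {f 0} ∧
      Set.range f ∩ Set.range h = {f 0} ∧ Set.range g ∩ Set.range h = {f 0}) : NoTriod M := by
  rintro ⟨f, g, h, z, a, b, c, hf, hg, hh, h1, h2, h3⟩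
  have key : ∀ (f : ℝ → M) (a : M), Pool.TL94.ArcFn f z a →
      ∃ F : C(unitInterval, M), Function.Injective F ∧ F 0 = z ∧ Set.range F = f '' Set.Icc 0 1 := by
    intro f a hf
    refine ⟨⟨fun t => f t.1, ?_⟩, ?_, ?_, ?_⟩
    · exact continuousOn_iff_continuous_restrict.1 hf.cont
    · intro s t hst
      exact Subtype.ext (hf.inj s.2 t.2 hst)
    · exact hf.zero
    · ext x
      constructor
      · rintro ⟨t, rfl⟩
        exact ⟨t.1, t.2, rfl⟩
      · rintro ⟨t, ht, rfl⟩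
        exact ⟨⟨t, ht⟩, rfl⟩
  obtain ⟨F, hF1, hF2, hF3⟩ := key f a hf
  obtain ⟨G, hG1, hG2, hG3⟩ := key g b hg
  obtain ⟨K, hK1, hK2, hK3⟩ := key h c hh
  refine no_triod ⟨F, G, K, hF1, hG1, hK1, by rw [hF2, hG2], by rw [hF2, hK2], ?_, ?_, ?_⟩
  · rw [hF3, hG3, hF2, h1]
  · rw [hF3, hK3, hF2, h2]
  · rw [hG3, hK3, hF2, h3]

end Pool.RY
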