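import Pool.Agent.Work.MP_36677d_ray.Defs

/-! # MP_36677d_gt, tracks through their starting points: statements of the blocks

Throughout `H` is continuous on `M × ℝ` (in the application `H x t = (G (x, projIcc t)).1`). -/

set_option autoImplicit false

open Set Filter Topology

namespace Pool.RY

open Pool.TL94

/-! ## A. Walks and returns -/

/-- CHD (discrete chord lemma). Pigeonhole on `w 0, w (2h), ..., w (2hn)` gives `k < l ≤ m` with `w k = w l`,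
`2h ≤ l - k`; take such a pair with `l - k` minimal. If `l - k = 2h` done. Otherwise, if `w c = w k` for some
`k < c < l`, both parts have length `< 2h` (minimality) and the longer one has length `≥ h`. If not, `w (k+1)` and
`w (l-1)` are neighbours of `w k`, joined by a walk avoiding `w k`, hence equal (acyclic: uniqueness of paths), and
`(k+1, l-1)` has length `l - k - 2 ≥ 2h - 1 ≥ h`, and `< 2h` by minimality. -/
def Stmt_CHD : Prop := ∀ (n : ℕ) (Γ : SimpleGraph (Fin n)), Γ.IsAcyclic → ∀ (m h : ℕ) (w : ℕ → Fin n),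
  1 ≤ h → 2 * h * n ≤ m → (∀ k < m, w k = w (k + 1) ∨ Γ.Adj (w k) (w (k + 1))) →
  ∃ k l, k < l ∧ l ≤ m ∧ w k = w l ∧ h ≤ l - k ∧ l - k ≤ 2 * h

/-- RET (returns). Cover of mesh `< ε` with `k` elements; on `[T, T + X]`, `X` large compared with `k n`, take a
subdivision of step `τ ≤ 1/2` such that the image of every small interval lies in an element of the cover
(Lebesgue number, `lebesgue_number_lemma_of_metric` for the preimages under the uniformly continuous `f`), which gives a walk in the nerve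
(`SimpleGraph.fromRel`). CHD with `h = ⌈n/τ⌉`; `w k = w l` gives `dist < ε` (`Metric.dist_le_diam_of_mem`). -/
def Stmt_RET : Prop := ∀ (M : Type) [MetricSpace M] [CompactSpace M], TreeLike M →
  ∀ (f : ℝ → M) (T0 : ℝ), ContinuousOn f (Ici T0) → ∀ (n : ℕ) (ε T : ℝ), 1 ≤ n → 0 < ε → T0 ≤ T →
  ∃ a b, T ≤ a ∧ a + n ≤ b ∧ b ≤ a + 3 * n ∧ dist (f a) (f b) < ε

/-! ## B. The class `Pth` -/

/-- LIM (ultrafilter limits). `ρ' p` is the limit of `ρ j p` along `U` (`Ultrafilter.le_nhds_lim` or compactness of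
`univ`: `isCompact_univ.ultrafilter_le_nhds`), `S' p t u := ∀ᶠ j in U, S j p t u`. (mod) closed condition. (loc):
if `c < dist (H (ρ' p) t) (ρ' u)` then the same holds for `ρ j` for `U`-almost all `j` (continuity of `H`), so
`S j p t u ↔ S j p' t' u'` for almost all `j`; (up), (dn): distance positive for almost all `j`,
`Ultrafilter.eventually_not`. -/
def Stmt_LIM : Prop := ∀ (M : Type) [MetricSpace M] [CompactSpace M] (H : M → ℝ → M),
  Continuous (fun q : M × ℝ => H q.1 q.2) → ∀ (B : ℝ) (D r : ℝ → ℝ) (X : ℕ → Set ℝ)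
  (ρ : ℕ → ℝ → M) (S : ℕ → ℝ → ℝ → ℝ → Prop), (∀ L : ℝ, ∀ᶠ j in atTop, Icc (-L) L ⊆ X j) →
  (∀ j, Pth H B D r (X j) (ρ j) (S j)) → ∀ U : Ultrafilter ℕ, (U : Filter ℕ) ≤ atTop →
  ∃ ρ' S', Pth H B D r univ ρ' S' ∧ ∀ p, Tendsto (fun j => ρ j p) U (𝓝 (ρ' p))

/-- SHF (translation and reversal) -/
def Stmt_SHF : Prop := ∀ (M : Type) [MetricSpace M] (H : M → ℝ → M) (B : ℝ) (D r : ℝ → ℝ)
  (X : Set ℝ) (ρ : ℝ → M) (S : ℝ → ℝ → ℝ → Prop), Pth H B D r X ρ S →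
  (∀ a : ℝ, Pth H B D r {p | p + a ∈ X} (fun p => ρ (p + a)) (fun p t u => S (p + a) t (u + a))) ∧
  Pth H B D r {p | -p ∈ X} (fun p => ρ (-p)) (fun p t u => ¬ S (-p) t (-u))

/-- INTP. If `H (ρ p) t ≠ ρ u` for all `u` in a compact interval then `S p t u` is constant there (`dist ≥ c` by
compactness, (loc) with steps `r (c / 2)`); compare with (up) and (dn). -/
def Stmt_INTP : Prop := ∀ (M : Type) [MetricSpace M] (H : M → ℝ → M) (B : ℝ) (D r : ℝ → ℝ) (ρ : ℝ → M)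
  (S : ℝ → ℝ → ℝ → Prop), 0 < B → Pos D → Pos r → Pth H B D r univ ρ S → ∀ (p : ℝ), ∀ t ∈ Icc (0:ℝ) 1,
  (∃ q ∈ Icc (p - B) (p + B), ρ q = H (ρ p) t) ∧
  (H (ρ p) t ≠ ρ p → S p t p → ∃ q ∈ Ioc p (p + B), ρ q = H (ρ p) t) ∧
  (H (ρ p) t ≠ ρ p → ¬ S p t p → ∃ q ∈ Ico (p - B) p, ρ q = H (ρ p) t)

/-! ## C. Parities -/

/-- FLC (constancy). Locally: if `dist (ρ p) (ρ p') ≤ δ` for all `p'` in a small interval around `p`, then `par_eq` with
`v = v (ρ p) (i/N)`, `v' = v (ρ p') (i/N)` (fields `v0 v1 vv`; see `Dat.cmp`). If `|v (ρ p) (i/N)| < e` then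
`H (ρ p'') t'' ≠ ρ p''` for `p''` between and `t'' ∈ [i/N, (i+1)/N]` (field `av`), and a predicate which is locally
constant on a segment on which `H (ρ p) t ≠ ρ p` is constant on it (connectedness). Then constant on `[c, d]`
(`IsPreconnected`, locally constant). -/
def Stmt_FLC : Prop := ∀ (M : Type) [MetricSpace M] (H : M → ℝ → M) (v : M → ℝ → ℝ) (e δ : ℝ) (N : ℕ),
  Dat H v e δ N → ∀ (ρ : ℝ → M) (c d : ℝ), ContinuousOn ρ (Icc c d) → ∀ V : ℝ → ℝ → Prop,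
  LocW H ρ c d V → ∀ p ∈ Icc c d, ∀ p' ∈ Icc c d, fl v e N (ρ p) (V p) = fl v e N (ρ p') (V p')

/-- FLB (additivity), from `par_eq_sum` and `par_one`: for `j ∈ chg e v N` the middle index has `|v| < e`, so
`H x t ≠ x` there (field `av` with `x = x' = x''`). -/
def Stmt_FLB : Prop := ∀ (M : Type) [MetricSpace M] (H : M → ℝ → M) (v : M → ℝ → ℝ) (e δ : ℝ) (N : ℕ),
  Dat H v e δ N → ∀ x : M, fl v e N x (fun _ => True) = 1 ∧
  (∀ V : ℝ → Prop, (∀ t ∈ Icc (0:ℝ) 1, H x t ≠ x → ¬ V t) → fl v e N x V = 0) ∧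
  (∀ V V1 V2 : ℝ → Prop, (∀ t ∈ Icc (0:ℝ) 1, H x t ≠ x → (V t ↔ V1 t ∨ V2 t) ∧ ¬ (V1 t ∧ V2 t)) →
    fl v e N x V = fl v e N x V1 + fl v e N x V2) ∧
  (∀ V : ℝ → Prop, fl v e N x V = 1 → ∃ t ∈ Icc (0:ℝ) 1, V t ∧ δ < dist (H x t) x)

/-- LEAF (leaf coordinates): `γ` is a homeomorphism of `[0, 1]` onto its image; `H (ρ p) t` lies in the image by INTP. -/
def Stmt_LEAF : Prop := ∀ (M : Type) [MetricSpace M] (H : M → ℝ → M),
  Continuous (fun q : M × ℝ => H q.1 q.2) → ∀ (B : ℝ) (D r : ℝ → ℝ) (ρ : ℝ → M)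
  (S : ℝ → ℝ → ℝ → Prop), 0 < B → Pos D → Pos r → Pth H B D r univ ρ S →
  ∀ (c d : ℝ) (γ : ℝ → M) (a b : M), ArcFn γ a b →
  (∀ p ∈ Icc (c - B) (d + B), ρ p ∈ γ '' Icc 0 1) → ∃ σ lam, Leaf H ρ B c d γ a b σ lam

/-- KFM (forward minimum). (1) over `u` there is no `t` with `H (ρ u) t ≠ ρ u`, `S u t u`, `lam u t < σ u` (INTP gives
`q ∈ (u, u+B]`, `σ q = lam u t`). So the first parity vanishes at `u`, hence everywhere (FLC; the predicate is
locally constant by (loc) and continuity). (2) `V p t := ¬ S p t p ∧ σ p < lam p t` is the disjoint union of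
`V'' p t := V p t ∧ (u + B < p ∨ (u < p ∧ p ≤ u + B ∧ S p t u))` and `V' := V ∧ ¬ (..)`, both `LocW`: for
`u < p ≤ u + B` and `V p t` one has `σ u ≤ σ p < lam p t`, so `H (ρ p) t ≠ ρ u` and `S · · u` is locally constant;
at `p = u`: `¬ S u t u`; at `p = u + B`: (dn) gives `S p t u`. `V''` is empty over `u`, `V'` over `u + B`. -/
def Stmt_KFM : Prop := ∀ (M : Type) [MetricSpace M] (H : M → ℝ → M) (v : M → ℝ → ℝ) (e δ : ℝ) (N : ℕ),
  Dat H v e δ N → ∀ (B : ℝ) (D r : ℝ → ℝ) (ρ : ℝ → M) (S : ℝ → ℝ → ℝ → Prop), 0 < B → Pos D →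
  Pos r → Pth H B D r univ ρ S → ∀ (c d : ℝ) (γ : ℝ → M) (a b : M) (σ : ℝ → ℝ) (lam : ℝ → ℝ → ℝ),
  Leaf H ρ B c d γ a b σ lam → ∀ u : ℝ, c ≤ u → u + B ≤ d → (∀ q ∈ Icc u (u + B), σ u ≤ σ q) →
  ∀ p ∈ Icc c d, fl v e N (ρ p) (fun t => S p t p ∧ lam p t < σ p) = 0 ∧
    fl v e N (ρ p) (fun t => ¬ S p t p ∧ σ p < lam p t) = 0

/-- KND: both kinds, from KFM by the symmetries `γ ↦ γ (1 - ·)`, `σ ↦ 1 - σ`, `lam ↦ 1 - lam` and
`ρ ↦ ρ (-·)` (SHF), window `[-d, -c]`, `σ (-·)`, `lam (-·) ·`, `S ↦ ¬ S (-·) t (-·)`. -/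
def Stmt_KND : Prop := ∀ (M : Type) [MetricSpace M] (H : M → ℝ → M) (v : M → ℝ → ℝ) (e δ : ℝ) (N : ℕ),
  Dat H v e δ N → ∀ (B : ℝ) (D r : ℝ → ℝ) (ρ : ℝ → M) (S : ℝ → ℝ → ℝ → Prop), 0 < B → Pos D →
  Pos r → Pth H B D r univ ρ S → ∀ (c d : ℝ) (γ : ℝ → M) (a b : M) (σ : ℝ → ℝ) (lam : ℝ → ℝ → ℝ),
  Leaf H ρ B c d γ a b σ lam → ∀ u : ℝ, ∀ p ∈ Icc c d,
  (Kind1 B c d σ u → fl v e N (ρ p) (fun t => S p t p ∧ lam p t < σ p) = 0 ∧
    fl v e N (ρ p) (fun t => ¬ S p t p ∧ σ p < lam p t) = 0) ∧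
  (Kind2 B c d σ u → fl v e N (ρ p) (fun t => S p t p ∧ σ p < lam p t) = 0 ∧
    fl v e N (ρ p) (fun t => ¬ S p t p ∧ lam p t < σ p) = 0)

/-- BK: both kinds are impossible: by FLB the four parities of KND sum up to one (`lam p t ≠ σ p` if
`H (ρ p) t ≠ ρ p`). -/
def Stmt_BK : Prop := ∀ (M : Type) [MetricSpace M] (H : M → ℝ → M) (v : M → ℝ → ℝ) (e δ : ℝ) (N : ℕ),
  Dat H v e δ N → ∀ (B : ℝ) (D r : ℝ → ℝ) (ρ : ℝ → M) (S : ℝ → ℝ → ℝ → Prop), 0 < B → Pos D →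
  Pos r → Pth H B D r univ ρ S → ∀ (c d : ℝ) (γ : ℝ → M) (a b : M) (σ : ℝ → ℝ) (lam : ℝ → ℝ → ℝ),
  Leaf H ρ B c d γ a b σ lam → ∀ u u' : ℝ, Kind1 B c d σ u → Kind2 B c d σ u' → False

/-- LOOP. `LinP` on `[a - B, b + B]`; constant: clear. Otherwise LEAF with the window `[a, b]`; let `σ` have its maximum
over `[a, b]` at `x`, its minimum at `y`. `x` is Kind2 if `x + B ≤ b`, Kind1 if `a ≤ x - B`; `y` is Kind1 if
`y + B ≤ b`, Kind2 if `a ≤ y - B`. By BK one of `x, y` is in `[a, a + B)` and the other one in `(b - B, b]`. Since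
`σ a = σ b`, every value of `σ` on `[a, b]` is attained on `[a, a + B]` or on `[b - B, b]`
(intermediate values). -/
def Stmt_LOOP : Prop := ∀ (M : Type) [MetricSpace M] (H : M → ℝ → M) (v : M → ℝ → ℝ) (e δ : ℝ) (N : ℕ),
  Dat H v e δ N → LinP M → ∀ (B : ℝ) (D r : ℝ → ℝ) (ρ : ℝ → M) (S : ℝ → ℝ → ℝ → Prop), 0 < B →
  Pos D → Pos r → Pth H B D r univ ρ S → ∀ a b : ℝ, a + 2 * B ≤ b → ρ a = ρ b →
  ∀ p ∈ Icc a b, ρ p ∈ ρ '' Icc a (a + B) ∪ ρ '' Icc (b - B) b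

/-- ARCB: no member of the class in an arc or a point. Constant: `H x t = x` for all `t` (INTP), contradiction to FLB
(fl True = 1). Arc: `σ : ℝ → [0, 1]` with `ρ = γ ∘ σ`, `s` its supremum, `σ (p n) → s`; LIM for the translates by `p n`
(SHF): `ρ' 0 = γ s`, `ρ' p ∈ γ '' [0, s]` (closed). LEAF for `ρ'`, window `[-B, B]`: `0` is of both kinds
(backward maximum, forward maximum): BK. -/
def Stmt_ARCB : Prop := ∀ (M : Type) [MetricSpace M] [CompactSpace M] (H : M → ℝ → M) (v : M → ℝ → ℝ)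
  (e δ : ℝ) (N : ℕ), Dat H v e δ N → ∀ (B : ℝ) (D r : ℝ → ℝ) (ρ : ℝ → M)
  (S : ℝ → ℝ → ℝ → Prop), 0 < B → Pos D → Pos r → Pth H B D r univ ρ S →
  ((∃ x, ∀ p, ρ p = x) ∨ ∃ (γ : ℝ → M) (a b : M), ArcFn γ a b ∧ ∀ p, ρ p ∈ γ '' Icc 0 1) → False

/-- NOL: no long loops. Ultrafilter `U = hyperfilter ℕ`; LIM for the translates by `a n`, `b n`, `(a n + b n)/2` (SHF):
`ρA, ρB, ρM`. `ρA 0 = ρB 0`. By LOOP `ρM p ∈ ρA '' [0, B] ∪ ρB '' [-B, 0]` for all `p` (parameters `x n ∈ [0, B]`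
converge along `U`; (mod)). This union is the image of the path `ξ x = ρB x` (`x ≤ 0`), `ρA x` (`x ≥ 0`) on
`[-B, B]`; `LinP` and ARCB. -/
def Stmt_NOL : Prop := ∀ (M : Type) [MetricSpace M] [CompactSpace M] (H : M → ℝ → M) (v : M → ℝ → ℝ)
  (e δ : ℝ) (N : ℕ), Dat H v e δ N → LinP M → ∀ (B : ℝ) (D r : ℝ → ℝ), 0 < B → Pos D → Pos r →
  ∀ (ρ : ℕ → ℝ → M) (S : ℕ → ℝ → ℝ → ℝ → Prop) (a b : ℕ → ℝ),
  (∀ n, Pth H B D r univ (ρ n) (S n)) → (∀ n, a n + n ≤ b n) → (∀ n, ρ n (a n) = ρ n (b n)) → False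

/-- EXA: exact returns. RET with `ε = 1/(k+1)`, `T = T0 + k`: `a k, b k`; LIM for the translates by `a k` (SHF; the
domains `{p | p + a k ∈ Ici T0}` contain `[-L, L]` for `k ≥ L`); `b` = limit of `b k - a k` along `U`. -/
def Stmt_EXA : Prop := ∀ (M : Type) [MetricSpace M] [CompactSpace M] (H : M → ℝ → M),
  Continuous (fun q : M × ℝ => H q.1 q.2) → TreeLike M → ∀ (B : ℝ) (D r : ℝ → ℝ), 0 < B → Pos D →
  Pos r → ∀ (T0 : ℝ) (ρ0 : ℝ → M) (S0 : ℝ → ℝ → ℝ → Prop), Pth H B D r (Ici T0) ρ0 S0 →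
  ∀ n : ℕ, 1 ≤ n → ∃ ρ S b, Pth H B D r univ ρ S ∧ (n : ℝ) ≤ b ∧ ρ 0 = ρ b

/-- NOB: there is no member of the class on a half line: EXA and NOL. -/
def Stmt_NOB : Prop := ∀ (M : Type) [MetricSpace M] [CompactSpace M] (H : M → ℝ → M) (v : M → ℝ → ℝ)
  (e δ : ℝ) (N : ℕ), Dat H v e δ N → TreeLike M → LinP M → ∀ (B : ℝ) (D r : ℝ → ℝ), 0 < B → Pos D →
  Pos r → ∀ (T0 : ℝ) (ρ0 : ℝ → M) (S0 : ℝ → ℝ → ℝ → Prop), Pth H B D r (Ici T0) ρ0 S0 → False

/-! ## D. The ray -/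

/-- RAYQ: the proof of `Dat.false` (Core2.lean), where boundedness is used only for sequences in `Q`. -/
def Stmt_RAYQ : Prop := ∀ (M : Type) [MetricSpace M] [CompactSpace M] (H : M → ℝ → M) (v : M → ℝ → ℝ)
  (e δ : ℝ) (N : ℕ), Dat H v e δ N → HU M → ∀ p : M,
  (∀ x, Joined p x → ∀ t ∈ Icc (0:ℝ) 1, Joined p (H x t)) →
  ∃ z : ℕ → M, (∀ n, Joined p (z n)) ∧ (∀ n, ∀ x ∈ seg p (z n), pa H v e N x (Bey p x) = 1) ∧
    (∀ n, z n ∈ seg p (z (n + 1))) ∧ ∀ w, Joined p w → ∃ n, z n ∉ seg p w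

/-- RPAR: a parametrisation of the union of the arcs `seg p (z n)`. Pass to a subsequence with `z 0 = p` (add it),
`z n ≠ z (n+1)`; on `[n, n+1]` take an arc from `z n` to `z (n+1)` (`exists_arcFn`). Injective: `seg p (z n)` and
`seg (z n) (z (n+1))` meet only in `z n` (`seg_btw'`, `seg_antisymm`), and `r '' [0, n] = seg p (z n)`. -/
def Stmt_RPAR : Prop := ∀ (M : Type) [MetricSpace M] [CompactSpace M] (H : M → ℝ → M) (v : M → ℝ → ℝ)
  (e : ℝ) (N : ℕ), HU M → ∀ (p : M) (z : ℕ → M), (∀ n, Joined p (z n)) →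
  (∀ n, ∀ x ∈ seg p (z n), pa H v e N x (Bey p x) = 1) → (∀ n, z n ∈ seg p (z (n + 1))) →
  (∀ w, Joined p w → ∃ n, z n ∉ seg p w) → ∃ r : ℝ → M, Ray H v e N p r

/-- KAP: the coordinate of the point where the arc from `p` to `w` leaves the ray. `{s ≥ 0 | r s ∈ seg p w}` is
closed, contains `0`, is an initial interval (`seg p (r s) = r '' [0, s]`: `s' ↦ r (s s')` is an `ArcFn`) and bounded
(`unb`). If `kap w > 0` and `r (kap w) ≠ w`: the path from `w` to `p` and then along the ray to `r (kap w + 1)` lies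
in an arc (`LinP`), on which `w` and `r (kap w + 1)` are on the same side of `p` (both arcs from `p` contain
`r (kap w)`), so one of them is between `p` and the other one; contradiction. -/
def Stmt_KAP : Prop := ∀ (M : Type) [MetricSpace M] [CompactSpace M] (H : M → ℝ → M) (v : M → ℝ → ℝ)
  (e : ℝ) (N : ℕ), HU M → LinP M → ∀ (p : M) (r : ℝ → M), Ray H v e N p r →
  ∃ kap : M → ℝ, ∀ w, Joined p w → 0 ≤ kap w ∧ (∀ s : ℝ, 0 ≤ s → (r s ∈ seg p w ↔ s ≤ kap w)) ∧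
    (0 < kap w → r (kap w) = w)

/-- MUC: continuity of the coordinate of `H (r s) t`. If `K` is a continuum containing `w, w'` then
`r s ∈ K` for all `s` in `(min, max]` of `kap w, kap w'` (`seg_iff`), also for the minimum (closed); `K` = image of a
small rectangle has small diameter and `r` is a homeomorphism on compact intervals. -/
def Stmt_MUC : Prop := ∀ (M : Type) [MetricSpace M] [CompactSpace M] (H : M → ℝ → M) (v : M → ℝ → ℝ)
  (e : ℝ) (N : ℕ), Continuous (fun q : M × ℝ => H q.1 q.2) → HU M → ∀ (p : M) (r : ℝ → M),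
  Ray H v e N p r → (∀ x, Joined p x → ∀ t ∈ Icc (0:ℝ) 1, Joined p (H x t)) → ∀ kap : M → ℝ,
  (∀ w, Joined p w → 0 ≤ kap w ∧ (∀ s : ℝ, 0 ≤ s → (r s ∈ seg p w ↔ s ≤ kap w)) ∧
    (0 < kap w → r (kap w) = w)) →
  ContinuousOn (fun q : ℝ × ℝ => kap (H (r q.1) q.2)) (Ici 0 ×ˢ Icc (0:ℝ) 1)

/-- RDD: the real data. (m3): parity one gives `t` with `r s ∈ seg p (H (r s) t)` and `δ < dist (H (r s) t) (r s)` (FLB,
last part; `pa` is `fl` by definition). (m4): `H (r s) t = r s`, and `kap (r s) = s`. -/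
def Stmt_RDD : Prop := ∀ (M : Type) [MetricSpace M] [CompactSpace M] (H : M → ℝ → M) (v : M → ℝ → ℝ)
  (e δ : ℝ) (N : ℕ), Dat H v e δ N → HU M → LinP M → ∀ (p : M) (r : ℝ → M), Ray H v e N p r →
  (∀ x, Joined p x → ∃ t ∈ Icc (0:ℝ) 1, H x t = x) → ∃ μ, RD H δ r μ

/-! ## E. The base member of the class -/

/-- STP. `Y s` = maximum of `μ` over `[0, s] × [0, 1]`, `s (j+1) = Y (s j)`; `Y s > s` by (m3). If `s j` converged to
`S`, then `μ S t > S` for some `t`, by continuity `μ (s j) t > S` for large `j`, contradiction. -/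
def Stmt_STP : Prop := ∀ (M : Type) [MetricSpace M] (H : M → ℝ → M) (δ : ℝ) (r : ℝ → M)
  (μ : ℝ → ℝ → ℝ), RD H δ r μ → ∃ s, Stp μ s

/-- RMX (running maximum of a real path): `m w = max a (sup of φ over [0, w])`. If `m w < m w'` then `m w' = φ w2` with
`w < w2 ≤ w'` and `φ w ≤ m w < φ w2`, so `m w = φ w1` for some `w1 ∈ [w, w2]`. -/
def Stmt_RMX : Prop := ∀ (φ : ℝ → ℝ) (a b : ℝ), ContinuousOn φ (Icc 0 1) → a < b → φ 0 ≤ a → φ 1 = b →
  (∀ w ∈ Icc (0:ℝ) 1, φ w ≤ b) → ∃ m : ℝ → ℝ, ContinuousOn m (Icc 0 1) ∧ MonotoneOn m (Icc 0 1) ∧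
    m 0 = a ∧ m 1 = b ∧ ∀ w ∈ Icc (0:ℝ) 1, ∀ w' ∈ Icc (0:ℝ) 1, w < w' → m w < m w' →
      ∃ w1 ∈ Icc w w', ∃ w2 ∈ Icc w w', m w = φ w1 ∧ m w' = φ w2

/-- PRM (the path). On `[j, j+1]`: `x ≤ s j`, `μ x t' = s (j+1)` (`at'`), `μ x t'' = x ≤ s j` (m4), RMX for
`φ w = μ x (t'' + w (t' - t''))`; `P (j + w) = m w`. Since `s j ≥ 1 > 0`, `r (φ w1) = H (r x) (t'' + w1 (t' - t''))`
by (m2), so distances on `[j, j+1]` are bounded by the modulus of `H` (uniformly continuous on `M × [0, 1]`); across an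
integer: `D ε ≤ 1`, twice `ε / 2`. -/
def Stmt_PRM : Prop := ∀ (M : Type) [MetricSpace M] [CompactSpace M] (H : M → ℝ → M),
  Continuous (fun q : M × ℝ => H q.1 q.2) → ∀ (δ : ℝ) (r : ℝ → M) (μ : ℝ → ℝ → ℝ) (s : ℕ → ℝ),
  RD H δ r μ → Stp μ s → ∃ D P, Pos D ∧ Prm r s D P

/-- BDN (bounded backward displacement). `κ > 0`: `|t - t'| ≤ κ` implies `dist (H x t) (H x t') ≤ δ`. Let
`x = P p ≥ s (i0 + m)`, `P u ≤ s i0`, `μ x t ≤ P u`, `μ x t* = x`. On the segment from `t*` to `t` the continuous function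
`μ x` takes successively the values `s (i0+m), ..., s i0`; between times with values `s (i+1)` and `s i` it takes the
value `μ (s i) t_i ∈ (s i, s (i+1)]` of (m3), and `dist (r (μ (s i) t_i)) (r (s i)) > δ`, so these times differ by
more than `κ` (induction on `m`). So `m κ ≤ 1`. -/
def Stmt_BDN : Prop := ∀ (M : Type) [MetricSpace M] [CompactSpace M] (H : M → ℝ → M),
  Continuous (fun q : M × ℝ => H q.1 q.2) → ∀ (δ : ℝ) (r : ℝ → M) (μ : ℝ → ℝ → ℝ) (s : ℕ → ℝ)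
  (D P : ℝ → ℝ), 0 < δ → RD H δ r μ → Stp μ s → Prm r s D P → ∃ B0 : ℝ, ∀ p : ℝ, 0 ≤ p →
  ∀ u : ℝ, 0 ≤ u → ∀ t ∈ Icc (0:ℝ) 1, μ (P p) t ≤ P u → p - u ≤ B0

/-- BAS (the base member): `ρ0 = r ∘ P`, `S0 p t u := P u < μ (P p) t`, domain `[0, ∞)`, `B = max 2 (B0 + 1)`.
(up): `μ (P p) t ≤ s (j+1)` if `P p ≤ s j`, `j = ⌈p⌉`, and `s (j+1) = P (j+1) ≤ P u`. (dn): BDN. (loc): on the segment
between the two triples the continuous function `μ (P p) t - P u` would vanish, i.e. `H (ρ0 p'') t'' = ρ0 u''` (m2,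
`P ≥ 1`); moduli of `H` and of `ρ0`. -/
def Stmt_BAS : Prop := ∀ (M : Type) [MetricSpace M] [CompactSpace M] (H : M → ℝ → M),
  Continuous (fun q : M × ℝ => H q.1 q.2) → ∀ (δ : ℝ) (r : ℝ → M) (μ : ℝ → ℝ → ℝ) (s : ℕ → ℝ)
  (D P : ℝ → ℝ), 0 < δ → Pos D → RD H δ r μ → Stp μ s → Prm r s D P → ∃ (B : ℝ) (r0 : ℝ → ℝ),
  0 < B ∧ Pos r0 ∧ Pth H B D r0 (Ici 0) (fun p => r (P p)) (fun p t u => P u < μ (P p) t)

/-- MNR: the main theorem for discretised data: RAYQ, RPAR, RDD, STP, PRM, BDN, BAS, NOB. -/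
def Stmt_MNR : Prop := ∀ (M : Type) [MetricSpace M] [CompactSpace M] (H : M → ℝ → M) (v : M → ℝ → ℝ)
  (e δ : ℝ) (N : ℕ), Dat H v e δ N → TreeLike M → LinP M → ∀ p : M,
  (∀ x, Joined p x → ∃ t ∈ Icc (0:ℝ) 1, H x t = x) → False

/-! ## F. No simple triods -/

/-- TRA: arcs from a common point. `seg z x ∩ seg z y` is a continuum containing `z`, so equal to
`f '' [0, τ]` for the arc `f` from `z` to `x`, `m = f τ`. If `m ∉ {z, x, y}`, the three arcs from `m` to `z, x, y`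
form a triod. -/
def Stmt_TRA : Prop := ∀ (M : Type) [MetricSpace M] [CompactSpace M], HU M → NoTriod M → ∀ z x y : M,
  Joined z x → Joined z y → seg z x ∩ seg z y = {z} ∨ x ∈ seg z y ∨ y ∈ seg z x

/-- TRB: at most two directions at `z` (three arcs from `z` meeting pairwise in `z` form a triod). -/
def Stmt_TRB : Prop := ∀ (M : Type) [MetricSpace M] [CompactSpace M], HU M → NoTriod M → ∀ z x y w : M,
  Joined z x → Joined z y → Joined z w → x ≠ z → y ≠ z → w ≠ z → seg z x ∩ seg z y = {z} →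
  seg z x ∩ seg z w = {z} → seg z y ∩ seg z w ≠ {z}

/-- TRM (maxima). `A` = points of the path in the direction of `x` from `z`, totally ordered by `a ∈ seg z b` (TRA). If
there were no maximum there would be `a 0, a 1, ...` in `A`, `a n ∈ seg z (a (n+1))`, `a n ≠ a (n+1)`, cofinal (countable
basis, as in the end of the proof of `Dat.false`); parameters `u n → u` (subsequence), `y = f u`. The images of
`[u n, u]` are continua of small diameter; if `a m ∉ seg z y` for some `m`, then for `n > m` they contain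
`seg (a n) y ∋ a m, a (m+1)` (cut the path from `z`), contradiction; so `y` is an upper bound in `A`. -/
def Stmt_TRM : Prop := ∀ (M : Type) [MetricSpace M] [CompactSpace M], HU M → NoTriod M →
  ∀ (f : ℝ → M) (c d : ℝ), c ≤ d → ContinuousOn f (Icc c d) → ∀ x ∈ f '' Icc c d, x ≠ f c →
  ∃ y ∈ f '' Icc c d, x ∈ seg (f c) y ∧
    ∀ w ∈ f '' Icc c d, seg (f c) w ∩ seg (f c) x ≠ {f c} → w ∈ seg (f c) y

/-- TRC: with TRM in the (at most two) directions at `z = f c`: the path lies in `seg z a ∪ seg z b`, which is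
`seg a b` (if `seg z a ∩ seg z b = {z}`): otherwise `z ∉ seg a b`, and the continua `seg z a ∪ seg z b` and
`seg a b` have a disconnected intersection. -/
def Stmt_TRC : Prop := ∀ (M : Type) [MetricSpace M] [CompactSpace M], HU M → NoTriod M → LinP M

/-! ## G. Results -/

/-- RES1. `exists_dat`, MNR, `TreeLike.hu`, TRC. -/
def Stmt_RES1 : Prop := ∀ (M : Type) [MetricSpace M] [CompactSpace M], TreeLike M → NoTriod M →
  ∀ (G : C(M × unitInterval, M × unitInterval)) (p : M),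
  (∀ x, Joined p x → ∃ t, (G (x, t)).1 = x) → ∃ q, G q = q

/-- HID: `x ↦ (G (x, 0)).1` homotopic to the identity, `F` the homotopy from the identity. `G'` :
`h' (x, t) = F (2t, x)` for `t ≤ 1/2`, `h (x, 2t-1)` for `t ≥ 1/2`; `k' (x, t) = (1 + k (x, 0))/2` for `t ≤ 1/2`,
`(1 + k (x, 2t-1))/2` for `t ≥ 1/2`. A fixed point of `G'` gives one of `G`, and `h' (x, 0) = x`. -/
def Stmt_HID : Prop := ∀ (M : Type) [MetricSpace M] [CompactSpace M], TreeLike M → NoTriod M →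
  ∀ (G : C(M × unitInterval, M × unitInterval)),
  (ContinuousMap.mk (fun x : M => (G (x, 0)).1) (by fun_prop)).Homotopic (ContinuousMap.id M) →
  ∃ q, G q = q

/-- HNL: `x ↦ (G (x, 0)).1` homotopic to the constant `c`. Suppose no fixed point; `exists_dat`; all `H x t` are joined
to `c`. RAYQ with `p = c`: `z n`. With the homotopy (from `c` to `h (·, 0)`) followed by `h`: a continuous
`K : M × I → M` with `K (x, 0) = c` such that every `H x t` is some `K (x, t')`. Parity one at `z n` gives `H (z n) t` with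
`z n ∈ seg c (H (z n) t) ⊆ K ({z n} × I)`, so `z m ∈ K ({z n} × I)` for `m ≤ n`. A limit point `x` of the `z n`:
`z m ∈ K ({x} × I)` for all `m`, a path from `c`, in an arc (LinP); so the `z m` are bounded by some `w` joined
to `c`, contradiction. -/
def Stmt_HNL : Prop := ∀ (M : Type) [MetricSpace M] [CompactSpace M], TreeLike M → NoTriod M →
  ∀ (G : C(M × unitInterval, M × unitInterval)) (c : M),
  (ContinuousMap.mk (fun x : M => (G (x, 0)).1) (by fun_prop)).Homotopic (ContinuousMap.const M c) →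
  ∃ q, G q = q

end Pool.RY
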